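import Pool.Agent.Lib.MP_09cbbd_rd.DDef

/-!
# A connected body: the body
-/

set_option autoImplicit false

namespace Pool.Agent.RC

namespace DPar

/-- the body -/
def body {d : ℕ} (X : DPar) (I : Dir3 d) (G : (Fin d → ℤ) → Prop) (δ : ℝ) : Set (Fin d → ℝ) :=
  {x | ∃ p : Fin d → ℤ, X.P I G p ∧ ∀ j, δ * p j ≤ x j ∧ x j ≤ δ * p j + δ}

end DPar

end Pool.Agent.RC
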