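import Pool.Agent.Lib.MP_09cbbd_rd.DDef

/-!
# A connected body in dimension at least three: the integer part is connected
-/

set_option autoImplicit false

namespace Pool.Agent.RC

namespace DPar

variable {X : DPar} {d : ℕ} {I : Dir3 d} {G : (Fin d → ℤ) → Prop} {ρ : ℤ}

/-- the cubes at `p` and `q` have a common face, or `p = q` -/
def Adj (p q : Fin d → ℤ) : Prop := ∃ l, |p l - q l| ≤ 1 ∧ ∀ j, j ≠ l → p j = q j

theorem Adj.symm {p q : Fin d → ℤ} (h : Adj p q) : Adj q p := by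
  obtain ⟨l, h1, h2⟩ := h
  exact ⟨l, by rw [abs_sub_comm]; exact h1, fun j hj => (h2 j hj).symm⟩

/-- `p` and `q` are joined in `S`. -/
def Jn (S : (Fin d → ℤ) → Prop) (p q : Fin d → ℤ) : Prop :=
  Relation.ReflTransGen (fun x y => Adj x y ∧ S x ∧ S y) p q

theorem Jn.refl (S : (Fin d → ℤ) → Prop) (p : Fin d → ℤ) : Jn S p p := Relation.ReflTransGen.refl

theorem Jn.trans {S : (Fin d → ℤ) → Prop} {p q s : Fin d → ℤ} (h : Jn S p q) (h' : Jn S q s) :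
    Jn S p s := Relation.ReflTransGen.trans h h'

theorem Jn.single {S : (Fin d → ℤ) → Prop} {p q : Fin d → ℤ} (h : Adj p q) (hp : S p)
    (hq : S q) : Jn S p q := Relation.ReflTransGen.single ⟨h, hp, hq⟩

theorem Jn.symm {S : (Fin d → ℤ) → Prop} {p q : Fin d → ℤ} (h : Jn S p q) : Jn S q p := by
  induction h with
  | refl => exact Jn.refl S p
  | tail _ h2 ih => exact (Jn.single h2.1.symm h2.2.2 h2.2.1).trans ih

theorem Jn.mono {S T : (Fin d → ℤ) → Prop} {p q : Fin d → ℤ} (hST : ∀ x, S x → T x)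
    (h : Jn S p q) : Jn T p q := by
  induction h with
  | refl => exact Jn.refl T p
  | tail _ h2 ih => exact ih.trans (Jn.single h2.1 (hST _ h2.2.1) (hST _ h2.2.2))

/-- A move in one coordinate, upwards. -/
theorem Jn.up {S : (Fin d → ℤ) → Prop} (f : ℤ → Fin d → ℤ) (hf : ∀ x, Adj (f x) (f (x + 1)))
    {x : ℤ} : ∀ k : ℕ, (∀ y, x ≤ y → y ≤ x + k → S (f y)) → Jn S (f x) (f (x + k))
  | 0, _ => by
    rw [Nat.cast_zero, add_zero]
    exact Jn.refl S _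
  | k + 1, h => by
    refine (Jn.up f hf k fun y h1 h2 => h y h1 (by push_cast; omega)).trans ?_
    have e : f (x + ((k + 1 : ℕ) : ℤ)) = f (x + k + 1) := by
      congr 1
      push_cast
      ring
    rw [e]
    exact Jn.single (hf _) (h _ (by omega) (by push_cast; omega)) (h _ (by omega)
      (by push_cast; omega))

/-- A move in one coordinate. -/
theorem Jn.move {S : (Fin d → ℤ) → Prop} (f : ℤ → Fin d → ℤ) (hf : ∀ x, Adj (f x) (f (x + 1)))
    {x x' : ℤ} (h : ∀ y, (x ≤ y ∧ y ≤ x') ∨ (x' ≤ y ∧ y ≤ x) → S (f y)) :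
    Jn S (f x) (f x') := by
  rcases le_total x x' with hx | hx
  · have h1 := Jn.up (S := S) f hf (x := x) (x' - x).toNat fun y h1 h2 => h y (Or.inl ⟨h1, by
      omega⟩)
    have e : x + ((x' - x).toNat : ℤ) = x' := by omega
    rwa [e] at h1
  · have h1 := Jn.up (S := S) f hf (x := x') (x - x').toNat fun y h1 h2 => h y (Or.inr ⟨h1, by
      omega⟩)
    have e : x' + ((x - x').toNat : ℤ) = x := by omega
    rw [e] at h1
    exact h1.symm

theorem adj_update (p : Fin d → ℤ) (l : Fin d) (x : ℤ) :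
    Adj (Function.update p l x) (Function.update p l (x + 1)) := by
  refine ⟨l, ?_, fun j hj => ?_⟩
  · rw [Function.update_self, Function.update_self]
    rw [abs_le]
    constructor <;> omega
  · rw [Function.update_of_ne hj, Function.update_of_ne hj]

open Classical in
/-- **Boxes are connected.** -/
theorem box_conn {S : (Fin d → ℤ) → Prop} {p q : Fin d → ℤ}
    (h : ∀ x : Fin d → ℤ, (∀ l, (p l ≤ x l ∧ x l ≤ q l) ∨ (q l ≤ x l ∧ x l ≤ p l)) → S x) :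
    Jn S p q := by
  have key : ∀ s : Finset (Fin d), Jn S p (s.piecewise q p) := by
    intro s
    induction s using Finset.induction with
    | empty =>
      rw [Finset.piecewise_empty]
      exact Jn.refl S p
    | insert a s ha ih =>
      refine ih.trans ?_
      rw [Finset.piecewise_insert]
      have e : s.piecewise q p = Function.update (s.piecewise q p) a (p a) := by
        rw [eq_comm, Function.update_eq_self_iff, Finset.piecewise_eq_of_notMem _ _ _ ha]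
      conv_lhs => rw [e]
      refine Jn.move (S := S) (fun x => Function.update (s.piecewise q p) a x)
        (fun x => adj_update _ a x) fun y hy => h _ fun l => ?_
      by_cases hl : l = a
      · subst hl
        rw [Function.update_self]
        exact hy
      · rw [Function.update_of_ne hl]
        by_cases hs : l ∈ s
        · rw [Finset.piecewise_eq_of_mem _ _ _ hs]
          omega
        · rw [Finset.piecewise_eq_of_notMem _ _ _ hs]
          omega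
  have h1 := key Finset.univ
  rwa [Finset.piecewise_univ] at h1

/-! ### Points by their coordinates -/

/-- the point with the coordinates `x`, `y`, `z` and the other coordinates of `q` -/
def pt (I : Dir3 d) (x y z : ℤ) (q : Fin d → ℤ) : Fin d → ℤ := fun j =>
  if j = I.i₁ then x else if j = I.i₂ then y else if j = I.i₃ then z else q j

@[simp] theorem pt_1 (x y z : ℤ) (q : Fin d → ℤ) : pt I x y z q I.i₁ = x := if_pos rfl

@[simp] theorem pt_2 (x y z : ℤ) (q : Fin d → ℤ) : pt I x y z q I.i₂ = y := by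
  unfold pt
  rw [if_neg I.h12.symm, if_pos rfl]

@[simp] theorem pt_3 (x y z : ℤ) (q : Fin d → ℤ) : pt I x y z q I.i₃ = z := by
  unfold pt
  rw [if_neg I.h13.symm, if_neg I.h23.symm, if_pos rfl]

theorem pt_of_ne {x y z : ℤ} {q : Fin d → ℤ} {l : Fin d} (h1 : l ≠ I.i₁) (h2 : l ≠ I.i₂)
    (h3 : l ≠ I.i₃) : pt I x y z q l = q l := by
  unfold pt
  rw [if_neg h1, if_neg h2, if_neg h3]

theorem pt_self (q : Fin d → ℤ) : pt I (q I.i₁) (q I.i₂) (q I.i₃) q = q := by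
  funext j
  by_cases h1 : j = I.i₁
  · subst h1
    exact pt_1 _ _ _ _
  by_cases h2 : j = I.i₂
  · subst h2
    exact pt_2 _ _ _ _
  by_cases h3 : j = I.i₃
  · subst h3
    exact pt_3 _ _ _ _
  exact pt_of_ne h1 h2 h3

@[simp] theorem O_pt {K x y z : ℤ} {q : Fin d → ℤ} : O I K (pt I x y z q) ↔ O I K q := by
  unfold O
  refine forall_congr' fun l => ⟨fun h h1 h2 h3 => ?_, fun h h1 h2 h3 => ?_⟩
  · have := h h1 h2 h3
    rwa [pt_of_ne h1 h2 h3] at this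
  · rw [pt_of_ne h1 h2 h3]
    exact h h1 h2 h3

theorem O_zero {K : ℤ} (hK : 0 ≤ K) : O I K (0 : Fin d → ℤ) := fun l _ _ _ => by
  simpa using hK

theorem O.mono {K K' : ℤ} {q : Fin d → ℤ} (h : O I K q) (hK : K ≤ K') : O I K' q :=
  fun l h1 h2 h3 => (h l h1 h2 h3).trans hK

theorem pt_eq_of {x y z : ℤ} {q q' : Fin d → ℤ}
    (h : ∀ l, l ≠ I.i₁ → l ≠ I.i₂ → l ≠ I.i₃ → q l = q' l) : pt I x y z q = pt I x y z q' := by
  funext j
  by_cases h1 : j = I.i₁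
  · subst h1
    rw [pt_1, pt_1]
  by_cases h2 : j = I.i₂
  · subst h2
    rw [pt_2, pt_2]
  by_cases h3 : j = I.i₃
  · subst h3
    rw [pt_3, pt_3]
  rw [pt_of_ne h1 h2 h3, pt_of_ne h1 h2 h3]
  exact h j h1 h2 h3

theorem O_zero_eq {q : Fin d → ℤ} (h : O I 0 q) (x y z : ℤ) : pt I x y z q = pt I x y z 0 :=
  pt_eq_of fun l h1 h2 h3 => by
    have := h l h1 h2 h3
    rw [Pi.zero_apply]
    exact abs_nonpos_iff.1 this

theorem adj_1 (x y z : ℤ) (q : Fin d → ℤ) : Adj (pt I x y z q) (pt I (x + 1) y z q) := by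
  refine ⟨I.i₁, by rw [pt_1, pt_1, abs_le]; constructor <;> omega, fun j hj => ?_⟩
  unfold pt
  rw [if_neg hj, if_neg hj]

theorem adj_2 (x y z : ℤ) (q : Fin d → ℤ) : Adj (pt I x y z q) (pt I x (y + 1) z q) := by
  refine ⟨I.i₂, by rw [pt_2, pt_2, abs_le]; constructor <;> omega, fun j hj => ?_⟩
  unfold pt
  rw [if_neg hj, if_neg hj]

theorem adj_3 (x y z : ℤ) (q : Fin d → ℤ) : Adj (pt I x y z q) (pt I x y (z + 1) q) := by
  refine ⟨I.i₃, by rw [pt_3, pt_3, abs_le]; constructor <;> omega, fun j hj => ?_⟩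
  unfold pt
  rw [if_neg hj, if_neg hj]

variable {S : (Fin d → ℤ) → Prop} {q : Fin d → ℤ}

theorem Jn.move1 {x x' y z : ℤ}
    (h : ∀ w, (x ≤ w ∧ w ≤ x') ∨ (x' ≤ w ∧ w ≤ x) → S (pt I w y z q)) :
    Jn S (pt I x y z q) (pt I x' y z q) :=
  Jn.move (fun w => pt I w y z q) (fun w => adj_1 w y z q) h

theorem Jn.move2 {x y y' z : ℤ}
    (h : ∀ w, (y ≤ w ∧ w ≤ y') ∨ (y' ≤ w ∧ w ≤ y) → S (pt I x w z q)) :
    Jn S (pt I x y z q) (pt I x y' z q) :=
  Jn.move (fun w => pt I x w z q) (fun w => adj_2 x w z q) h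

theorem Jn.move3 {x y z z' : ℤ}
    (h : ∀ w, (z ≤ w ∧ w ≤ z') ∨ (z' ≤ w ∧ w ≤ z) → S (pt I x y w q)) :
    Jn S (pt I x y z q) (pt I x y z' q) :=
  Jn.move (fun w => pt I x y w q) (fun w => adj_3 x y w q) h

/-- The other coordinates move to zero. -/
theorem Jn.others {x y z K : ℤ} (hq : O I K q) (h : ∀ q', O I K q' → S (pt I x y z q')) :
    Jn S (pt I x y z q) (pt I x y z 0) := by
  refine box_conn fun w hw => ?_
  have e : w = pt I x y z w := by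
    refine (pt_self (I := I) w).symm.trans ?_
    have h1 := hw I.i₁
    have h2 := hw I.i₂
    have h3 := hw I.i₃
    rw [pt_1, pt_1] at h1
    rw [pt_2, pt_2] at h2
    rw [pt_3, pt_3] at h3
    congr 1 <;> omega
  rw [e]
  refine h w fun l h1 h2 h3 => ?_
  have h4 := hw l
  rw [pt_of_ne h1 h2 h3, pt_of_ne h1 h2 h3, Pi.zero_apply] at h4
  have h5 := abs_le.1 (hq l h1 h2 h3)
  rw [abs_le]
  constructor <;> omega

/-- A diagonal move. -/
theorem Jn.diag1 {x y z : ℤ} : ∀ k : ℕ, (∀ j : ℤ, 0 ≤ j → j ≤ k → S (pt I (x + j) (y + j) z q)) →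
    (∀ j : ℤ, 0 ≤ j → j < k → S (pt I (x + j + 1) (y + j) z q)) →
    Jn S (pt I x y z q) (pt I (x + k) (y + k) z q)
  | 0, _, _ => by
    rw [Nat.cast_zero, add_zero, add_zero]
    exact Jn.refl S _
  | k + 1, h1, h2 => by
    refine (Jn.diag1 k (fun j hj hj' => h1 j hj (by push_cast; omega))
      fun j hj hj' => h2 j hj (by push_cast; omega)).trans ?_
    have a1 := h1 k (by omega) (by push_cast; omega)
    have a2 := h2 k (by omega) (by push_cast; omega)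
    have a3 := h1 (k + 1) (by omega) (by push_cast; omega)
    have e1 : x + ((k + 1 : ℕ) : ℤ) = x + k + 1 := by push_cast; ring
    have e2 : y + ((k + 1 : ℕ) : ℤ) = y + k + 1 := by push_cast; ring
    rw [e1, e2]
    rw [← add_assoc, ← add_assoc] at a3
    exact (Jn.single (adj_1 _ _ _ _) a1 a2).trans (Jn.single (adj_2 _ _ _ _) a2 a3)

/-- An antidiagonal move. -/
theorem Jn.diag2 {x y z : ℤ} : ∀ k : ℕ, (∀ j : ℤ, 0 ≤ j → j ≤ k → S (pt I (x + j) (y - j) z q)) →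
    (∀ j : ℤ, 0 ≤ j → j < k → S (pt I (x + j + 1) (y - j) z q)) →
    Jn S (pt I x y z q) (pt I (x + k) (y - k) z q)
  | 0, _, _ => by
    rw [Nat.cast_zero, add_zero, sub_zero]
    exact Jn.refl S _
  | k + 1, h1, h2 => by
    refine (Jn.diag2 k (fun j hj hj' => h1 j hj (by push_cast; omega))
      fun j hj hj' => h2 j hj (by push_cast; omega)).trans ?_
    have a1 := h1 k (by omega) (by push_cast; omega)
    have a2 := h2 k (by omega) (by push_cast; omega)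
    have a3 := h1 (k + 1) (by omega) (by push_cast; omega)
    have e1 : x + ((k + 1 : ℕ) : ℤ) = x + k + 1 := by push_cast; ring
    have e2 : y - ((k + 1 : ℕ) : ℤ) = y - k - 1 := by push_cast; ring
    rw [e1, e2]
    rw [← add_assoc, ← sub_sub] at a3
    refine (Jn.single (adj_1 _ _ _ _) a1 a2).trans (Jn.single ?_ a2 a3)
    have h3 := adj_2 (I := I) (x + k + 1) (y - k - 1) z q
    rw [sub_add_cancel] at h3
    exact h3.symm

/-! ### The grids -/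

theorem grid_pt {p o ℓ x y z : ℤ} : X.Grid I p o ℓ (pt I x y z q) ↔
    ((|x| ≤ X.B ∧ |y - o| ≤ X.B ∧ O I X.B q) ∧
      (((∃ e : ℤ, (e = 0 ∨ e = 1) ∧ 2 * p ∣ x - (y - o) - e) ∧ z = ℓ) ∨
        ((∃ e : ℤ, (e = 0 ∨ e = 1) ∧ 2 * p ∣ x + (y - o) - e) ∧ z = ℓ + X.h0) ∨
        ((p ∣ x ∧ p ∣ y - o ∧ 2 * p ∣ x + (y - o)) ∧ ℓ ≤ z ∧ z ≤ ℓ + X.h0))) := by
  simp only [Grid, Box, D1, D2, Lat, pt_1, pt_2, pt_3, O_pt]

theorem h0_pos : 0 < X.h0 := by
  have := X.hb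
  unfold h0
  omega

section Grids

variable {p o ℓ x y z : ℤ}

theorem grid_row (hB : 0 ≤ X.B) {w : ℤ} (h : x - (y - o) = 2 * w) (hw : p ∣ w) (hx : |x| ≤ X.B)
    (hy : |y - o| ≤ X.B) {j : ℤ} (hx' : |x + j| ≤ X.B) (hy' : |y + j - o| ≤ X.B) :
    Jn (X.Grid I p o ℓ) (pt I x y ℓ 0) (pt I (x + j) (y + j) ℓ 0) := by
  have hO : O I X.B (0 : Fin d → ℤ) := O_zero hB
  have hd : 2 * p ∣ 2 * w := mul_dvd_mul_left 2 hw
  rw [abs_le] at hx hy hx' hy'
  rcases le_total 0 j with hj | hj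
  · have h1 := Jn.diag1 (I := I) (S := X.Grid I p o ℓ) (q := 0) (x := x) (y := y) (z := ℓ) j.toNat
      (fun i hi hi' => grid_pt.2 ⟨⟨by rw [abs_le]; omega, by rw [abs_le]; omega, hO⟩, Or.inl
        ⟨⟨0, Or.inl rfl, by rw [show x + i - (y + i - o) - 0 = 2 * w by omega]; exact hd⟩, rfl⟩⟩)
      (fun i hi hi' => grid_pt.2 ⟨⟨by rw [abs_le]; omega, by rw [abs_le]; omega, hO⟩, Or.inl
        ⟨⟨1, Or.inr rfl, by rw [show x + i + 1 - (y + i - o) - 1 = 2 * w by omega]; exact hd⟩,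
          rfl⟩⟩)
    rwa [Int.toNat_of_nonneg hj] at h1
  · have h1 := Jn.diag1 (I := I) (S := X.Grid I p o ℓ) (q := 0) (x := x + j) (y := y + j) (z := ℓ)
      (-j).toNat
      (fun i hi hi' => grid_pt.2 ⟨⟨by rw [abs_le]; omega, by rw [abs_le]; omega, hO⟩, Or.inl
        ⟨⟨0, Or.inl rfl, by rw [show x + j + i - (y + j + i - o) - 0 = 2 * w by omega]; exact hd⟩,
          rfl⟩⟩)
      (fun i hi hi' => grid_pt.2 ⟨⟨by rw [abs_le]; omega, by rw [abs_le]; omega, hO⟩, Or.inl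
        ⟨⟨1, Or.inr rfl, by
          rw [show x + j + i + 1 - (y + j + i - o) - 1 = 2 * w by omega]; exact hd⟩, rfl⟩⟩)
    rw [Int.toNat_of_nonneg (by omega), show x + j + -j = x by ring,
      show y + j + -j = y by ring] at h1
    exact h1.symm

theorem grid_col (hB : 0 ≤ X.B) {w : ℤ} (h : x + (y - o) = 2 * w) (hw : p ∣ w) (hx : |x| ≤ X.B)
    (hy : |y - o| ≤ X.B) {j : ℤ} (hx' : |x + j| ≤ X.B) (hy' : |y - j - o| ≤ X.B) :
    Jn (X.Grid I p o ℓ) (pt I x y (ℓ + X.h0) 0) (pt I (x + j) (y - j) (ℓ + X.h0) 0) := by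
  have hO : O I X.B (0 : Fin d → ℤ) := O_zero hB
  have hd : 2 * p ∣ 2 * w := mul_dvd_mul_left 2 hw
  rw [abs_le] at hx hy hx' hy'
  rcases le_total 0 j with hj | hj
  · have h1 := Jn.diag2 (I := I) (S := X.Grid I p o ℓ) (q := 0) (x := x) (y := y)
      (z := ℓ + X.h0) j.toNat
      (fun i hi hi' => grid_pt.2 ⟨⟨by rw [abs_le]; omega, by rw [abs_le]; omega, hO⟩, Or.inr <|
        Or.inl ⟨⟨0, Or.inl rfl, by rw [show x + i + (y - i - o) - 0 = 2 * w by omega]; exact hd⟩,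
          rfl⟩⟩)
      (fun i hi hi' => grid_pt.2 ⟨⟨by rw [abs_le]; omega, by rw [abs_le]; omega, hO⟩, Or.inr <|
        Or.inl ⟨⟨1, Or.inr rfl, by
          rw [show x + i + 1 + (y - i - o) - 1 = 2 * w by omega]; exact hd⟩, rfl⟩⟩)
    rwa [Int.toNat_of_nonneg hj] at h1
  · have h1 := Jn.diag2 (I := I) (S := X.Grid I p o ℓ) (q := 0) (x := x + j) (y := y - j)
      (z := ℓ + X.h0) (-j).toNat
      (fun i hi hi' => grid_pt.2 ⟨⟨by rw [abs_le]; omega, by rw [abs_le]; omega, hO⟩, Or.inr <|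
        Or.inl ⟨⟨0, Or.inl rfl, by
          rw [show x + j + i + (y - j - i - o) - 0 = 2 * w by omega]; exact hd⟩, rfl⟩⟩)
      (fun i hi hi' => grid_pt.2 ⟨⟨by rw [abs_le]; omega, by rw [abs_le]; omega, hO⟩, Or.inr <|
        Or.inl ⟨⟨1, Or.inr rfl, by
          rw [show x + j + i + 1 + (y - j - i - o) - 1 = 2 * w by omega]; exact hd⟩, rfl⟩⟩)
    rw [Int.toNat_of_nonneg (by omega), show x + j + -j = x by ring,
      show y - j - -j = y by ring] at h1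
    exact h1.symm

/-- The short columns of a grid. -/
theorem grid_short (h1 : p ∣ x) (h2 : p ∣ y - o) (h3 : 2 * p ∣ x + (y - o)) (hx : |x| ≤ X.B)
    (hy : |y - o| ≤ X.B) (hq : O I X.B q) (hz : ℓ ≤ z ∧ z ≤ ℓ + X.h0) {z' : ℤ}
    (hz' : ℓ ≤ z' ∧ z' ≤ ℓ + X.h0) :
    Jn (X.Grid I p o ℓ) (pt I x y z q) (pt I x y z' q) :=
  Jn.move3 fun w hw => grid_pt.2 ⟨⟨hx, hy, hq⟩, Or.inr (Or.inr ⟨⟨h1, h2, h3⟩, by omega, by
    omega⟩)⟩

/-- From a point of a row line to the centre. -/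
theorem grid_D1 (hB : 0 ≤ X.B) {w : ℤ} (h : x - (y - o) = 2 * w) (hw : p ∣ w) (hx : |x| ≤ X.B)
    (hy : |y - o| ≤ X.B) : Jn (X.Grid I p o ℓ) (pt I x y ℓ 0) (pt I 0 o ℓ 0) := by
  have hh := X.h0_pos
  have hO : O I X.B (0 : Fin d → ℤ) := O_zero hB
  have hx1 := abs_le.1 hx
  have hy1 := abs_le.1 hy
  have hw1 : |w| ≤ X.B := by rw [abs_le]; omega
  -- along the line
  have h1 := grid_row (I := I) (ℓ := ℓ) hB h hw hx hy (j := w - x)
    (by rw [abs_le]; omega) (by rw [abs_le]; omega)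
  rw [show x + (w - x) = w by ring, show y + (w - x) = o - w by omega] at h1
  -- up
  have h2 := grid_short (X := X) (I := I) (q := 0) (p := p) (o := o) (ℓ := ℓ) (x := w)
    (y := o - w) (z := ℓ) (z' := ℓ + X.h0) hw
    (by rw [show o - w - o = -w by ring]; exact (dvd_neg).2 hw)
    (by rw [show w + (o - w - o) = 0 by ring]; exact dvd_zero _) hw1
    (by rw [abs_le] at hw1 ⊢; omega) hO (by omega) (by omega)
  -- along the column
  have h3 := grid_col (X := X) (I := I) (ℓ := ℓ) (p := p) (o := o) (x := w) (y := o - w) hB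
    (w := 0) (by ring) (dvd_zero _) hw1 (by rw [abs_le] at hw1 ⊢; omega) (j := -w)
    (by rw [abs_le]; omega) (by rw [abs_le]; omega)
  rw [show w + -w = 0 by ring, show o - w - -w = o by ring] at h3
  -- down
  have h4 := grid_short (X := X) (I := I) (q := 0) (p := p) (o := o) (ℓ := ℓ) (x := 0)
    (y := o) (z := ℓ + X.h0) (z' := ℓ) (dvd_zero _) (by rw [sub_self]; exact dvd_zero _)
    (by rw [sub_self, add_zero]; exact dvd_zero _) (by rw [abs_zero]; exact hB)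
    (by rw [sub_self, abs_zero]; exact hB) hO (by omega) (by omega)
  exact ((h1.trans h2).trans h3).trans h4

/-- From a point of a column line to the centre. -/
theorem grid_D2 (hB : 0 ≤ X.B) {w : ℤ} (h : x + (y - o) = 2 * w) (hw : p ∣ w) (hx : |x| ≤ X.B)
    (hy : |y - o| ≤ X.B) : Jn (X.Grid I p o ℓ) (pt I x y (ℓ + X.h0) 0) (pt I 0 o ℓ 0) := by
  have hh := X.h0_pos
  have hO : O I X.B (0 : Fin d → ℤ) := O_zero hB
  have hx1 := abs_le.1 hx
  have hy1 := abs_le.1 hy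
  have hw1 : |w| ≤ X.B := by rw [abs_le]; omega
  have h1 := grid_col (X := X) (I := I) (ℓ := ℓ) hB h hw hx hy (j := w - x)
    (by rw [abs_le]; omega) (by rw [abs_le]; omega)
  rw [show x + (w - x) = w by ring, show y - (w - x) = o + w by omega] at h1
  have h2 := grid_short (X := X) (I := I) (q := 0) (p := p) (o := o) (ℓ := ℓ) (x := w)
    (y := o + w) (z := ℓ + X.h0) (z' := ℓ) hw
    (by rw [show o + w - o = w by ring]; exact hw)
    (by rw [show w + (o + w - o) = 2 * w by ring]; exact mul_dvd_mul_left 2 hw) hw1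
    (by rw [abs_le] at hw1 ⊢; omega) hO (by omega) (by omega)
  have h3 := grid_D1 (X := X) (I := I) (ℓ := ℓ) (p := p) (o := o) (x := w) (y := o + w) hB
    (w := 0) (by ring) (dvd_zero _) hw1 (by rw [abs_le] at hw1 ⊢; omega)
  exact (h1.trans h2).trans h3

/-- **The grids are connected.** -/
theorem grid_conn (hB : 0 ≤ X.B) {q : Fin d → ℤ} (hq : X.Grid I p o ℓ q) :
    Jn (X.Grid I p o ℓ) q (pt I 0 o ℓ 0) := by
  have hh := X.h0_pos
  obtain ⟨x, hx⟩ : ∃ x, x = q I.i₁ := ⟨_, rfl⟩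
  obtain ⟨y, hy⟩ : ∃ y, y = q I.i₂ := ⟨_, rfl⟩
  obtain ⟨z, hz⟩ : ∃ z, z = q I.i₃ := ⟨_, rfl⟩
  have eq : pt I x y z q = q := by
    rw [hx, hy, hz]
    exact pt_self q
  rw [← eq] at hq
  have h0 : Jn (X.Grid I p o ℓ) q (pt I x y z 0) := by
    have h1 := grid_pt.1 hq
    have h2 : Jn (X.Grid I p o ℓ) (pt I x y z q) (pt I x y z 0) :=
      Jn.others h1.1.2.2 fun q' hq' => grid_pt.2 ⟨⟨h1.1.1, h1.1.2.1, hq'⟩, h1.2⟩
    rwa [eq] at h2
  clear hz eq
  refine h0.trans ?_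
  obtain ⟨⟨hx0, hy0, hO⟩, h1⟩ := grid_pt.1 hq
  have hO0 : O I X.B (0 : Fin d → ℤ) := O_zero hB
  have hx1 := abs_le.1 hx0
  have hy1 := abs_le.1 hy0
  rcases h1 with ⟨⟨e, he, k, hk⟩, hz⟩ | ⟨⟨e, he, k, hk⟩, hz⟩ | ⟨⟨h1, h2, h3⟩, h4⟩
  · rw [hz]
    have hk' : x - (y - o) - e = 2 * (p * k) := by rw [hk]; ring
    have hd : p ∣ p * k := dvd_mul_right p k
    generalize p * k = w at hk' hd
    have hdd : 2 * p ∣ 2 * w := mul_dvd_mul_left 2 hd
    rcases he with rfl | rfl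
    · exact grid_D1 hB (by omega) hd hx0 hy0
    · have hg : X.Grid I p o ℓ (pt I x y ℓ 0) := grid_pt.2 ⟨⟨hx0, hy0, hO0⟩, Or.inl
        ⟨⟨1, Or.inr rfl, by rw [hk']; exact hdd⟩, rfl⟩⟩
      by_cases hxB : -X.B ≤ x - 1
      · have hx2 : |x - 1| ≤ X.B := by rw [abs_le]; omega
        have ha := adj_1 (I := I) (x - 1) y ℓ 0
        rw [sub_add_cancel] at ha
        refine (Jn.single ha.symm hg (grid_pt.2 ⟨⟨hx2, hy0, hO0⟩, Or.inl
          ⟨⟨0, Or.inl rfl, by rw [show x - 1 - (y - o) - 0 = 2 * w by omega]; exact hdd⟩,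
            rfl⟩⟩)).trans ?_
        exact grid_D1 hB (by omega) hd hx2 hy0
      · have hy2 : |y + 1 - o| ≤ X.B := by rw [abs_le]; omega
        refine (Jn.single (adj_2 (I := I) x y ℓ 0) hg (grid_pt.2 ⟨⟨hx0, hy2, hO0⟩, Or.inl
          ⟨⟨0, Or.inl rfl, by rw [show x - (y + 1 - o) - 0 = 2 * w by omega]; exact hdd⟩,
            rfl⟩⟩)).trans ?_
        exact grid_D1 hB (by omega) hd hx0 hy2
  · rw [hz]
    have hk' : x + (y - o) - e = 2 * (p * k) := by rw [hk]; ring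
    have hd : p ∣ p * k := dvd_mul_right p k
    generalize p * k = w at hk' hd
    have hdd : 2 * p ∣ 2 * w := mul_dvd_mul_left 2 hd
    rcases he with rfl | rfl
    · exact grid_D2 hB (by omega) hd hx0 hy0
    · have hg : X.Grid I p o ℓ (pt I x y (ℓ + X.h0) 0) := grid_pt.2 ⟨⟨hx0, hy0, hO0⟩, Or.inr <|
        Or.inl ⟨⟨1, Or.inr rfl, by rw [hk']; exact hdd⟩, rfl⟩⟩
      by_cases hxB : -X.B ≤ x - 1
      · have hx2 : |x - 1| ≤ X.B := by rw [abs_le]; omega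
        have ha := adj_1 (I := I) (x - 1) y (ℓ + X.h0) 0
        rw [sub_add_cancel] at ha
        refine (Jn.single ha.symm hg (grid_pt.2 ⟨⟨hx2, hy0, hO0⟩, Or.inr <| Or.inl
          ⟨⟨0, Or.inl rfl, by rw [show x - 1 + (y - o) - 0 = 2 * w by omega]; exact hdd⟩,
            rfl⟩⟩)).trans ?_
        exact grid_D2 hB (by omega) hd hx2 hy0
      · have hy2 : |y - 1 - o| ≤ X.B := by rw [abs_le]; omega
        have ha := adj_2 (I := I) x (y - 1) (ℓ + X.h0) 0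
        rw [sub_add_cancel] at ha
        refine (Jn.single ha.symm hg (grid_pt.2 ⟨⟨hx0, hy2, hO0⟩, Or.inr <| Or.inl
          ⟨⟨0, Or.inl rfl, by rw [show x + (y - 1 - o) - 0 = 2 * w by omega]; exact hdd⟩,
            rfl⟩⟩)).trans ?_
        exact grid_D2 hB (by omega) hd hx0 hy2
  · refine (grid_short h1 h2 h3 hx0 hy0 hO0 h4 (z' := ℓ) (by omega)).trans ?_
    obtain ⟨k, hk⟩ := h3
    obtain ⟨k', hk'⟩ := h2
    refine grid_D1 hB (w := p * (k - k')) ?_ (dvd_mul_right _ _) hx0 hy0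
    have e1 : x - (y - o) = x + (y - o) - 2 * (y - o) := by ring
    rw [e1, hk, hk']
    ring

end Grids

/-! ### The set `P` is connected -/

theorem pt_zero : pt I 0 0 0 (0 : Fin d → ℤ) = 0 := pt_self (0 : Fin d → ℤ)

/-- every point is given by its coordinates -/
theorem exists_pt (I : Dir3 d) (q : Fin d → ℤ) : ∃ x y z, q = pt I x y z q :=
  ⟨_, _, _, (pt_self q).symm⟩

theorem P_of_PA (h : X.PA I q) : X.P I G q := Or.inl h

theorem P_of_PC (h : X.PC I q) : X.P I G q := Or.inr (Or.inl h)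

theorem P_of_Rg {t : Bool} {k : ℤ} (hk : 1 ≤ k) (hk' : k < X.mm t) (h : X.Rg I t k q) :
    X.P I G q := Or.inr (Or.inr (Or.inl ⟨t, k, hk, hk', h⟩))

theorem P_of_Qc {t : Bool} {k : ℤ} (hk : 1 ≤ k) (hk' : k < X.mm t) (h : X.Qc I t k q) :
    X.P I G q := Or.inr (Or.inr (Or.inr (Or.inl ⟨t, k, hk, hk', h⟩)))

theorem P_of_C0 (h : X.C0 I q) : X.P I G q := Or.inr (Or.inr (Or.inr (Or.inr (Or.inl h))))

theorem P_of_V (h : X.V I G q) : X.P I G q :=
  Or.inr (Or.inr (Or.inr (Or.inr (Or.inr (Or.inl h)))))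

theorem P_of_grid {ℓ : ℤ} (hℓ : X.lev ℓ) (h : X.Grid I X.n 0 ℓ q) : X.P I G q :=
  Or.inr (Or.inr (Or.inr (Or.inr (Or.inr (Or.inr (Or.inl ⟨ℓ, hℓ, h⟩))))))

theorem P_of_gridF (h : X.Grid I X.n' X.s X.h0 q) : X.P I G q :=
  Or.inr (Or.inr (Or.inr (Or.inr (Or.inr (Or.inr (Or.inr (Or.inl h)))))))

theorem P_of_F (h : X.F I q) : X.P I G q :=
  Or.inr (Or.inr (Or.inr (Or.inr (Or.inr (Or.inr (Or.inr (Or.inr h)))))))

/-- the sizes -/
theorem Ok.sizes (hok : X.Ok G ρ) : 0 ≤ X.ρ₂ ∧ X.m * X.N + 2 * X.N ≤ X.ρ₂ ∧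
    X.ρ₂ + 3 * X.N ≤ X.B := by
  have h1 := hok.hρ
  have h2 := hok.hρρ
  have h3 := X.N_pos
  have h4 := X.mN_ge
  have h5 : X.Lg = X.m * X.N + 2 * X.N := by
    unfold Lg
    ring
  have h6 := hok.hB
  omega

theorem conn_top (hok : X.Ok G ρ) {z : ℤ} (h1 : -(3 * X.h0 * (2 * X.m + 1)) - X.b ≤ z)
    (h2 : z ≤ X.ρ₂ + 4 * X.N) : Jn (X.P I G) (pt I 0 0 z 0) 0 := by
  obtain ⟨a1, a2, a3⟩ := hok.sizes
  have hN := X.N_pos
  have hb := X.hb
  have hh := X.h0_pos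
  have hm := X.hm
  have h3 : 0 ≤ 3 * X.h0 * (2 * X.m + 1) := mul_nonneg (by omega) (by omega)
  have key : Jn (X.P I G) (pt I 0 0 z 0) (pt I 0 0 0 0) := by
    refine Jn.move3 fun w hw => P_of_C0 ?_
    refine ⟨pt_1 _ _ _ _, pt_2 _ _ _ _, ?_, ?_, O_pt.2 (O_zero (by omega))⟩
    · rw [pt_3]
      omega
    · rw [pt_3]
      omega
  rwa [pt_zero] at key

theorem conn_C0 (hok : X.Ok G ρ) (h : X.C0 I q) : Jn (X.P I G) q 0 := by
  obtain ⟨x, y, z, e⟩ := exists_pt I q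
  rw [e] at h
  obtain ⟨h1, h2, h3, h4, h5⟩ := h
  rw [pt_1] at h1
  rw [pt_2] at h2
  rw [pt_3] at h3 h4
  rw [O_pt] at h5
  subst h1 h2
  have h6 : Jn (X.P I G) (pt I 0 0 z q) (pt I 0 0 z 0) := Jn.others h5 fun q' hq' => P_of_C0
    ⟨pt_1 _ _ _ _, pt_2 _ _ _ _, by rw [pt_3]; exact h3, by rw [pt_3]; exact h4, O_pt.2 hq'⟩
  rw [← e] at h6
  exact h6.trans (conn_top hok h3 h4)

theorem lev_range (hok : X.Ok G ρ) {ℓ : ℤ} (h : X.lev ℓ) :
    -(3 * X.h0 * (2 * X.m + 1)) - X.b ≤ ℓ ∧ ℓ ≤ X.ρ₂ + 4 * X.N := by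
  obtain ⟨a1, a2, a3⟩ := hok.sizes
  obtain ⟨b1, b2, b3, b4, b5, b6, b7, b8, b9⟩ := X.basic
  have hh := X.h0_pos
  have hm := X.hm
  rcases h with ⟨j, hj, hj', rfl⟩ | ⟨κ, hκ, hκ', rfl⟩
  · have h1 : 0 ≤ j * X.N := mul_nonneg hj (by omega)
    have h2 : 0 ≤ 3 * X.h0 * (2 * X.m + 1) := mul_nonneg (by omega) (by omega)
    omega
  · have h1 : 3 * X.h0 * κ ≤ 3 * X.h0 * (2 * X.m + 1) :=
      mul_le_mul_of_nonneg_left hκ' (by omega)
    have h2 : 3 * X.h0 * 2 ≤ 3 * X.h0 * κ := mul_le_mul_of_nonneg_left hκ (by omega)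
    omega

theorem conn_grid (hok : X.Ok G ρ) {ℓ : ℤ} (hℓ : X.lev ℓ) (h : X.Grid I X.n 0 ℓ q) :
    Jn (X.P I G) q 0 := by
  obtain ⟨a1, a2, a3⟩ := hok.sizes
  have hN := X.N_pos
  obtain ⟨c1, c2⟩ := lev_range hok hℓ
  exact ((grid_conn (by omega) h).mono fun x hx => P_of_grid hℓ hx).trans (conn_top hok c1 c2)

theorem conn_PC (hok : X.Ok G ρ) (h : X.PC I q) : Jn (X.P I G) q 0 := by
  obtain ⟨a1, a2, a3⟩ := hok.sizes
  obtain ⟨b1, b2, b3, b4, b5, b6, b7, b8, b9⟩ := X.basic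
  have hh := X.h0_pos
  have hm := X.hm
  obtain ⟨x, y, z, e⟩ := exists_pt I q
  rw [e] at h
  obtain ⟨h1, h2, h3, h4, h5, h6⟩ := h
  rw [pt_1] at h1 h2
  rw [pt_2] at h3 h4
  rw [pt_3] at h5
  rw [O_pt] at h6
  subst h5
  rw [O_zero_eq h6] at e
  rw [e]
  have hO : O I 0 (0 : Fin d → ℤ) := O_zero le_rfl
  have s1 : Jn (X.P I G) (pt I x y (-X.h0) 0) (pt I 0 y (-X.h0) 0) :=
    Jn.move1 fun w hw => P_of_PC ⟨by rw [pt_1]; omega, by rw [pt_1]; omega, by rw [pt_2]; omega,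
      by rw [pt_2]; omega, pt_3 _ _ _ _, O_pt.2 hO⟩
  have s2 : Jn (X.P I G) (pt I 0 y (-X.h0) 0) (pt I 0 0 (-X.h0) 0) :=
    Jn.move2 fun w hw => P_of_PC ⟨by rw [pt_1], by rw [pt_1]; omega, by rw [pt_2]; omega,
      by rw [pt_2]; omega, pt_3 _ _ _ _, O_pt.2 hO⟩
  have h7 : 3 * X.h0 * 1 ≤ 3 * X.h0 * (2 * X.m + 1) := mul_le_mul_of_nonneg_left (by omega)
    (by omega)
  exact (s1.trans s2).trans (conn_top hok (by omega) (by omega))

/-- The centre of the grid of the clusters. -/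
theorem F_center (hok : X.Ok G ρ) {z : ℤ} (h1 : -X.h0 ≤ z) (h2 : z ≤ X.ρ₂ + X.N) :
    X.F I (pt I 0 X.s z 0) := by
  obtain ⟨a1, a2, a3⟩ := hok.sizes
  obtain ⟨b1, b2, b3, b4, b5, b6, b7, b8, b9⟩ := X.basic
  refine ⟨⟨?_, ?_, ?_⟩, ⟨?_, ?_, ?_⟩, ⟨0, ?_⟩, ⟨0, ?_⟩, ?_, ?_⟩
  · rw [pt_1]
    exact dvd_zero _
  · rw [pt_2, sub_self]
    exact dvd_zero _
  · rw [pt_1, pt_2, sub_self, add_zero]
    exact dvd_zero _
  · rw [pt_1, abs_zero]
    omega
  · rw [pt_2, sub_self, abs_zero]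
    omega
  · exact O_pt.2 (O_zero (by omega))
  · rw [pt_1, mul_zero, sub_zero, abs_zero]
    omega
  · rw [pt_2, mul_zero, sub_zero, abs_of_nonneg (by omega)]
    omega
  · rw [pt_3]
    exact h1
  · rw [pt_3]
    exact h2

theorem conn_gridF (hok : X.Ok G ρ) (h : X.Grid I X.n' X.s X.h0 q) : Jn (X.P I G) q 0 := by
  obtain ⟨a1, a2, a3⟩ := hok.sizes
  obtain ⟨b1, b2, b3, b4, b5, b6, b7, b8, b9⟩ := X.basic
  have s1 : Jn (X.P I G) q (pt I 0 X.s X.h0 0) :=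
    (grid_conn (by omega) h).mono fun x hx => P_of_gridF hx
  have s2 : Jn (X.P I G) (pt I 0 X.s X.h0 0) (pt I 0 X.s (-X.h0) 0) :=
    Jn.move3 fun w hw => P_of_F (F_center hok (by omega) (by omega))
  refine (s1.trans s2).trans (conn_PC hok ⟨?_, ?_, ?_, ?_, pt_3 _ _ _ _, O_pt.2 (O_zero le_rfl)⟩)
  · rw [pt_1]
  · rw [pt_1]
    omega
  · rw [pt_2]
    omega
  · rw [pt_2]
    omega

theorem conn_F (hok : X.Ok G ρ) (h : X.F I q) : Jn (X.P I G) q 0 := by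
  obtain ⟨a1, a2, a3⟩ := hok.sizes
  obtain ⟨b1, b2, b3, b4, b5, b6, b7, b8, b9⟩ := X.basic
  obtain ⟨x, y, z, e⟩ := exists_pt I q
  rw [e] at h
  have hF : ∀ w, -X.h0 ≤ w → w ≤ X.ρ₂ + X.N → X.F I (pt I x y w q) := by
    intro w hw hw'
    unfold F Lat Box at h ⊢
    rw [pt_1, pt_2, pt_3, O_pt] at h ⊢
    exact ⟨h.1, h.2.1, h.2.2.1, h.2.2.2.1, hw, hw'⟩
  have hz := h.2.2.2.2
  rw [pt_3] at hz
  have s1 : Jn (X.P I G) (pt I x y z q) (pt I x y X.h0 q) :=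
    Jn.move3 fun w hw => P_of_F (hF w (by omega) (by omega))
  rw [← e] at s1
  refine s1.trans (conn_gridF hok ?_)
  have h3 := hF X.h0 (by omega) (by omega)
  refine ⟨h3.2.1, Or.inr (Or.inr ⟨h3.1, ?_, ?_⟩)⟩
  · rw [pt_3]
  · rw [pt_3]
    omega

theorem conn_PA (h : X.PA I q) : Jn (X.P I G) q 0 := by
  obtain ⟨b1, b2, b3, b4, b5, b6, b7, b8, b9⟩ := X.basic
  obtain ⟨x, y, z, e⟩ := exists_pt I q
  rw [e] at h
  obtain ⟨h1, h2, h3, h4, h5, h6⟩ := h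
  rw [pt_1] at h1 h2
  rw [pt_2] at h3 h4
  rw [pt_3] at h5
  rw [O_pt] at h6
  subst h5
  rw [O_zero_eq h6] at e
  rw [e]
  have hO : O I 0 (0 : Fin d → ℤ) := O_zero le_rfl
  have s1 : Jn (X.P I G) (pt I x y 0 0) (pt I 0 y 0 0) :=
    Jn.move1 fun w hw => P_of_PA ⟨by rw [pt_1]; omega, by rw [pt_1]; omega, by rw [pt_2]; omega,
      by rw [pt_2]; omega, pt_3 _ _ _ _, O_pt.2 hO⟩
  have s2 : Jn (X.P I G) (pt I 0 y 0 0) (pt I 0 0 0 0) :=
    Jn.move2 fun w hw => P_of_PA ⟨by rw [pt_1], by rw [pt_1]; omega, by rw [pt_2]; omega,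
      by rw [pt_2]; omega, pt_3 _ _ _ _, O_pt.2 hO⟩
  rw [pt_zero] at s2
  exact s1.trans s2

theorem zero_mem_P : X.P I G 0 := by
  obtain ⟨b1, b2, b3, b4, b5, b6, b7, b8, b9⟩ := X.basic
  exact P_of_PA ⟨le_rfl, by rw [Pi.zero_apply]; omega, le_rfl, by rw [Pi.zero_apply]; omega, rfl,
    O_zero le_rfl⟩

theorem conn_V (hok : X.Ok G ρ) (h : X.V I G q) : Jn (X.P I G) q 0 := by
  obtain ⟨a1, a2, a3⟩ := hok.sizes
  obtain ⟨b1, b2, b3, b4, b5, b6, b7, b8, b9⟩ := X.basic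
  obtain ⟨x, y, z, e⟩ := exists_pt I q
  obtain ⟨v, hv, hv', h0⟩ := h
  have e1 : (fun j => if j = I.i₃ then q j - v else q j) = pt I x y (z - v) q := by
    funext j
    by_cases hj : j = I.i₃
    · subst hj
      rw [if_pos rfl, pt_3]
      have := congrFun e I.i₃
      rw [pt_3] at this
      rw [this]
    · rw [if_neg hj]
      conv_lhs => rw [e]
      unfold pt
      rw [if_neg hj, if_neg hj]
  rw [e1] at h0
  obtain ⟨t, ht⟩ : ∃ t, t = z - v := ⟨_, rfl⟩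
  rw [← ht] at h0
  have hV : ∀ w, t ≤ w → w ≤ t + X.N → X.V I G (pt I x y w q) := by
    intro w hw hw'
    refine ⟨w - t, by omega, by omega, ?_⟩
    have e2 : (fun j => if j = I.i₃ then pt I x y w q j - (w - t) else pt I x y w q j) =
        pt I x y t q := by
      funext j
      by_cases hj : j = I.i₃
      · subst hj
        rw [if_pos rfl, pt_3, pt_3]
        ring
      · rw [if_neg hj]
        unfold pt
        rw [if_neg hj, if_neg hj]
    rw [e2]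
    exact h0
  obtain ⟨hL, ht0, ⟨q', hq', hqq⟩, -⟩ := h0
  rw [pt_3] at ht0
  have hbd : ∀ j, |pt I x y t q j| ≤ X.ρ₂ + 2 * X.n := by
    intro j
    have h1 := abs_le.1 (hqq j)
    have h2 := abs_le.1 (hok.bdd q' hq' j)
    rw [abs_le]
    omega
  have hx := hbd I.i₁
  have hy := hbd I.i₂
  have hz := hbd I.i₃
  rw [pt_1] at hx
  rw [pt_2] at hy
  rw [pt_3, abs_le] at hz
  -- the level
  obtain ⟨j, hj, hj1, hj2⟩ : ∃ j : ℤ, 0 ≤ j ∧ t ≤ j * X.N + 3 * X.h0 ∧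
      j * X.N + 3 * X.h0 ≤ t + X.N := by
    have hN := X.N_pos
    refine ⟨(t + X.N - 3 * X.h0) / X.N, Int.ediv_nonneg (by omega) hN.le, ?_, ?_⟩
    · have h1 := Int.lt_ediv_add_one_mul_self (t + X.N - 3 * X.h0) hN
      have h2 : ((t + X.N - 3 * X.h0) / X.N + 1) * X.N =
          (t + X.N - 3 * X.h0) / X.N * X.N + X.N := by ring
      rw [h2] at h1
      omega
    · have h1 := Int.ediv_mul_le (t + X.N - 3 * X.h0) hN.ne'
      omega
  have s1 : Jn (X.P I G) (pt I x y z q) (pt I x y (j * X.N + 3 * X.h0) q) :=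
    Jn.move3 fun w hw => P_of_V (hV w (by omega) (by omega))
  rw [← e] at s1
  refine s1.trans (conn_grid hok (Or.inl ⟨j, hj, by omega, rfl⟩) (grid_pt.2 ⟨⟨?_, ?_, ?_⟩,
    Or.inr (Or.inr ⟨⟨?_, ?_, ?_⟩, le_rfl, by omega⟩)⟩))
  · omega
  · rw [sub_zero]
    omega
  · intro l h1 h2 h3
    have h4 := hbd l
    rw [pt_of_ne h1 h2 h3] at h4
    omega
  · have := hL.1
    rwa [pt_1] at this
  · have := hL.2.1
    rwa [pt_2] at this
  · have := hL.2.2
    rwa [pt_1, pt_2] at this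

/-- The heights of the windows. -/
theorem z_range {t : Bool} {k : ℤ} (hk : 1 ≤ k) (hk' : k < X.mm t) :
    X.lev (-X.z t k + X.h0) :=
  Or.inr ⟨kap t k, kap_ge hk, X.kap_le hk', rfl⟩

theorem ctr_range {t : Bool} {k : ℤ} (hk : 1 ≤ k) (hk' : k < X.mm t) :
    0 ≤ X.cx t k ∧ X.cx t k ≤ X.m * X.N ∧ 0 ≤ X.cy t k ∧ X.cy t k ≤ X.m * X.N := by
  have hN := X.N_pos
  have hm := X.hm
  have h1 : k ≤ X.m := by
    have : X.mm t ≤ X.m + 1 := by
      cases t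
      · exact le_rfl
      · show X.m ≤ X.m + 1
        omega
    omega
  have h2 : 0 ≤ k * X.N := mul_nonneg (by omega) hN.le
  have h3 : k * X.N ≤ X.m * X.N := mul_le_mul_of_nonneg_right h1 hN.le
  have h4 : 0 ≤ X.m * X.N := mul_nonneg (by omega) hN.le
  cases t
  · exact ⟨le_rfl, h4, h2, h3⟩
  · exact ⟨h2, h3, le_rfl, h4⟩

theorem conn_Qc (hok : X.Ok G ρ) {t : Bool} {k : ℤ} (hk : 1 ≤ k) (hk' : k < X.mm t)
    (h : X.Qc I t k q) : Jn (X.P I G) q 0 := by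
  obtain ⟨a1, a2, a3⟩ := hok.sizes
  obtain ⟨b1, b2, b3, b4, b5, b6, b7, b8, b9⟩ := X.basic
  obtain ⟨c1, c2, c3, c4⟩ := ctr_range hk hk'
  obtain ⟨x, y, z, e⟩ := exists_pt I q
  rw [e] at h
  have hQ : ∀ w, -X.z t k ≤ w → w ≤ -X.z t k + X.h0 → X.Qc I t k (pt I x y w q) := by
    intro w hw hw'
    unfold Qc Lat at h ⊢
    rw [pt_1, pt_2, pt_3, O_pt] at h ⊢
    exact ⟨h.1, h.2.1, h.2.2.1, h.2.2.2.1, h.2.2.2.2.1, hw, hw', h.2.2.2.2.2.2.2⟩
  obtain ⟨h1, h2, h3, h4, h5, h6, h7, h8⟩ := h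
  rw [pt_1] at h2 h3
  rw [pt_2] at h4 h5
  rw [pt_3] at h6 h7
  rw [O_pt] at h8
  have s1 : Jn (X.P I G) (pt I x y z q) (pt I x y (-X.z t k + X.h0) q) :=
    Jn.move3 fun w hw => P_of_Qc hk hk' (hQ w (by omega) (by omega))
  rw [← e] at s1
  refine s1.trans (conn_grid hok (z_range hk hk') (grid_pt.2 ⟨⟨?_, ?_, h8.mono (by omega)⟩,
    Or.inr (Or.inr ⟨⟨?_, ?_, ?_⟩, le_rfl, by omega⟩)⟩))
  · rw [abs_le]
    omega
  · rw [abs_le]
    omega
  · have := h1.1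
    rwa [pt_1] at this
  · have := h1.2.1
    rwa [pt_2] at this
  · have := h1.2.2
    rwa [pt_1, pt_2] at this

/-- A lattice point near the window. -/
theorem exists_lat (u v : ℤ) : ∃ x y : ℤ, X.n ∣ x ∧ X.n ∣ y - 0 ∧ 2 * X.n ∣ x + (y - 0) ∧
    X.n ≤ x - u ∧ x - u < 3 * X.n ∧ X.n ≤ y - v ∧ y - v < 2 * X.n := by
  have hn := X.n_pos
  obtain ⟨y, hy⟩ : ∃ y, y = v + 2 * X.n - 1 - (v + 2 * X.n - 1) % X.n := ⟨_, rfl⟩
  obtain ⟨w, hw⟩ : ∃ w, w = u + 3 * X.n - 1 + y - (u + 3 * X.n - 1 + y) % (2 * X.n) := ⟨_, rfl⟩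
  have h1 : X.n ∣ y := by
    rw [hy]
    exact Int.dvd_self_sub_emod
  have h2 : 2 * X.n ∣ w := by
    rw [hw]
    exact Int.dvd_self_sub_emod
  have h3 := Int.emod_nonneg (v + 2 * X.n - 1) hn.ne'
  have h4 := Int.emod_lt_of_pos (v + 2 * X.n - 1) hn
  have h5 := Int.emod_nonneg (u + 3 * X.n - 1 + y) (show (2 * X.n) ≠ 0 by omega)
  have h6 := Int.emod_lt_of_pos (u + 3 * X.n - 1 + y) (show 0 < 2 * X.n by omega)
  refine ⟨w - y, y, ?_, by rwa [sub_zero], ?_, by omega, by omega, by omega, by omega⟩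
  · exact dvd_sub (dvd_trans (dvd_mul_left _ _) h2) h1
  · rw [sub_zero, sub_add_cancel]
    exact h2

theorem conn_Rg (hok : X.Ok G ρ) {t : Bool} {k : ℤ} (hk : 1 ≤ k) (hk' : k < X.mm t)
    (h : X.Rg I t k q) : Jn (X.P I G) q 0 := by
  obtain ⟨a1, a2, a3⟩ := hok.sizes
  obtain ⟨b1, b2, b3, b4, b5, b6, b7, b8, b9⟩ := X.basic
  have hbb := X.bb_le t
  obtain ⟨x, y, z, e⟩ := exists_pt I q
  rw [e] at h
  obtain ⟨h1, h2, h3, h4, h5⟩ := h
  rw [pt_1] at h1 h3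
  rw [pt_2] at h2 h3
  rw [pt_3] at h4
  rw [O_pt] at h5
  subst h4
  rw [O_zero_eq h5] at e
  rw [e]
  have hO : O I 0 (0 : Fin d → ℤ) := O_zero le_rfl
  obtain ⟨x', y', g1, g2, g3, g4, g5, g6, g7⟩ := X.exists_lat (X.cx t k) (X.cy t k)
  have hR : ∀ u v : ℤ, |u - X.cx t k| ≤ 3 * X.n → |v - X.cy t k| ≤ 3 * X.n →
      (X.bb t < |u - X.cx t k| ∨ X.bb t < |v - X.cy t k|) →
      X.P I G (pt I u v (-X.z t k) 0) := fun u v hu hv huv =>
    P_of_Rg hk hk' ⟨by rwa [pt_1], by rwa [pt_2], by rwa [pt_1, pt_2], pt_3 _ _ _ _, O_pt.2 hO⟩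
  have hx' : X.bb t < |x' - X.cx t k| := by
    rw [abs_of_nonneg (by omega)]
    omega
  have hy' : X.bb t < |y' - X.cy t k| := by
    rw [abs_of_nonneg (by omega)]
    omega
  have key : Jn (X.P I G) (pt I x y (-X.z t k) 0) (pt I x' y' (-X.z t k) 0) := by
    have hx1 := abs_le.1 h1
    have hy1 := abs_le.1 h2
    rcases h3 with h3 | h3
    · have s1 : Jn (X.P I G) (pt I x y (-X.z t k) 0) (pt I x y' (-X.z t k) 0) :=
        Jn.move2 fun w hw => hR x w h1 (by rw [abs_le]; omega) (Or.inl h3)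
      have s2 : Jn (X.P I G) (pt I x y' (-X.z t k) 0) (pt I x' y' (-X.z t k) 0) :=
        Jn.move1 fun w hw => hR w y' (by rw [abs_le]; omega) (by rw [abs_le]; omega) (Or.inr hy')
      exact s1.trans s2
    · have s1 : Jn (X.P I G) (pt I x y (-X.z t k) 0) (pt I x' y (-X.z t k) 0) :=
        Jn.move1 fun w hw => hR w y (by rw [abs_le]; omega) h2 (Or.inr h3)
      have s2 : Jn (X.P I G) (pt I x' y (-X.z t k) 0) (pt I x' y' (-X.z t k) 0) :=
        Jn.move2 fun w hw => hR x' w (by rw [abs_le]; omega) (by rw [abs_le]; omega) (Or.inl hx')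
      exact s1.trans s2
  refine key.trans (conn_Qc hok hk hk' ⟨?_, ?_, ?_, ?_, ?_, ?_, ?_, O_pt.2 hO⟩)
  · unfold Lat
    rw [pt_1, pt_2]
    exact ⟨g1, g2, g3⟩
  · rw [pt_1]
    exact g4
  · rw [pt_1]
    exact g5
  · rw [pt_2]
    exact g6
  · rw [pt_2]
    exact g7
  · rw [pt_3]
  · rw [pt_3]
    omega

/-- **The set `P` is connected.** -/
theorem conn (hok : X.Ok G ρ) {p : Fin d → ℤ} (hp : X.P I G p) :
    Relation.ReflTransGen (fun x y => Adj x y ∧ X.P I G x ∧ X.P I G y) p 0 := by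
  rcases hp with h | h | ⟨t, k, hk, hk', h⟩ | ⟨t, k, hk, hk', h⟩ | h | h | ⟨ℓ, hℓ, h⟩ | h | h
  · exact conn_PA h
  · exact conn_PC hok h
  · exact conn_Rg hok hk hk' h
  · exact conn_Qc hok hk hk' h
  · exact conn_C0 hok h
  · exact conn_V hok h
  · exact conn_grid hok hℓ h
  · exact conn_gridF hok h
  · exact conn_F hok h

end DPar

end Pool.Agent.RC
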