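import Pool.Agent.Lib.MP_09cbbd_rd.DDef

/-!
# A connected body in dimension at least three: the differences cover

`cover_near`: every vector of the zone `G` which is not in a window is in `P - P`.
`cover_far`: every vector of medium size whose coordinates `i₁`, `i₂` are near `m N ℤ`,
`(m + 1) N ℤ` is in `P - P`.
-/

set_option autoImplicit false

namespace Pool.Agent.RC

namespace DPar

variable {X : DPar} {d : ℕ} {I : Dir3 d} {G : (Fin d → ℤ) → Prop} {ρ : ℤ}

/-- the vector with the coordinates `x`, `y`, `h` in the three directions -/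
private def vec (I : Dir3 d) (x y h : ℤ) (w : Fin d → ℤ) : Fin d → ℤ := fun j =>
  if j = I.i₁ then x else if j = I.i₂ then y else if j = I.i₃ then h else w j

private theorem vec_1 {x y h : ℤ} {w : Fin d → ℤ} : vec I x y h w I.i₁ = x := by
  simp [vec]

private theorem vec_2 {x y h : ℤ} {w : Fin d → ℤ} : vec I x y h w I.i₂ = y := by
  have := I.h12
  simp [vec, this.symm]

private theorem vec_3 {x y h : ℤ} {w : Fin d → ℤ} : vec I x y h w I.i₃ = h := by
  have := I.h13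
  have := I.h23
  simp [vec, I.h13.symm, I.h23.symm]

private theorem vec_o {x y h : ℤ} {w : Fin d → ℤ} {j : Fin d} (h1 : j ≠ I.i₁) (h2 : j ≠ I.i₂)
    (h3 : j ≠ I.i₃) : vec I x y h w j = w j := by
  simp [vec, h1, h2, h3]

/-- to prove an equality of vectors -/
private theorem ext3 {f g : Fin d → ℤ} (h1 : f I.i₁ = g I.i₁) (h2 : f I.i₂ = g I.i₂)
    (h3 : f I.i₃ = g I.i₃) (ho : ∀ j, j ≠ I.i₁ → j ≠ I.i₂ → j ≠ I.i₃ → f j = g j) : f = g := by
  funext j
  by_cases e1 : j = I.i₁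
  · rw [e1]; exact h1
  by_cases e2 : j = I.i₂
  · rw [e2]; exact h2
  by_cases e3 : j = I.i₃
  · rw [e3]; exact h3
  exact ho j e1 e2 e3

/-- a point of the planar lattice up and to the right -/
private theorem exists_lat {p : ℤ} (hp : 0 < p) (o x y : ℤ) : ∃ x' y' : ℤ, 0 ≤ x' - x ∧
    x' - x < 2 * p ∧ 0 ≤ y' - y ∧ y' - y < p ∧ p ∣ x' ∧ p ∣ y' - o ∧ 2 * p ∣ x' + (y' - o) := by
  have hy1 : 0 ≤ (o - y) % p := Int.emod_nonneg _ hp.ne'
  have hy2 : (o - y) % p < p := Int.emod_lt_of_pos _ hp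
  have hy3 : p ∣ (y + (o - y) % p) - o := by
    refine ⟨-((o - y) / p), ?_⟩
    have := Int.emod_add_mul_ediv (o - y) p
    linarith
  set y' := y + (o - y) % p with hy'
  have h2p : (0 : ℤ) < 2 * p := by omega
  have hx1 : 0 ≤ (-(y' - o) - x) % (2 * p) := Int.emod_nonneg _ h2p.ne'
  have hx2 : (-(y' - o) - x) % (2 * p) < 2 * p := Int.emod_lt_of_pos _ h2p
  have hx3 : 2 * p ∣ (x + (-(y' - o) - x) % (2 * p)) + (y' - o) := by
    refine ⟨-((-(y' - o) - x) / (2 * p)), ?_⟩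
    have := Int.emod_add_mul_ediv (-(y' - o) - x) (2 * p)
    linarith
  refine ⟨x + (-(y' - o) - x) % (2 * p), y', by linarith, by linarith, by linarith, by linarith, ?_,
    hy3, hx3⟩
  have h : p ∣ (x + (-(y' - o) - x) % (2 * p)) + (y' - o) := (dvd_mul_left p 2).trans hx3
  exact (dvd_add_left hy3).1 h

private theorem cx_neg (t : Bool) (k : ℤ) : X.cx t (-k) = -X.cx t k := by
  cases t <;> simp [cx]

private theorem cy_neg (t : Bool) (k : ℤ) : X.cy t (-k) = -X.cy t k := by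
  cases t <;> simp [cy]

private theorem W.neg {q : Fin d → ℤ} (h : X.W I q) : X.W I (-q) := by
  obtain ⟨t, k, h1, h2, h3, h4, h5, h6⟩ := h
  refine ⟨t, -k, by rwa [abs_neg], by rwa [abs_neg], ?_, ?_, ?_, ?_⟩
  · rw [cx_neg, Pi.neg_apply, ← neg_sub', abs_neg]
    simpa using h3
  · rw [cy_neg, Pi.neg_apply, ← neg_sub', abs_neg]
    simpa using h4
  · rw [Pi.neg_apply, abs_neg]
    exact h5
  · intro l l1 l2 l3
    rw [Pi.neg_apply, abs_neg]
    exact h6 l l1 l2 l3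

private theorem cover_near_aux (hok : X.Ok G ρ) {q : Fin d → ℤ} (hG : G q) (hW : ¬ X.W I q)
    (h3 : 0 ≤ q I.i₃) : ∃ p p', X.P I G p ∧ X.P I G p' ∧ q = p - p' := by
  obtain ⟨hb, hr, hrs, hn, hn', hN, hmN, hh0, hdep⟩ := X.basic
  have hnp := X.n_pos
  have hNp := X.N_pos
  have hρ2 : 0 ≤ X.ρ₂ := by
    have h1 := hok.hρ
    have h2 := hok.hρρ
    have h3 : 0 ≤ X.Lg := by
      unfold Lg
      have := X.hm
      positivity
    omega
  obtain ⟨x', y', hx1, hx2, hy1, hy2, d1, d2, d3⟩ := exists_lat hnp 0 (q I.i₁) (q I.i₂)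
  set p : Fin d → ℤ := vec I x' y' (q I.i₃) q with hp
  have p1 : p I.i₁ = x' := vec_1
  have p2 : p I.i₂ = y' := vec_2
  have p3 : p I.i₃ = q I.i₃ := vec_3
  have po : ∀ j, j ≠ I.i₁ → j ≠ I.i₂ → j ≠ I.i₃ → p j = q j := fun j h1 h2 h3 => vec_o h1 h2 h3
  by_cases hC : X.Cut I p
  · obtain ⟨t, k, hk1, hk2, c3, co, x, y, hx0, hx2n, hy0, hyn, c1, c2⟩ := hC
    have hbb := X.bb_pos t
    have hbb' := X.bb_le t
    rw [p1, abs_le] at c1
    rw [p2, abs_le] at c2
    rw [p3] at c3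
    have co' : O I (X.bb t) q := by
      intro l l1 l2 l3
      rw [← po l l1 l2 l3]
      exact co l l1 l2 l3
    have e1 : |q I.i₁ - X.cx t k| ≤ 3 * X.n := by
      rw [abs_le]; constructor <;> omega
    have e2 : |q I.i₂ - X.cy t k| ≤ 3 * X.n := by
      rw [abs_le]; constructor <;> omega
    have e3 : X.bb t < |q I.i₁ - X.cx t k| ∨ X.bb t < |q I.i₂ - X.cy t k| := by
      by_contra hcon
      rw [not_or, not_lt, not_lt] at hcon
      exact hW ⟨t, k, hk1, hk2, hcon.1, hcon.2, c3, co'⟩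
    have c3' := abs_le.1 c3
    rcases le_or_gt 0 k with hk0 | hk0
    · rw [abs_of_nonneg hk0] at hk1 hk2
      have hz0 : 0 ≤ X.z t k ∧ X.z t k ≤ 3 * X.h0 * (2 * X.m + 1) := by
        have h1 := kap_ge (t := t) hk1
        have h2 := kap_le (X := X) hk2
        unfold z
        constructor
        · have : 0 ≤ X.h0 := by omega
          positivity
        · exact mul_le_mul_of_nonneg_left h2 (by omega)
      refine ⟨vec I (q I.i₁) (q I.i₂) (-X.z t k) 0, vec I 0 0 (-X.z t k - q I.i₃) (-q),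
        Or.inr (Or.inr (Or.inl ⟨t, k, hk1, hk2, ?_⟩)),
        Or.inr (Or.inr (Or.inr (Or.inr (Or.inl ?_)))), ?_⟩
      · refine ⟨by rwa [vec_1], by rwa [vec_2], by rwa [vec_1, vec_2], vec_3, ?_⟩
        intro l l1 l2 l3
        rw [vec_o l1 l2 l3]
        simp
      · refine ⟨vec_1, vec_2, ?_, ?_, ?_⟩
        · rw [vec_3]; omega
        · rw [vec_3]; omega
        · intro l l1 l2 l3
          rw [vec_o l1 l2 l3, Pi.neg_apply, abs_neg]
          exact (co' l l1 l2 l3).trans hbb'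
      · refine ext3 (I := I) ?_ ?_ ?_ ?_
        · rw [Pi.sub_apply, vec_1, vec_1]; omega
        · rw [Pi.sub_apply, vec_2, vec_2]; omega
        · rw [Pi.sub_apply, vec_3, vec_3]; omega
        · intro l l1 l2 l3
          rw [Pi.sub_apply, vec_o l1 l2 l3, vec_o l1 l2 l3]; simp
    · rw [abs_of_neg hk0] at hk1 hk2
      have hz0 : 0 ≤ X.z t (-k) ∧ X.z t (-k) ≤ 3 * X.h0 * (2 * X.m + 1) := by
        have h1 := kap_ge (t := t) hk1
        have h2 := kap_le (X := X) hk2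
        unfold z
        constructor
        · have : 0 ≤ X.h0 := by omega
          positivity
        · exact mul_le_mul_of_nonneg_left h2 (by omega)
      refine ⟨vec I 0 0 (-X.z t (-k) + q I.i₃) q, vec I (-q I.i₁) (-q I.i₂) (-X.z t (-k)) 0,
        Or.inr (Or.inr (Or.inr (Or.inr (Or.inl ?_)))),
        Or.inr (Or.inr (Or.inl ⟨t, -k, hk1, hk2, ?_⟩)), ?_⟩
      · refine ⟨vec_1, vec_2, ?_, ?_, ?_⟩
        · rw [vec_3]; omega
        · rw [vec_3]; omega
        · intro l l1 l2 l3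
          rw [vec_o l1 l2 l3]
          exact (co' l l1 l2 l3).trans hbb'
      · have f1 : |-q I.i₁ - X.cx t (-k)| = |q I.i₁ - X.cx t k| := by
          rw [cx_neg, ← abs_neg]
          congr 1
          ring
        have f2 : |-q I.i₂ - X.cy t (-k)| = |q I.i₂ - X.cy t k| := by
          rw [cy_neg, ← abs_neg]
          congr 1
          ring
        refine ⟨by rwa [vec_1, f1], by rwa [vec_2, f2], by rwa [vec_1, vec_2, f1, f2], vec_3, ?_⟩
        intro l l1 l2 l3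
        rw [vec_o l1 l2 l3]
        simp
      · refine ext3 (I := I) ?_ ?_ ?_ ?_
        · rw [Pi.sub_apply, vec_1, vec_1]; omega
        · rw [Pi.sub_apply, vec_2, vec_2]; omega
        · rw [Pi.sub_apply, vec_3, vec_3]; omega
        · intro l l1 l2 l3
          rw [Pi.sub_apply, vec_o l1 l2 l3, vec_o l1 l2 l3]; simp
  · refine ⟨p, vec I (x' - q I.i₁) (y' - q I.i₂) 0 0,
      Or.inr (Or.inr (Or.inr (Or.inr (Or.inr (Or.inl ?_))))), Or.inl ?_, ?_⟩
    · refine ⟨0, le_rfl, hNp.le, ?_⟩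
      have e : (fun j => if j = I.i₃ then p j - 0 else p j) = p := by
        funext j
        simp
      rw [e]
      refine ⟨⟨by rwa [p1], by rwa [p2], by rwa [p1, p2]⟩, by rwa [p3], ⟨q, hG, ?_⟩, hC⟩
      intro j
      by_cases e1 : j = I.i₁
      · rw [e1, p1, abs_le]; constructor <;> omega
      by_cases e2 : j = I.i₂
      · rw [e2, p2, abs_le]; constructor <;> omega
      by_cases e3 : j = I.i₃
      · rw [e3, p3, sub_self, abs_zero]; omega
      rw [po j e1 e2 e3, sub_self, abs_zero]; omega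
    · refine ⟨by rwa [vec_1], by rwa [vec_1], by rwa [vec_2], by rwa [vec_2], vec_3, ?_⟩
      intro l l1 l2 l3
      rw [vec_o l1 l2 l3]
      simp
    · refine ext3 (I := I) ?_ ?_ ?_ ?_
      · rw [Pi.sub_apply, p1, vec_1]; omega
      · rw [Pi.sub_apply, p2, vec_2]; omega
      · rw [Pi.sub_apply, p3, vec_3]; omega
      · intro l l1 l2 l3
        rw [Pi.sub_apply, po l l1 l2 l3, vec_o l1 l2 l3]; simp

/-- **every vector of the zone of the hard core which is not in a window is a difference** -/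
theorem cover_near (hok : X.Ok G ρ) {q : Fin d → ℤ} (hG : G q) (hW : ¬ X.W I q) :
    ∃ p p', X.P I G p ∧ X.P I G p' ∧ q = p - p' := by
  rcases le_or_gt 0 (q I.i₃) with h | h
  · exact cover_near_aux hok hG hW h
  · have hW' : ¬ X.W I (-q) := fun hh => hW (by simpa using hh.neg)
    obtain ⟨p, p', hp, hp', e⟩ := cover_near_aux (q := -q) hok (hok.neg q hG) hW'
      (by rw [Pi.neg_apply]; omega)
    exact ⟨p', p, hp', hp, by rw [← neg_sub, ← e, neg_neg]⟩

private theorem cover_far_aux (hok : X.Ok G ρ) {q : Fin d → ℤ}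
    (h1 : ∃ i : ℤ, 2 * |q I.i₁ - X.m * X.N * i| ≤ X.N + 2 * X.n')
    (h2 : ∃ j : ℤ, 2 * |q I.i₂ - (X.m + 1) * X.N * j| ≤ X.N + 2 * X.n')
    (hb : ∀ l, |q l| ≤ X.ρ₂) (h3 : 0 ≤ q I.i₃) :
    ∃ p p', X.P I G p ∧ X.P I G p' ∧ q = p - p' := by
  obtain ⟨hb1, hr, hrs, hn, hn', hN, hmN, hh0, hdep⟩ := X.basic
  have hnp := X.n'_pos
  have hNp := X.N_pos
  have hB := hok.hB
  obtain ⟨x', y', hx1, hx2, hy1, hy2, d1, d2, d3⟩ := exists_lat hnp X.s (q I.i₁) (q I.i₂)
  obtain ⟨i, hi⟩ := h1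
  obtain ⟨j, hj⟩ := h2
  have b1 := abs_le.1 (hb I.i₁)
  have b2 := abs_le.1 (hb I.i₂)
  have b3 := abs_le.1 (hb I.i₃)
  set A := X.m * X.N * i with hA
  set C := (X.m + 1) * X.N * j with hC
  have hi' : |q I.i₁ - A| ≤ (X.N + 2 * X.n') / 2 := by omega
  have hj' : |q I.i₂ - C| ≤ (X.N + 2 * X.n') / 2 := by omega
  rw [abs_le] at hi' hj'
  refine ⟨vec I x' y' (q I.i₃ - X.h0) q, vec I (x' - q I.i₁) (y' - q I.i₂) (-X.h0) 0,
    Or.inr (Or.inr (Or.inr (Or.inr (Or.inr (Or.inr (Or.inr (Or.inr ?_))))))),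
    Or.inr (Or.inl ?_), ?_⟩
  · refine ⟨⟨by rwa [vec_1], by rwa [vec_2], by rwa [vec_1, vec_2]⟩, ⟨?_, ?_, ?_⟩, ⟨i, ?_⟩, ⟨j, ?_⟩,
      ?_, ?_⟩
    · rw [vec_1, abs_le]; constructor <;> omega
    · rw [vec_2, abs_le]; constructor <;> omega
    · intro l l1 l2 l3
      rw [vec_o l1 l2 l3]
      have := hb l
      omega
    · rw [vec_1, ← hA]
      have : |x' - A| ≤ (X.N + 6 * X.n') / 2 := by
        rw [abs_le]; constructor <;> omega
      omega
    · rw [vec_2, ← hC]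
      have : |y' - C| ≤ (X.N + 6 * X.n') / 2 := by
        rw [abs_le]; constructor <;> omega
      omega
    · rw [vec_3]; omega
    · rw [vec_3]; omega
  · refine ⟨by rwa [vec_1], by rwa [vec_1], by rwa [vec_2], by rwa [vec_2], vec_3, ?_⟩
    intro l l1 l2 l3
    rw [vec_o l1 l2 l3]
    simp
  · refine ext3 (I := I) ?_ ?_ ?_ ?_
    · rw [Pi.sub_apply, vec_1, vec_1]; omega
    · rw [Pi.sub_apply, vec_2, vec_2]; omega
    · rw [Pi.sub_apply, vec_3, vec_3]; omega
    · intro l l1 l2 l3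
      rw [Pi.sub_apply, vec_o l1 l2 l3, vec_o l1 l2 l3]; simp

/-- **the far vectors near the clusters are differences** -/
theorem cover_far (hok : X.Ok G ρ) {q : Fin d → ℤ}
    (h1 : ∃ i : ℤ, 2 * |q I.i₁ - X.m * X.N * i| ≤ X.N + 2 * X.n')
    (h2 : ∃ j : ℤ, 2 * |q I.i₂ - (X.m + 1) * X.N * j| ≤ X.N + 2 * X.n')
    (hb : ∀ l, |q l| ≤ X.ρ₂) : ∃ p p', X.P I G p ∧ X.P I G p' ∧ q = p - p' := by
  rcases le_or_gt 0 (q I.i₃) with h | h
  · exact cover_far_aux hok h1 h2 hb h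
  · obtain ⟨i, hi⟩ := h1
    obtain ⟨j, hj⟩ := h2
    obtain ⟨p, p', hp, hp', e⟩ := cover_far_aux (q := -q) hok
      ⟨-i, by
        rw [Pi.neg_apply, show -q I.i₁ - X.m * X.N * -i = -(q I.i₁ - X.m * X.N * i) by ring,
          abs_neg]
        exact hi⟩
      ⟨-j, by
        rw [Pi.neg_apply,
          show -q I.i₂ - (X.m + 1) * X.N * -j = -(q I.i₂ - (X.m + 1) * X.N * j) by ring, abs_neg]
        exact hj⟩
      (fun l => by rw [Pi.neg_apply, abs_neg]; exact hb l) (by rw [Pi.neg_apply]; omega)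
    exact ⟨p', p, hp', hp, by rw [← neg_sub, ← e, neg_neg]⟩

end DPar

end Pool.Agent.RC
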