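import Mathlib

/-!
# A connected body in dimension at least three: the integer part, definitions

Directions: `i₁`, `i₂` (the plane), `i₃` (the height), and the others. `G` is the zone of the hard
core. The set `P ⊆ ℤ^d` consists of

* flat plates: the brick `PA` at height `0`, the brick `PC` at height `-h0`, and for every window
  `(t, k)`, `k ≥ 1`, the ring `Rg t k` round the centre of the window at height `-z t k`;
* columns over points of the planar lattice `Lat n 0` (index two in `n ℤ²`): the columns `V` which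
  fill the hard core, the long column `C0` over the origin, the short columns `Qc t k` of the rings;
* columns `F` over points of the lattice `Lat n' s`, in the clusters;
* grids `Grid p o ℓ`: the lines of direction `(1, 1)` at height `ℓ`, the lines of direction `(1, -1)`
  at height `ℓ + h0`, and the short columns between them.

`P - P` contains all vectors of `G` except the windows, and all vectors of medium size whose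
coordinates `i₁`, `i₂` are near `m N ℤ`, `(m + 1) N ℤ`.
-/

set_option autoImplicit false

namespace Pool.Agent.RC

/-- integer parameters -/
structure DPar where
  (m b s c a ρ₂ M : ℤ)
  hm : 2 ≤ m
  hb : 1 ≤ b
  hs : 2 * b + 2 ≤ s
  hc : 1 ≤ c
  ha : 60 ≤ a

/-- three different directions -/
structure Dir3 (d : ℕ) where
  (i₁ i₂ i₃ : Fin d)
  h12 : i₁ ≠ i₂
  h13 : i₁ ≠ i₃
  h23 : i₂ ≠ i₃

namespace DPar

variable (X : DPar)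

def r : ℤ := 2 * X.s
def n : ℤ := (X.m + 1) * X.r
def n' : ℤ := X.c * X.n
def N : ℤ := X.a * X.n' + X.r
/-- the distance of heights -/
def h0 : ℤ := X.b + 1
/-- the size of the box -/
def B : ℤ := X.M * X.n'
/-- the size of the grey zone -/
def Lg : ℤ := (X.m + 2) * X.N
/-- the half width of the slabs -/
def w0 : ℤ := (6 * X.m + 12) * X.h0

def mm (t : Bool) : ℤ := cond t X.m (X.m + 1)
def bb (t : Bool) : ℤ := cond t X.b 1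
def kap (t : Bool) (k : ℤ) : ℤ := 2 * k + cond t 0 1
/-- the depth of the ring -/
def z (t : Bool) (k : ℤ) : ℤ := 3 * X.h0 * kap t k
/-- the centre of the window -/
def cx (t : Bool) (k : ℤ) : ℤ := cond t (k * X.N) 0
def cy (t : Bool) (k : ℤ) : ℤ := cond t 0 (k * X.N)

variable {d : ℕ} (I : Dir3 d)

/-- the other coordinates are at most `K` -/
def O (K : ℤ) (q : Fin d → ℤ) : Prop := ∀ l, l ≠ I.i₁ → l ≠ I.i₂ → l ≠ I.i₃ → |q l| ≤ K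

/-- the windows -/
def W (q : Fin d → ℤ) : Prop := ∃ (t : Bool) (k : ℤ), 1 ≤ |k| ∧ |k| < X.mm t ∧
  |q I.i₁ - X.cx t k| ≤ X.bb t ∧ |q I.i₂ - X.cy t k| ≤ X.bb t ∧ |q I.i₃| ≤ X.bb t ∧ O I (X.bb t) q

/-- the points over the lattice with the period `p` and the offset `o` -/
def Lat (p o : ℤ) (q : Fin d → ℤ) : Prop :=
  p ∣ q I.i₁ ∧ p ∣ q I.i₂ - o ∧ 2 * p ∣ q I.i₁ + (q I.i₂ - o)

/-- the lines of direction `(1, 1)` -/
def D1 (p o : ℤ) (q : Fin d → ℤ) : Prop := ∃ e : ℤ, (e = 0 ∨ e = 1) ∧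
  2 * p ∣ q I.i₁ - (q I.i₂ - o) - e

/-- the lines of direction `(1, -1)` -/
def D2 (p o : ℤ) (q : Fin d → ℤ) : Prop := ∃ e : ℤ, (e = 0 ∨ e = 1) ∧
  2 * p ∣ q I.i₁ + (q I.i₂ - o) - e

def Box (o : ℤ) (q : Fin d → ℤ) : Prop := |q I.i₁| ≤ X.B ∧ |q I.i₂ - o| ≤ X.B ∧ O I X.B q

/-- the grid at the height `ℓ` -/
def Grid (p o ℓ : ℤ) (q : Fin d → ℤ) : Prop := X.Box I o q ∧
  ((D1 I p o q ∧ q I.i₃ = ℓ) ∨ (D2 I p o q ∧ q I.i₃ = ℓ + X.h0) ∨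
    (Lat I p o q ∧ ℓ ≤ q I.i₃ ∧ q I.i₃ ≤ ℓ + X.h0))

/-- the heights of the grids with the period `n` -/
def lev (ℓ : ℤ) : Prop :=
  (∃ j : ℤ, 0 ≤ j ∧ j * X.N ≤ X.ρ₂ + 2 * X.N ∧ ℓ = j * X.N + 3 * X.h0) ∨
  (∃ κ : ℤ, 2 ≤ κ ∧ κ ≤ 2 * X.m + 1 ∧ ℓ = -(3 * X.h0 * κ) + X.h0)

def PA (q : Fin d → ℤ) : Prop := 0 ≤ q I.i₁ ∧ q I.i₁ < 2 * X.n ∧ 0 ≤ q I.i₂ ∧ q I.i₂ < X.n ∧
  q I.i₃ = 0 ∧ O I 0 q

def PC (q : Fin d → ℤ) : Prop := 0 ≤ q I.i₁ ∧ q I.i₁ < 2 * X.n' ∧ 0 ≤ q I.i₂ ∧ q I.i₂ < X.n' ∧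
  q I.i₃ = -X.h0 ∧ O I 0 q

/-- the ring of the window `(t, k)` -/
def Rg (t : Bool) (k : ℤ) (q : Fin d → ℤ) : Prop :=
  |q I.i₁ - X.cx t k| ≤ 3 * X.n ∧ |q I.i₂ - X.cy t k| ≤ 3 * X.n ∧
  (X.bb t < |q I.i₁ - X.cx t k| ∨ X.bb t < |q I.i₂ - X.cy t k|) ∧ q I.i₃ = -X.z t k ∧ O I 0 q

/-- the column of the ring -/
def Qc (t : Bool) (k : ℤ) (q : Fin d → ℤ) : Prop := Lat I X.n 0 q ∧
  X.n ≤ q I.i₁ - X.cx t k ∧ q I.i₁ - X.cx t k < 3 * X.n ∧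
  X.n ≤ q I.i₂ - X.cy t k ∧ q I.i₂ - X.cy t k < 2 * X.n ∧
  -X.z t k ≤ q I.i₃ ∧ q I.i₃ ≤ -X.z t k + X.h0 ∧ O I 0 q

/-- the long column over the origin -/
def C0 (q : Fin d → ℤ) : Prop := q I.i₁ = 0 ∧ q I.i₂ = 0 ∧
  -(3 * X.h0 * (2 * X.m + 1)) - X.b ≤ q I.i₃ ∧ q I.i₃ ≤ X.ρ₂ + 4 * X.N ∧ O I X.b q

/-- the points of the columns which meet a window together with `PA` -/
def Cut (q : Fin d → ℤ) : Prop := ∃ (t : Bool) (k : ℤ), 1 ≤ |k| ∧ |k| < X.mm t ∧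
  |q I.i₃| ≤ X.bb t ∧ O I (X.bb t) q ∧ ∃ x y : ℤ, 0 ≤ x ∧ x < 2 * X.n ∧ 0 ≤ y ∧ y < X.n ∧
    |q I.i₁ - x - X.cx t k| ≤ X.bb t ∧ |q I.i₂ - y - X.cy t k| ≤ X.bb t

variable (G : (Fin d → ℤ) → Prop)

def V0 (q : Fin d → ℤ) : Prop := Lat I X.n 0 q ∧ 0 ≤ q I.i₃ ∧
  (∃ q', G q' ∧ ∀ j, |q j - q' j| ≤ 2 * X.n) ∧ ¬ X.Cut I q

/-- the columns which fill the hard core -/
def V (q : Fin d → ℤ) : Prop := ∃ y : ℤ, 0 ≤ y ∧ y ≤ X.N ∧
  X.V0 I G (fun j => if j = I.i₃ then q j - y else q j)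

/-- the columns of the clusters -/
def F (q : Fin d → ℤ) : Prop := Lat I X.n' X.s q ∧ X.Box I X.s q ∧
  (∃ i : ℤ, 2 * |q I.i₁ - X.m * X.N * i| ≤ X.N + 6 * X.n') ∧
  (∃ j : ℤ, 2 * |q I.i₂ - (X.m + 1) * X.N * j| ≤ X.N + 6 * X.n') ∧
  -X.h0 ≤ q I.i₃ ∧ q I.i₃ ≤ X.ρ₂ + X.N

/-- **the set `P`** -/
def P (q : Fin d → ℤ) : Prop := X.PA I q ∨ X.PC I q ∨
  (∃ (t : Bool) (k : ℤ), 1 ≤ k ∧ k < X.mm t ∧ X.Rg I t k q) ∨
  (∃ (t : Bool) (k : ℤ), 1 ≤ k ∧ k < X.mm t ∧ X.Qc I t k q) ∨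
  X.C0 I q ∨ X.V I G q ∨ (∃ ℓ, X.lev ℓ ∧ X.Grid I X.n 0 ℓ q) ∨ X.Grid I X.n' X.s X.h0 q ∨ X.F I q

/-- the assumptions on the sizes and on the zone of the hard core -/
structure Ok (ρ : ℤ) : Prop where
  hρ : X.Lg ≤ ρ
  hρρ : ρ ≤ X.ρ₂
  hB : X.ρ₂ + 3 * X.N ≤ X.B
  hB' : X.B ≤ X.ρ₂ + 4 * X.N
  neg : ∀ q, G q → G (-q)
  cube : ∀ q : Fin d → ℤ, (∀ j, |q j| ≤ ρ) → G q
  bdd : ∀ q, G q → ∀ j, |q j| ≤ X.ρ₂

/-- a coordinate in a thin set, which depends on the other coordinate `y` -/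
def JJ (x y : ℤ) : Prop := (∃ j : ℤ, |x - X.n' * j| ≤ 5 * X.n) ∨
  ∃ o : ℤ, (o = 0 ∨ o = X.s ∨ o = -X.s) ∧ (X.n ∣ x - o ∨ ∃ e : ℤ, |e| ≤ 1 ∧
    (X.n ∣ x - y - o - e ∨ X.n ∣ x + y - o - e))

/-- what the far differences look like -/
def Jk (q : Fin d → ℤ) : Prop :=
  ((∃ i : ℤ, 2 * |q I.i₁ - X.m * X.N * i| ≤ X.N + 10 * X.n') ∧
    ∃ j : ℤ, 2 * |q I.i₂ - (X.m + 1) * X.N * j| ≤ X.N + 10 * X.n') ∨
  (X.JJ (q I.i₁) (q I.i₂) ∧ X.JJ (q I.i₂) (q I.i₁)) ∨ ∃ j : ℤ, |q I.i₃ - X.N * j| ≤ X.w0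

/-! ### Basic inequalities -/

theorem r_ge : 4 * X.b + 4 ≤ X.r := by have := X.hs; unfold r; omega

theorem r_pos : 0 < X.r := by have := X.r_ge; have := X.hb; omega

theorem n_ge : 3 * X.r ≤ X.n := by
  have h := X.r_pos; have h2 := X.hm; unfold n; nlinarith

theorem n_pos : 0 < X.n := by have := X.r_pos; have := X.n_ge; omega

theorem n'_ge : X.n ≤ X.n' := by
  have h := X.n_pos; have h2 := X.hc; unfold n'; nlinarith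

theorem n'_pos : 0 < X.n' := by have := X.n_pos; have := X.n'_ge; omega

theorem N_ge : 60 * X.n' + X.r ≤ X.N := by
  have h := X.n'_pos; have h2 := X.ha; unfold N; nlinarith

theorem N_pos : 0 < X.N := by have := X.N_ge; have := X.n'_pos; have := X.r_pos; omega

theorem mN_ge : 2 * X.N ≤ X.m * X.N := by
  have h := X.N_pos; have h2 := X.hm; nlinarith

/-- the rings are not deep -/
theorem depth_le : 3 * X.h0 * (2 * X.m + 1) ≤ 2 * X.n := by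
  have h1 := X.r_ge; have h2 := X.hm; have h3 := X.hb; unfold n h0; nlinarith

/-- all the basic inequalities -/
theorem basic : 1 ≤ X.b ∧ 4 * X.b + 4 ≤ X.r ∧ X.r = 2 * X.s ∧ 3 * X.r ≤ X.n ∧ X.n ≤ X.n' ∧
    60 * X.n' + X.r ≤ X.N ∧ 2 * X.N ≤ X.m * X.N ∧ X.h0 = X.b + 1 ∧
    3 * X.h0 * (2 * X.m + 1) ≤ 2 * X.n :=
  ⟨X.hb, X.r_ge, rfl, X.n_ge, X.n'_ge, X.N_ge, X.mN_ge, rfl, X.depth_le⟩

theorem m1N : (X.m + 1) * X.N = X.m * X.N + X.N := by ring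

theorem r_dvd_n : X.r ∣ X.n := ⟨X.m + 1, by unfold n; ring⟩

theorem n_dvd_n' : X.n ∣ X.n' := ⟨X.c, by unfold n'; ring⟩

theorem r_dvd_n' : X.r ∣ X.n' := X.r_dvd_n.trans X.n_dvd_n'

theorem r_dvd_N : X.r ∣ X.N := by
  unfold N; exact dvd_add (X.r_dvd_n'.mul_left _) dvd_rfl

theorem n_dvd_N_sub : X.n ∣ X.N - X.r := by
  refine ⟨X.a * X.c, ?_⟩
  unfold N n'
  ring

theorem n'_dvd_B : X.n' ∣ X.B := ⟨X.M, by unfold B; ring⟩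

theorem n_dvd_B : X.n ∣ X.B := X.n_dvd_n'.trans X.n'_dvd_B

theorem bb_pos (t : Bool) : 1 ≤ X.bb t := by
  cases t
  · exact le_rfl
  · exact X.hb

theorem bb_le (t : Bool) : X.bb t ≤ X.b := by
  cases t
  · exact X.hb
  · exact le_rfl

theorem kap_ge {t : Bool} {k : ℤ} (h : 1 ≤ k) : 2 ≤ kap t k := by
  unfold kap; cases t <;> simp <;> omega

theorem kap_le {t : Bool} {k : ℤ} (h : k < X.mm t) : kap t k ≤ 2 * X.m + 1 := by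
  unfold kap mm at *; cases t <;> simp at * <;> omega

end DPar

end Pool.Agent.RC
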