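import Pool.Agent.Lib.MP_09cbbd_rc.EndG
import Pool.Agent.Lib.MP_09cbbd_rd.DDef

/-!
# Rows and columns: the transition, for bodies with a property `Q`
-/

set_option autoImplicit false

namespace Pool.Agent.RC

open MeasureTheory Finset Filter Topology Pointwise
open Pool.Agent.StableGas hiding tr
open Pool.Agent.SquareWell hiding Md cut
open Pool.Agent.SquareWell.ModA
open Pool.Agent.Exg

/-- the instances, with a property `Q` of the body -/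
def InstQ (d : ℕ) (Q : Set (Fin d → ℝ) → Prop) (i₁ i₂ : Fin d) (Nh : Set (Fin d → ℝ)) (c₀ : ℝ)
    (D : ℕ) : Prop :=
  ∀ m : ℕ, 2 ≤ m → ∀ R : ℝ, (D : ℝ) ≤ R → ∀ ε : ℝ, 0 < ε →
    ∃ C b₀ : ℕ, 0 < C ∧ ∀ b₁ : ℕ, b₀ ≤ b₁ → ∀ H : ℕ, 7 ≤ H → 7 ≤ c₀ * H →
      ∀ α : ℝ, α * (m * (m + 1) * H) = 1 →
      ∃ (K : Set (Fin d → ℝ)) (η β β' τ : ℝ), IsBody d K ∧ Q K ∧ 0 < η ∧
        τ ≤ 5 * (m + 2) ^ 2 * α / c₀ ∧
        ∀ K₁ : Set (Fin d → ℝ), IsCompact K₁ → K ⊆ K₁ → K₁ ⊆ Metric.cthickening η K →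
        Geo d i₁ i₂ m R α (α * ((b₁ + 1 / 4) / (C * (b₁ + 2)))) (α * (1 / 4 / (C * (b₁ + 2))))
          β β' τ ε Nh (K₁ - K₁)

/-- the parametric theorem, with a property `Q` of the body -/
def EndStmtQ (d : ℕ) (Q : Set (Fin d → ℝ) → Prop) : Prop :=
  ∀ (N : Set (Fin d → ℝ)) (c : ℝ) (D : ℕ), Core N c D → ∀ i₁ i₂ : Fin d, i₁ ≠ i₂ →
    ∃ k0 : ℕ, ∀ k : ℕ, k0 ≤ k → ∀ δ : ℝ, 0 < δ →
    ∃ (α a b β β' τ ε : ℝ) (K : Set (Fin d → ℝ)) (η : ℝ), IsBody d K ∧ Q K ∧ 0 < η ∧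
      α ≤ δ ∧ τ ≤ δ ∧ 0 < ε ∧ ε ≤ δ ∧
      ∀ K₁ : Set (Fin d → ℝ), IsCompact K₁ → K ⊆ K₁ → K₁ ⊆ Metric.cthickening η K →
      Geo d i₁ i₂ (8 * (8 * k + 11) ^ d) (2 * k + 1) α a b β β' τ ε N (K₁ - K₁) ∧
      ExGas.Transition d (K₁ - K₁)

/-- the theorem for hard cores in normal form, with a property `Q` of the body -/
def MainCoreQ (d : ℕ) (Q : Set (Fin d → ℝ) → Prop) : Prop :=
  ∀ (Nh : Set (Fin d → ℝ)) (c : ℝ) (D : ℕ), Core Nh c D → ∀ δ : ℝ, 0 < δ →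
    ∃ (K : Set (Fin d → ℝ)) (η : ℝ), IsBody d K ∧ Q K ∧ 0 < η ∧
      ∀ K₁ : Set (Fin d → ℝ), IsCompact K₁ → K ⊆ K₁ → K₁ ⊆ Metric.cthickening η K →
      (∀ u ∈ Nh, δ ≤ ‖u‖ → u ∈ K₁ - K₁) ∧
      volume (symmDiff (K₁ - K₁) Nh) ≤ ENNReal.ofReal δ ∧ ExGas.Transition d (K₁ - K₁)

/-- **The transition for a general hard core**, for the bodies of the instances. -/
theorem end_stmt_of {d : ℕ} (hd : 2 ≤ d) {Q : Set (Fin d → ℝ) → Prop}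
    (HI : ∀ (N : Set (Fin d → ℝ)) (c : ℝ) (D : ℕ), Core N c D → ∀ i₁ i₂ : Fin d, i₁ ≠ i₂ →
      InstQ d Q i₁ i₂ N c D) : EndStmtQ d Q := by
  intro N c D hC i₁ i₂ hne
  have hd1 : 1 ≤ d := by omega
  have hd' : (1 : ℝ) ≤ d := by exact_mod_cast hd1
  have hc0 := hC.c_pos
  obtain ⟨k0, hk0⟩ := gen_step hd hC
  refine ⟨max k0 D, fun k hk δ hδ => ?_⟩
  have hkD : D ≤ k := (le_max_right _ _).trans hk
  obtain ⟨m, hm⟩ : ∃ m : ℕ, m = 8 * (8 * k + 11) ^ d := ⟨_, rfl⟩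
  obtain ⟨ε, hε, hεa, dl, ε₂, K0, hdl, hε₂, hfin⟩ := hk0 k ((le_max_left _ _).trans hk) m hm
  rw [← hm]
  have hm64 : 64 ≤ m := by
    have h1 : (8 * k + 11) ^ 1 ≤ (8 * k + 11) ^ d := Nat.pow_le_pow_right (by omega) hd1
    rw [pow_one] at h1
    omega
  have hm' : (64 : ℝ) ≤ m := by exact_mod_cast hm64
  obtain ⟨Kc, hKc, hK, hKG⟩ := exists_KcBigG d m 1 D c dl (ε₂ := ε₂ / 2) (by positivity)
    (max K0 (max (6 / (c * δ)) (max (7 / c) (6 / δ))))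
  -- the junk
  obtain ⟨r, hr⟩ : ∃ r : ℕ, r = 4 * k + 5 := ⟨_, rfl⟩
  obtain ⟨εJ, hεJ, hεJδ, hεJ'⟩ : ∃ εJ : ℝ, 0 < εJ ∧ εJ ≤ δ ∧
      4 * (2 * (r : ℝ) + 1) ^ d * (m + 1) ^ 2 * εJ ≤ 1 := by
    have hp : 0 < 4 * (2 * (r : ℝ) + 1) ^ d * (m + 1) ^ 2 := by positivity
    refine ⟨min δ (1 / (4 * (2 * (r : ℝ) + 1) ^ d * (m + 1) ^ 2)), by positivity,
      min_le_left _ _, ?_⟩
    calc _ ≤ 4 * (2 * (r : ℝ) + 1) ^ d * (m + 1) ^ 2 *
          (1 / (4 * (2 * (r : ℝ) + 1) ^ d * (m + 1) ^ 2)) :=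
          mul_le_mul_of_nonneg_left (min_le_right _ _) hp.le
      _ = 1 := by field_simp
  have hDR : (D : ℝ) ≤ 2 * (k : ℝ) + 1 := by
    have h1 : (D : ℝ) ≤ k := by exact_mod_cast hkD
    have h2 : (0 : ℝ) ≤ k := Nat.cast_nonneg k
    linarith
  obtain ⟨C, b₀, hCC, hI⟩ := HI N c D hC i₁ i₂ hne m (by omega) (2 * (k : ℝ) + 1) hDR εJ hεJ
  obtain ⟨b₁, H, hb₁, hH, hNum⟩ := exists_num (d := d) (m := m) hd1 hm64 hCC hεa Kc b₀
  have hH' : (7 : ℝ) ≤ H := by exact_mod_cast hH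
  obtain ⟨α, hα⟩ : ∃ α : ℝ, α * (m * (m + 1) * H) = 1 :=
    ⟨1 / (m * (m + 1) * H), by field_simp⟩
  obtain ⟨h, ζ, M, lam, HN⟩ := hNum α hα
  have hh := HN.h_pos
  have hKc1 := hK.k5
  have hKh := HN.h_le hd1 hK
  have hhH : h * H = 1 := by
    rw [HN.h_eq]
    linarith
  have hKcH : Kc ≤ H := by
    have h1 : Kc * h ≤ H * h := by linarith
    exact le_of_mul_le_mul_right h1 hh
  have hcH : 7 ≤ c * H := by
    have h1 : 7 / c ≤ Kc :=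
      (((le_max_left _ _).trans (le_max_right _ _)).trans (le_max_right _ _)).trans hKc
    rw [div_le_iff₀' hc0] at h1
    exact h1.trans (mul_le_mul_of_nonneg_left hKcH hc0.le)
  obtain ⟨K, η, β, β', τ, hKb, hQ, hη, hτ, hG⟩ := hI b₁ hb₁ H hH hcH α hα
  have hα0 := HN.α_pos hm64
  obtain ⟨hl1, hl2⟩ := HN.lengths hm64 (le_refl (5 * ((m : ℝ) + 2) ^ 2 * α))
  have hαh : α ≤ h := by
    refine le_trans ?_ hl1
    have : 1 * α ≤ (m + 1) * α := mul_le_mul_of_nonneg_right (by linarith) hα0.le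
    linarith
  have h6 : h ≤ δ := by
    have h1 : 6 / δ ≤ Kc :=
      (((le_max_right _ _).trans (le_max_right _ _)).trans (le_max_right _ _)).trans hKc
    have h2 : 6 / δ * h ≤ 1 := (mul_le_mul_of_nonneg_right h1 hh.le).trans hKh
    rw [div_mul_eq_mul_div, div_le_one hδ] at h2
    linarith
  have h7 : τ ≤ δ := by
    have h1 : 6 / (c * δ) ≤ Kc := ((le_max_left _ _).trans (le_max_right _ _)).trans hKc
    have h2 : 6 / (c * δ) * h ≤ 1 := (mul_le_mul_of_nonneg_right h1 hh.le).trans hKh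
    rw [div_mul_eq_mul_div, div_le_one (by positivity)] at h2
    refine hτ.trans ?_
    rw [div_le_iff₀ hc0]
    linarith
  refine ⟨α, _, _, β, β', τ, εJ, K, η, hKb, hQ, hη, by linarith, h7, hεJ, hεJδ,
    fun K₁ h1 h2 h3 => ⟨hG K₁ h1 h2 h3, ?_⟩⟩
  exact hfin i₁ i₂ α _ _ β β' τ εJ Kc h ζ M lam (K₁ - K₁) ((le_max_left _ _).trans hKc) hK hKG HN
    hτ hεJ.le (by rw [← hr]; exact hεJ') (hG K₁ h1 h2 h3)

theorem mainCore_ofQ {d : ℕ} (hd : 2 ≤ d) {Q : Set (Fin d → ℝ) → Prop} (H : EndStmtQ d Q) :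
    MainCoreQ d Q := by
  intro N c D hN δ hδ
  have hne : (⟨0, by omega⟩ : Fin d) ≠ ⟨1, by omega⟩ := fun h => by
    have := congrArg Fin.val h
    simp at this
  obtain ⟨k0, hk0⟩ := H N c D hN _ _ hne
  obtain ⟨k, hk⟩ : ∃ k : ℕ, k = max k0 ⌈1 / δ⌉₊ := ⟨_, rfl⟩
  have h1 : k0 ≤ k := by rw [hk]; exact le_max_left _ _
  have h2 : 1 / δ ≤ k := by
    rw [hk]
    refine (Nat.le_ceil _).trans ?_
    exact_mod_cast le_max_right _ _
  obtain ⟨m, hm⟩ : ∃ m : ℕ, m = 8 * (8 * k + 11) ^ d := ⟨_, rfl⟩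
  have h3 : (k : ℝ) ≤ m := by
    have h4 : 8 * k + 11 ≤ (8 * k + 11) ^ d := Nat.le_self_pow (by omega) _
    exact_mod_cast (by omega : k ≤ m)
  obtain ⟨δ', hδ', h⟩ := Geo.vol_small (m := m) (R := 2 * k + 1) (δ := δ)
    (by omega) hN (by positivity) (by
      rw [hm]
      push_cast
      rw [show 4 * (2 * (k : ℝ) + 1) + 7 = 8 * k + 11 by ring]) hδ (by
      rw [div_le_iff₀ hδ] at h2
      nlinarith)
  obtain ⟨α, a, b, β, β', τ, ε, K, η, hK, hQ, hη, hα, hτ, hε0, hε, hT⟩ :=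
    hk0 k h1 (min δ' (δ / (m + 2))) (lt_min hδ' (by positivity))
  refine ⟨K, η, hK, hQ, hη, fun K₁ hK₁ g1 g2 => ?_⟩
  obtain ⟨hG, hTr⟩ := hT K₁ hK₁ g1 g2
  rw [← hm] at hG
  refine ⟨fun u hu hn => hG.core_sub hu (le_trans ?_ hn),
    h _ _ _ _ _ _ _ _ _ _ (hα.trans (min_le_left _ _)) (hτ.trans (min_le_left _ _)) hε0.le
      (hε.trans (min_le_left _ _)) hG, hTr⟩
  have h4 : α ≤ δ / (m + 2) := hα.trans (min_le_right _ _)
  rw [le_div_iff₀ (by positivity)] at h4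
  linarith

theorem final_ofQ {d : ℕ} {Q : Set (Fin d → ℝ) → Prop}
    (hQs : ∀ (K : Set (Fin d → ℝ)) (l : ℝ), 0 < l → Q K → Q (l • K)) (H : MainCoreQ d Q)
    (N : Set (Fin d → ℝ)) (ho : IsOpen N)
    (hc : Convex ℝ N) (hb : Bornology.IsBounded N) (hs : ∀ u ∈ N, -u ∈ N) (hne : N.Nonempty)
    (δ : ℝ) (hδ : 0 < δ) :
    ∃ (K : Set (Fin d → ℝ)) (η : ℝ), HardBodies.IsCubeUnion d K ∧ Q K ∧ 0 < η ∧
      ∀ K₁ : Set (Fin d → ℝ), IsCompact K₁ → K ⊆ K₁ → K₁ ⊆ Metric.cthickening η K →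
      (∀ u ∈ N, δ ≤ ‖u‖ → u ∈ K₁ - K₁) ∧
      volume (symmDiff (K₁ - K₁) N) ≤ ENNReal.ofReal δ ∧ HardBodies.Transition d K₁ := by
  obtain ⟨l, hl, D, hD⟩ := core_of_convex ho hc hb hs hne
  have hl' := inv_pos.mpr hl
  obtain ⟨K, η, hK, hQ, hη, h⟩ := H (l • N) (1 / 2) D hD (min (δ * l ^ d) (l * δ))
    (lt_min (by positivity) (by positivity))
  refine ⟨l⁻¹ • K, l⁻¹ * η, IsBody.smul hl' hK, hQs K _ hl' hQ, by positivity,
    fun K₁ hK₁ h1 h2 => ?_⟩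
  have hKc : IsCompact (l⁻¹ • K) := hK.isCompact.smul l⁻¹
  obtain ⟨g1, g2, g3⟩ := h (l • K₁) (hK₁.smul l)
    (by
      rintro x hx
      exact ⟨l⁻¹ • x, h1 ⟨x, hx, rfl⟩, smul_inv_smul₀ hl.ne' x⟩)
    (by
      rintro _ ⟨x, hx, rfl⟩
      have h3 := h2 hx
      rw [hKc.cthickening_eq_biUnion_closedBall (by positivity)] at h3
      obtain ⟨z, ⟨y, hy, rfl⟩, h4⟩ := Set.mem_iUnion₂.mp h3
      rw [Metric.mem_closedBall] at h4
      refine Metric.mem_cthickening_of_dist_le _ y η K hy ?_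
      have e : dist (l • x) y = l * dist x (l⁻¹ • y) := by
        rw [dist_eq_norm, dist_eq_norm, ← abs_of_pos hl, ← Real.norm_eq_abs l, ← norm_smul,
          Real.norm_eq_abs, abs_of_pos hl, smul_sub, smul_inv_smul₀ hl.ne']
      change dist (l • x) y ≤ η
      rw [e]
      calc l * dist x (l⁻¹ • y) ≤ l * (l⁻¹ * η) := mul_le_mul_of_nonneg_left h4 hl.le
        _ = η := by field_simp)
  have e1 : l⁻¹ • (l • K₁) = K₁ := inv_smul_smul₀ hl.ne' K₁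
  refine ⟨fun u hu hn => ?_, ?_, ?_⟩
  · have h3 : l • u ∈ l • K₁ - l • K₁ := by
      refine g1 _ ⟨u, hu, rfl⟩ ?_
      rw [norm_smul, Real.norm_eq_abs, abs_of_pos hl]
      exact (min_le_right _ _).trans (mul_le_mul_of_nonneg_left hn hl.le)
    rw [← smul_sub_self] at h3
    obtain ⟨v, hv, e⟩ := h3
    have e2 : v = u := smul_right_injective _ hl.ne' e
    rwa [e2] at hv
  · have e : N = l⁻¹ • (l • N) := (inv_smul_smul₀ hl.ne' N).symm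
    rw [← e1, ← smul_sub_self, e, volume_smul_symmDiff hl'.le]
    calc ENNReal.ofReal (l⁻¹ ^ d) * volume (symmDiff (l • K₁ - l • K₁) (l • N)) ≤
          ENNReal.ofReal (l⁻¹ ^ d) * ENNReal.ofReal (δ * l ^ d) :=
          mul_le_mul_right (g2.trans (ENNReal.ofReal_le_ofReal (min_le_left _ _))) _
      _ = ENNReal.ofReal δ := by
        rw [← ENNReal.ofReal_mul (by positivity)]
        congr 1
        rw [inv_pow]
        field_simp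
  · rw [HardBodies.transition_iff, ← e1]
    exact transition_body hl' g3

/-- connected in dimension at least three, together with the interior -/
def QCon (d : ℕ) (K : Set (Fin d → ℝ)) : Prop := 3 ≤ d → IsConnected K ∧ IsConnected (interior K)

theorem QCon.smul {d : ℕ} (K : Set (Fin d → ℝ)) (l : ℝ) (hl : 0 < l) (h : QCon d K) :
    QCon d (l • K) := by
  intro hd
  obtain ⟨h1, h2⟩ := h hd
  have hc : Continuous fun x : Fin d → ℝ => l • x := continuous_const_smul l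
  refine ⟨h1.image _ hc.continuousOn, ?_⟩
  rw [interior_smul₀ hl.ne']
  exact h2.image _ hc.continuousOn

/-- **The final theorem, from the connected instances.** -/
theorem final_con {d : ℕ} (hd : 2 ≤ d)
    (HI : ∀ (I : Dir3 d) (N : Set (Fin d → ℝ)) (c : ℝ) (D : ℕ), Core N c D →
      InstQ d (fun K => IsConnected K ∧ IsConnected (interior K)) I.i₁ I.i₂ N c D)
    (N : Set (Fin d → ℝ)) (ho : IsOpen N)
    (hc : Convex ℝ N) (hb : Bornology.IsBounded N) (hs : ∀ u ∈ N, -u ∈ N) (hne : N.Nonempty)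
    (δ : ℝ) (hδ : 0 < δ) :
    ∃ (K : Set (Fin d → ℝ)) (η : ℝ), HardBodies.IsCubeUnion d K ∧
      (3 ≤ d → IsConnected K ∧ IsConnected (interior K)) ∧ 0 < η ∧
      ∀ K₁ : Set (Fin d → ℝ), IsCompact K₁ → K ⊆ K₁ → K₁ ⊆ Metric.cthickening η K →
      (∀ u ∈ N, δ ≤ ‖u‖ → u ∈ K₁ - K₁) ∧
      volume (symmDiff (K₁ - K₁) N) ≤ ENNReal.ofReal δ ∧ HardBodies.Transition d K₁ := by
  refine final_ofQ (Q := QCon d) QCon.smul (mainCore_ofQ hd (end_stmt_of hd ?_)) N ho hc hb hs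
    hne δ hδ
  intro N c D hC i₁ i₂ hne m hm R hDR ε hε
  by_cases h3 : 3 ≤ d
  · obtain ⟨i₃, h13, h23⟩ : ∃ i₃ : Fin d, i₁ ≠ i₃ ∧ i₂ ≠ i₃ := by
      have h4 : ({i₁, i₂} : Finset (Fin d)).card < Fintype.card (Fin d) := by
        rw [Fintype.card_fin]
        exact lt_of_le_of_lt Finset.card_le_two h3
      obtain ⟨i₃, hi⟩ := Finset.exists_mem_notMem_of_card_lt_card
        (s := {i₁, i₂}) (t := Finset.univ) (by rwa [Finset.card_univ])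
      simp only [Finset.mem_insert, Finset.mem_singleton, not_or] at hi
      exact ⟨i₃, fun h => hi.2.1 h.symm, fun h => hi.2.2 h.symm⟩
    obtain ⟨C, b₀, hC0, h⟩ := HI ⟨i₁, i₂, i₃, hne, h13, h23⟩ N c D hC m hm R hDR ε hε
    refine ⟨C, b₀, hC0, fun b₁ hb₁ H hH hcH α hα => ?_⟩
    obtain ⟨K, η, β, β', τ, hK, hQ, hη, hτ, hG⟩ := h b₁ hb₁ H hH hcH α hα
    exact ⟨K, η, β, β', τ, hK, fun _ => hQ, hη, hτ, hG⟩
  · obtain ⟨C, b₀, hC0, h⟩ := instKN hne hC m hm R hDR ε hε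
    refine ⟨C, b₀, hC0, fun b₁ hb₁ H hH hcH α hα => ?_⟩
    obtain ⟨K, η, β, β', τ, hK, hη, hτ, hG⟩ := h b₁ hb₁ H hH hcH α hα
    exact ⟨K, η, β, β', τ, hK, fun h3' => absurd h3' h3, hη, hτ, hG⟩

end Pool.Agent.RC
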