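import Pool.Agent.Lib.MP_09cbbd_rd.DDef

/-!
# A connected body: what the far differences look like
-/

set_option autoImplicit false

namespace Pool.Agent.RC

namespace DPar

variable {X : DPar} {d : ℕ} {I : Dir3 d} {G : (Fin d → ℤ) → Prop} {ρ : ℤ}

theorem JJ.neg {x y : ℤ} (h : X.JJ x y) : X.JJ (-x) (-y) := by
  rcases h with ⟨j, h⟩ | ⟨o, ho, h⟩
  · left
    refine ⟨-j, ?_⟩
    have e : -x - X.n' * -j = -(x - X.n' * j) := by ring
    rw [e, abs_neg]; exact h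
  · right
    refine ⟨-o, by clear h; omega, ?_⟩
    rcases h with h | ⟨e, he, h⟩
    · left
      have e1 : -x - -o = -(x - o) := by ring
      rw [e1]; exact (dvd_neg).2 h
    · right
      refine ⟨-e, by rwa [abs_neg], ?_⟩
      rcases h with h | h
      · left
        have e1 : -x - -y - -o - -e = -(x - y - o - e) := by ring
        rw [e1]; exact (dvd_neg).2 h
      · right
        have e1 : -x + -y - -o - -e = -(x + y - o - e) := by ring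
        rw [e1]; exact (dvd_neg).2 h

theorem Jk.neg {q : Fin d → ℤ} (h : X.Jk I q) : X.Jk I (-q) := by
  rcases h with ⟨⟨i, h1⟩, j, h2⟩ | ⟨h1, h2⟩ | ⟨j, h⟩
  · left
    refine ⟨⟨-i, ?_⟩, -j, ?_⟩
    · have e : (-q) I.i₁ - X.m * X.N * -i = -(q I.i₁ - X.m * X.N * i) := by
        simp only [Pi.neg_apply]; ring
      rw [e, abs_neg]; exact h1
    · have e : (-q) I.i₂ - (X.m + 1) * X.N * -j = -(q I.i₂ - (X.m + 1) * X.N * j) := by
        simp only [Pi.neg_apply]; ring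
      rw [e, abs_neg]; exact h2
  · right; left
    exact ⟨h1.neg, h2.neg⟩
  · right; right
    refine ⟨-j, ?_⟩
    have e : (-q) I.i₃ - X.N * -j = -(q I.i₃ - X.N * j) := by
      simp only [Pi.neg_apply]; ring
    rw [e, abs_neg]; exact h

/-! ### Classes of points -/

/-- the short sets -/
def JkS (X : DPar) (I : Dir3 d) (q : Fin d → ℤ) : Prop :=
  ∃ j : ℤ, X.N * j - (6 * X.m + 3) * X.h0 ≤ q I.i₃ ∧ q I.i₃ ≤ X.N * j + 4 * X.h0

/-- points over a lattice -/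
def JkL (X : DPar) (I : Dir3 d) (q : Fin d → ℤ) : Prop :=
  ∃ o : ℤ, (o = 0 ∨ o = X.s) ∧ X.n ∣ q I.i₁ ∧ X.n ∣ q I.i₂ - o

/-- points over the lines of a grid -/
def JkD (X : DPar) (I : Dir3 d) (q : Fin d → ℤ) : Prop :=
  ∃ o : ℤ, (o = 0 ∨ o = X.s) ∧ ∃ e : ℤ, |e| ≤ 1 ∧
    (X.n ∣ q I.i₁ - q I.i₂ + o - e ∨ X.n ∣ q I.i₁ + q I.i₂ - o - e)

/-- points near the lattice of the period `n'` -/
def JkR (X : DPar) (I : Dir3 d) (q : Fin d → ℤ) : Prop :=
  (∃ j : ℤ, |q I.i₁ - X.n' * j| ≤ 4 * X.n) ∧ ∃ j : ℤ, |q I.i₂ - X.n' * j| ≤ 4 * X.n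

theorem jk_short {p q : Fin d → ℤ} (hp : JkS X I p) (hq : JkS X I q) : X.Jk I (p - q) := by
  obtain ⟨j, h1, h2⟩ := hp
  obtain ⟨i, h3, h4⟩ := hq
  right; right
  refine ⟨j - i, ?_⟩
  have hh : 0 < X.h0 := by have := X.hb; unfold h0; omega
  simp only [Pi.sub_apply]
  unfold w0
  rw [abs_le]
  constructor <;> nlinarith

theorem jk_LL {p q : Fin d → ℤ} (hp : JkL X I p) (hq : JkL X I q) : X.Jk I (p - q) := by
  obtain ⟨o, ho, h1, h2⟩ := hp
  obtain ⟨o', ho', h3, h4⟩ := hq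
  right; left
  simp only [Pi.sub_apply]
  refine ⟨Or.inr ⟨0, Or.inl rfl, Or.inl ?_⟩, Or.inr ⟨o - o', by omega, Or.inl ?_⟩⟩
  · rw [sub_zero]; exact dvd_sub h1 h3
  · have e : p I.i₂ - q I.i₂ - (o - o') = (p I.i₂ - o) - (q I.i₂ - o') := by ring
    rw [e]; exact dvd_sub h2 h4

theorem jk_LD {p q : Fin d → ℤ} (hp : JkL X I p) (hq : JkD X I q) : X.Jk I (p - q) := by
  obtain ⟨o, ho, h1, h2⟩ := hp
  obtain ⟨o', ho', e, he, h⟩ := hq
  right; left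
  simp only [Pi.sub_apply]
  rcases h with h | h
  · refine ⟨Or.inr ⟨o' - o, by omega, Or.inr ⟨-e, by rwa [abs_neg], Or.inl ?_⟩⟩,
      Or.inr ⟨o - o', by omega, Or.inr ⟨e, he, Or.inl ?_⟩⟩⟩
    · have e1 : p I.i₁ - q I.i₁ - (p I.i₂ - q I.i₂) - (o' - o) - -e =
        p I.i₁ - (p I.i₂ - o) - (q I.i₁ - q I.i₂ + o' - e) := by ring
      rw [e1]; exact dvd_sub (dvd_sub h1 h2) h
    · have e1 : p I.i₂ - q I.i₂ - (p I.i₁ - q I.i₁) - (o - o') - e =
        (p I.i₂ - o) - p I.i₁ + (q I.i₁ - q I.i₂ + o' - e) := by ring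
      rw [e1]; exact dvd_add (dvd_sub h2 h1) h
  · refine ⟨Or.inr ⟨o - o', by omega, Or.inr ⟨-e, by rwa [abs_neg], Or.inr ?_⟩⟩,
      Or.inr ⟨o - o', by omega, Or.inr ⟨-e, by rwa [abs_neg], Or.inr ?_⟩⟩⟩
    · have e1 : p I.i₁ - q I.i₁ + (p I.i₂ - q I.i₂) - (o - o') - -e =
        p I.i₁ + (p I.i₂ - o) - (q I.i₁ + q I.i₂ - o' - e) := by ring
      rw [e1]; exact dvd_sub (dvd_add h1 h2) h
    · have e1 : p I.i₂ - q I.i₂ + (p I.i₁ - q I.i₁) - (o - o') - -e =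
        p I.i₁ + (p I.i₂ - o) - (q I.i₁ + q I.i₂ - o' - e) := by ring
      rw [e1]; exact dvd_sub (dvd_add h1 h2) h

/-- a point of period `n'` and a point near the lattice of period `n'` -/
theorem jk_R {p q : Fin d → ℤ} (h1 : X.n' ∣ p I.i₁) (h2 : ∃ o : ℤ, (o = 0 ∨ o = X.s) ∧
    X.n' ∣ p I.i₂ - o) (hq : JkR X I q) : X.Jk I (p - q) := by
  obtain ⟨b1, b2, b3, b4, b5, b6, b7, b8, b9⟩ := X.basic
  have hn := X.n_pos
  obtain ⟨u, hu⟩ := h1
  obtain ⟨o, ho, v, hv⟩ := h2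
  obtain ⟨⟨i, hi⟩, j, hj⟩ := hq
  right; left
  simp only [Pi.sub_apply]
  rw [abs_le] at hi hj
  refine ⟨Or.inl ⟨u - i, ?_⟩, Or.inl ⟨v - j, ?_⟩⟩
  · have e : p I.i₁ - q I.i₁ - X.n' * (u - i) = -(q I.i₁ - X.n' * i) := by rw [hu]; ring
    rw [e, abs_le]
    constructor <;> omega
  · have e : p I.i₂ - q I.i₂ - X.n' * (v - j) = (p I.i₂ - o - X.n' * v) + o - (q I.i₂ - X.n' * j) := by
      ring
    rw [e, hv, abs_le]
    have : (0 : ℤ) ≤ X.s ∧ X.s ≤ X.n := by omega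
    constructor <;> omega

/-! ### The sets of `P` in the classes -/

theorem jk_h0_pos (X : DPar) : 0 < X.h0 := by have := X.hb; unfold h0; omega

theorem jk_kap (X : DPar) {t : Bool} {k : ℤ} (h1 : 1 ≤ k) (h2 : k < X.mm t) :
    0 ≤ X.z t k ∧ X.z t k ≤ (6 * X.m + 3) * X.h0 ∧ 0 ≤ k ∧ k ≤ X.m := by
  have hh := X.jk_h0_pos
  have h3 := X.kap_le h2
  have h4 := kap_ge (t := t) h1
  have h5 : k ≤ X.m := by unfold mm at h2; cases t <;> simp at h2 <;> omega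
  unfold z
  refine ⟨by positivity, ?_, by omega, h5⟩
  nlinarith

theorem jk_PA {q : Fin d → ℤ} (h : X.PA I q) : JkS X I q ∧ (∀ l, l ≠ I.i₁ → l ≠ I.i₂ →
    l ≠ I.i₃ → q l = 0) := by
  obtain ⟨-, -, -, -, h5, h6⟩ := h
  have hh := X.jk_h0_pos
  have hm := X.hm
  refine ⟨⟨0, ?_, ?_⟩, fun l a b c => abs_nonpos_iff.1 (h6 l a b c)⟩
  · rw [h5]; nlinarith
  · rw [h5]; nlinarith

theorem jk_PC {q : Fin d → ℤ} (h : X.PC I q) : JkS X I q := by
  obtain ⟨-, -, -, -, h5, h6⟩ := h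
  have hh := X.jk_h0_pos
  have hm := X.hm
  refine ⟨0, ?_, ?_⟩
  · rw [h5]; nlinarith
  · rw [h5]; nlinarith

theorem jk_Rg {t : Bool} {k : ℤ} (h1 : 1 ≤ k) (h2 : k < X.mm t) {q : Fin d → ℤ}
    (h : X.Rg I t k q) : JkS X I q := by
  obtain ⟨-, -, -, h5, h6⟩ := h
  have hh := X.jk_h0_pos
  have hm := X.hm
  obtain ⟨h7, h8, -, -⟩ := X.jk_kap h1 h2
  refine ⟨0, ?_, ?_⟩
  · rw [h5]; linarith
  · rw [h5]; linarith

theorem jk_Rg_R {t : Bool} {k : ℤ} (h1 : 1 ≤ k) (h2 : k < X.mm t) {q : Fin d → ℤ}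
    (h : X.Rg I t k q) : JkR X I q := by
  obtain ⟨h3, h4, -, -, -⟩ := h
  obtain ⟨-, -, h7, h8⟩ := X.jk_kap h1 h2
  have hn := X.n_pos
  have hr := X.r_pos
  have hN : X.N = X.a * X.n' + X.r := rfl
  have hk : 0 ≤ k * X.r ∧ k * X.r ≤ X.n := by
    constructor
    · positivity
    · unfold n; nlinarith
  rw [abs_le] at h3 h4
  cases t
  · have e1 : X.cx false k = 0 := rfl
    have e2 : X.cy false k = k * X.N := rfl
    rw [e1] at h3
    rw [e2] at h4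
    refine ⟨⟨0, ?_⟩, k * X.a, ?_⟩
    · rw [abs_le]; constructor <;> linarith
    · have e3 : q I.i₂ - X.n' * (k * X.a) = (q I.i₂ - k * X.N) + k * X.r := by rw [hN]; ring
      rw [e3, abs_le]; constructor <;> linarith
  · have e1 : X.cx true k = k * X.N := rfl
    have e2 : X.cy true k = 0 := rfl
    rw [e1] at h3
    rw [e2] at h4
    refine ⟨⟨k * X.a, ?_⟩, 0, ?_⟩
    · have e3 : q I.i₁ - X.n' * (k * X.a) = (q I.i₁ - k * X.N) + k * X.r := by rw [hN]; ring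
      rw [e3, abs_le]; constructor <;> linarith
    · rw [abs_le]; constructor <;> linarith

theorem jk_Qc {t : Bool} {k : ℤ} (h1 : 1 ≤ k) (h2 : k < X.mm t) {q : Fin d → ℤ}
    (h : X.Qc I t k q) : JkS X I q ∧ JkL X I q := by
  obtain ⟨⟨h3, h4, -⟩, -, -, -, -, h5, h6, -⟩ := h
  have hh := X.jk_h0_pos
  obtain ⟨h7, h8, -, -⟩ := X.jk_kap h1 h2
  refine ⟨⟨0, ?_, ?_⟩, 0, Or.inl rfl, h3, h4⟩
  · linarith
  · linarith

theorem jk_Grid {p o ℓ : ℤ} (hp : X.n ∣ p) (ho : o = 0 ∨ o = X.s) {q : Fin d → ℤ}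
    (h : X.Grid I p o ℓ q) : (ℓ ≤ q I.i₃ ∧ q I.i₃ ≤ ℓ + X.h0) ∧ (JkL X I q ∨ JkD X I q) := by
  have hh := X.jk_h0_pos
  have hp2 : X.n ∣ 2 * p := hp.mul_left 2
  obtain ⟨-, ⟨⟨e, he, h1⟩, h2⟩ | ⟨⟨e, he, h1⟩, h2⟩ | ⟨⟨h1, h2, -⟩, h3, h4⟩⟩ := h
  · refine ⟨by omega, Or.inr ⟨o, ho, e, ?_, Or.inl ?_⟩⟩
    · rcases he with rfl | rfl <;> simp
    · have e1 : q I.i₁ - q I.i₂ + o - e = q I.i₁ - (q I.i₂ - o) - e := by ring
      rw [e1]; exact hp2.trans h1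
  · refine ⟨by omega, Or.inr ⟨o, ho, e, ?_, Or.inr ?_⟩⟩
    · rcases he with rfl | rfl <;> simp
    · have e1 : q I.i₁ + q I.i₂ - o - e = q I.i₁ + (q I.i₂ - o) - e := by ring
      rw [e1]; exact hp2.trans h1
  · exact ⟨⟨h3, h4⟩, Or.inl ⟨o, ho, hp.trans h1, hp.trans h2⟩⟩

theorem jk_lev {ℓ : ℤ} (h : X.lev ℓ) {q : Fin d → ℤ} (h1 : ℓ ≤ q I.i₃ ∧ q I.i₃ ≤ ℓ + X.h0) :
    JkS X I q := by
  have hh := X.jk_h0_pos
  have hm := X.hm
  rcases h with ⟨j, -, -, h⟩ | ⟨κ, h2, h3, h⟩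
  · refine ⟨j, ?_, ?_⟩
    · rw [h] at h1; nlinarith
    · rw [h] at h1; nlinarith
  · refine ⟨0, ?_, ?_⟩
    · rw [h] at h1; nlinarith
    · rw [h] at h1; nlinarith

theorem jk_C0 {q : Fin d → ℤ} (h : X.C0 I q) : JkL X I q := by
  obtain ⟨h1, h2, -⟩ := h
  exact ⟨0, Or.inl rfl, by rw [h1]; exact dvd_zero _, by rw [h2, sub_zero]; exact dvd_zero _⟩

theorem jk_F {q : Fin d → ℤ} (h : X.F I q) : JkL X I q := by
  obtain ⟨⟨h1, h2, -⟩, -⟩ := h
  exact ⟨X.s, Or.inr rfl, X.n_dvd_n'.trans h1, X.n_dvd_n'.trans h2⟩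

theorem jk_V {q : Fin d → ℤ} (h : X.V I G q) : JkL X I q ∧
    ∃ g, G g ∧ ∀ j, |q j - g j| ≤ 2 * X.n + X.N := by
  obtain ⟨y, hy0, hy1, ⟨h1, h2, -⟩, -, ⟨g, hg, hg'⟩, -⟩ := h
  have hn := X.n_pos
  have hN := X.N_pos
  have i1 : I.i₁ ≠ I.i₃ := I.h13
  have i2 : I.i₂ ≠ I.i₃ := I.h23
  simp only [if_neg i1, if_neg i2] at h1 h2
  refine ⟨⟨0, Or.inl rfl, h1, h2⟩, g, hg, fun j => ?_⟩
  have h3 := hg' j
  by_cases hj : j = I.i₃
  · simp only [if_pos hj] at h3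
    rw [abs_le] at h3 ⊢
    constructor <;> omega
  · simp only [if_neg hj] at h3
    omega

/-- tall or short -/
def JkT (X : DPar) (I : Dir3 d) (G : (Fin d → ℤ) → Prop) (q : Fin d → ℤ) : Prop :=
  X.C0 I q ∨ X.V I G q ∨ X.F I q

/-- the plates -/
def JkP (X : DPar) (I : Dir3 d) (q : Fin d → ℤ) : Prop :=
  X.PA I q ∨ X.PC I q ∨ ∃ (t : Bool) (k : ℤ), 1 ≤ k ∧ k < X.mm t ∧ X.Rg I t k q

theorem jk_T {q : Fin d → ℤ} (h : JkT X I G q) : JkL X I q := by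
  rcases h with h | h | h
  · exact jk_C0 h
  · exact (jk_V h).1
  · exact jk_F h

theorem jk_class {q : Fin d → ℤ} (h : X.P I G q) :
    JkT X I G q ∨ JkS X I q ∧ (JkP X I q ∨ JkL X I q ∨ JkD X I q) := by
  rcases h with h | h | ⟨t, k, h1, h2, h⟩ | ⟨t, k, h1, h2, h⟩ | h | h | ⟨ℓ, h1, h⟩ | h | h
  · exact Or.inr ⟨(jk_PA h).1, Or.inl (Or.inl h)⟩
  · exact Or.inr ⟨jk_PC h, Or.inl (Or.inr (Or.inl h))⟩
  · exact Or.inr ⟨jk_Rg h1 h2 h, Or.inl (Or.inr (Or.inr ⟨t, k, h1, h2, h⟩))⟩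
  · exact Or.inr ⟨(jk_Qc h1 h2 h).1, Or.inr (Or.inl (jk_Qc h1 h2 h).2)⟩
  · exact Or.inl (Or.inl h)
  · exact Or.inl (Or.inr (Or.inl h))
  · obtain ⟨h2, h3⟩ := jk_Grid dvd_rfl (Or.inl rfl) h
    exact Or.inr ⟨jk_lev h1 h2, Or.inr h3⟩
  · obtain ⟨h2, h3⟩ := jk_Grid X.n_dvd_n' (Or.inr rfl) h
    refine Or.inr ⟨⟨0, ?_, ?_⟩, Or.inr h3⟩
    · have hh := X.jk_h0_pos
      have hm := X.hm
      nlinarith [h2.1]
    · have hh := X.jk_h0_pos
      linarith [h2.2]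
  · exact Or.inl (Or.inr (Or.inr h))

/-- the coordinates of a plate -/
theorem jk_P_le {q : Fin d → ℤ} (h : JkP X I q) (l : Fin d) : |q l| ≤ X.m * X.N + 3 * X.n := by
  obtain ⟨b1, b2, b3, b4, b5, b6, b7, b8, b9⟩ := X.basic
  have hn := X.n_pos
  have hN := X.N_pos
  have hh := X.jk_h0_pos
  rcases h with ⟨h1, h2, h3, h4, h5, h6⟩ | ⟨h1, h2, h3, h4, h5, h6⟩ | ⟨t, k, k1, k2, h1, h2, -, h5, h6⟩
  · by_cases e1 : l = I.i₁
    · rw [e1, abs_le]; constructor <;> omega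
    by_cases e2 : l = I.i₂
    · rw [e2, abs_le]; constructor <;> omega
    by_cases e3 : l = I.i₃
    · rw [e3, h5, abs_zero]; omega
    have := h6 l e1 e2 e3
    omega
  · by_cases e1 : l = I.i₁
    · rw [e1, abs_le]; constructor <;> omega
    by_cases e2 : l = I.i₂
    · rw [e2, abs_le]; constructor <;> omega
    by_cases e3 : l = I.i₃
    · rw [e3, h5, abs_neg, abs_of_pos hh]; omega
    have := h6 l e1 e2 e3
    omega
  · obtain ⟨z1, z2, z3, z4⟩ := X.jk_kap k1 k2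
    have hk : 0 ≤ k * X.N ∧ k * X.N ≤ X.m * X.N :=
      ⟨by positivity, mul_le_mul_of_nonneg_right z4 hN.le⟩
    have hz : X.z t k ≤ 2 * X.n := by
      refine le_trans z2 ?_
      refine le_trans (le_of_eq ?_) b9
      ring
    have hc : 0 ≤ X.cx t k ∧ X.cx t k ≤ X.m * X.N ∧ 0 ≤ X.cy t k ∧ X.cy t k ≤ X.m * X.N := by
      cases t
      · exact ⟨le_rfl, by show (0 : ℤ) ≤ _; omega, hk.1, hk.2⟩
      · exact ⟨hk.1, hk.2, le_rfl, by show (0 : ℤ) ≤ _; omega⟩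
    rw [abs_le] at h1 h2
    by_cases e1 : l = I.i₁
    · rw [e1, abs_le]; constructor <;> omega
    by_cases e2 : l = I.i₂
    · rw [e2, abs_le]; constructor <;> omega
    by_cases e3 : l = I.i₃
    · rw [e3, h5, abs_neg, abs_of_nonneg z1]; omega
    have := h6 l e1 e2 e3
    omega

/-- a tall point against a point of `P` -/
theorem jk_tall {p q : Fin d → ℤ} (hp : JkT X I G p) (hq : X.P I G q)
    (hl : ∀ q', G q' → ∃ l, X.Lg < |p l - q l - q' l|) : X.Jk I (p - q) := by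
  obtain ⟨b1, b2, b3, b4, b5, b6, b7, b8, b9⟩ := X.basic
  have hn := X.n_pos
  have hN := X.N_pos
  have hh := X.jk_h0_pos
  rcases jk_class hq with hq' | ⟨-, hq' | hq' | hq'⟩
  · exact jk_LL (jk_T hp) (jk_T hq')
  · rcases hp with hp | hp | hp
    · -- the long column
      obtain ⟨p1, p2, -⟩ := hp
      rcases hq' with hq' | hq' | ⟨t, k, k1, k2, hq'⟩
      · obtain ⟨h1, h2, h3, h4, -⟩ := hq'
        left
        simp only [Pi.sub_apply]
        refine ⟨⟨0, ?_⟩, 0, ?_⟩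
        · rw [p1, mul_zero, sub_zero, zero_sub, abs_neg, abs_of_nonneg h1]; omega
        · rw [p2, mul_zero, sub_zero, zero_sub, abs_neg, abs_of_nonneg h3]; omega
      · obtain ⟨h1, h2, h3, h4, -⟩ := hq'
        left
        simp only [Pi.sub_apply]
        refine ⟨⟨0, ?_⟩, 0, ?_⟩
        · rw [p1, mul_zero, sub_zero, zero_sub, abs_neg, abs_of_nonneg h1]; omega
        · rw [p2, mul_zero, sub_zero, zero_sub, abs_neg, abs_of_nonneg h3]; omega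
      · refine jk_R ?_ ⟨0, Or.inl rfl, ?_⟩ (jk_Rg_R k1 k2 hq')
        · rw [p1]; exact dvd_zero _
        · rw [p2, sub_zero]; exact dvd_zero _
    · -- the columns of the hard core
      exfalso
      obtain ⟨-, g, hg, hg'⟩ := jk_V hp
      obtain ⟨l, hl⟩ := hl g hg
      have h1 := hg' l
      have h2 := jk_P_le hq' l
      have h3 : X.Lg = X.m * X.N + 2 * X.N := by unfold Lg; ring
      rw [h3] at hl
      have h4 : |p l - q l - g l| ≤ |p l - g l| + |q l| := by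
        have e : p l - q l - g l = (p l - g l) - q l := by ring
        rw [e]; exact abs_sub _ _
      omega
    · -- the clusters
      obtain ⟨⟨p1, p2, -⟩, -, ⟨i, hi⟩, ⟨j, hj⟩, -⟩ := hp
      rcases hq' with hq' | hq' | ⟨t, k, k1, k2, hq'⟩
      · obtain ⟨h1, h2, h3, h4, -⟩ := hq'
        left
        simp only [Pi.sub_apply]
        refine ⟨⟨i, ?_⟩, j, ?_⟩
        · have e : p I.i₁ - q I.i₁ - X.m * X.N * i = (p I.i₁ - X.m * X.N * i) - q I.i₁ := by ring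
          rw [e]
          have := abs_sub (p I.i₁ - X.m * X.N * i) (q I.i₁)
          rw [abs_of_nonneg h1] at this
          omega
        · have e : p I.i₂ - q I.i₂ - (X.m + 1) * X.N * j =
            (p I.i₂ - (X.m + 1) * X.N * j) - q I.i₂ := by ring
          rw [e]
          have := abs_sub (p I.i₂ - (X.m + 1) * X.N * j) (q I.i₂)
          rw [abs_of_nonneg h3] at this
          omega
      · obtain ⟨h1, h2, h3, h4, -⟩ := hq'
        left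
        simp only [Pi.sub_apply]
        refine ⟨⟨i, ?_⟩, j, ?_⟩
        · have e : p I.i₁ - q I.i₁ - X.m * X.N * i = (p I.i₁ - X.m * X.N * i) - q I.i₁ := by ring
          rw [e]
          have := abs_sub (p I.i₁ - X.m * X.N * i) (q I.i₁)
          rw [abs_of_nonneg h1] at this
          omega
        · have e : p I.i₂ - q I.i₂ - (X.m + 1) * X.N * j =
            (p I.i₂ - (X.m + 1) * X.N * j) - q I.i₂ := by ring
          rw [e]
          have := abs_sub (p I.i₂ - (X.m + 1) * X.N * j) (q I.i₂)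
          rw [abs_of_nonneg h3] at this
          omega
      · exact jk_R p1 ⟨X.s, Or.inr rfl, p2⟩ (jk_Rg_R k1 k2 hq')
  · exact jk_LL (jk_T hp) hq'
  · exact jk_LD (jk_T hp) hq'

theorem junk (hok : X.Ok G ρ) {p q : Fin d → ℤ} (hp : X.P I G p) (hq : X.P I G q)
    (hl : ∀ q', G q' → ∃ l, X.Lg < |p l - q l - q' l|) : X.Jk I (p - q) := by
  rcases jk_class hp with hp' | ⟨hp', -⟩
  · exact jk_tall hp' hq hl
  · rcases jk_class hq with hq' | ⟨hq', -⟩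
    · have h : X.Jk I (q - p) := by
        refine jk_tall hq' hp fun q' h' => ?_
        obtain ⟨l, h⟩ := hl (-q') (hok.neg _ h')
        refine ⟨l, ?_⟩
        have e : q l - p l - q' l = -(p l - q l - (-q') l) := by
          simp only [Pi.neg_apply]; ring
        rw [e, abs_neg]; exact h
      have h2 := h.neg
      rwa [neg_sub] at h2
    · exact jk_short hp' hq'

end DPar

end Pool.Agent.RC
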