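import Pool.Agent.Lib.MP_09cbbd_rd.DDef

/-!
# A connected body: the set `P` is finite
-/

set_option autoImplicit false

namespace Pool.Agent.RC

namespace DPar

variable {X : DPar} {d : ℕ} {I : Dir3 d} {G : (Fin d → ℤ) → Prop} {ρ : ℤ}

/-- a bound for all coordinates from the bounds for the three special ones and the others -/
theorem ple_four {p : Fin d → ℤ} {K : ℤ} (h1 : |p I.i₁| ≤ K) (h2 : |p I.i₂| ≤ K)
    (h3 : |p I.i₃| ≤ K) (h4 : O I K p) (l : Fin d) : |p l| ≤ K := by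
  by_cases e1 : l = I.i₁
  · rw [e1]; exact h1
  by_cases e2 : l = I.i₂
  · rw [e2]; exact h2
  by_cases e3 : l = I.i₃
  · rw [e3]; exact h3
  exact h4 l e1 e2 e3

theorem ple_O_mono {p : Fin d → ℤ} {K K' : ℤ} (h : O I K p) (hK : K ≤ K') : O I K' p :=
  fun l a b c => (h l a b c).trans hK

/-- the centres of the windows and the depths of the rings -/
theorem ple_centre {t : Bool} {k : ℤ} (h1 : 1 ≤ k) (h2 : k < X.mm t) :
    |X.cx t k| ≤ X.m * X.N ∧ |X.cy t k| ≤ X.m * X.N ∧ 0 ≤ X.z t k ∧ X.z t k ≤ 2 * X.n := by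
  obtain ⟨b1, b2, b3, b4, b5, b6, b7, b8, b9⟩ := X.basic
  have hN := X.N_pos
  have hh : 0 < X.h0 := by omega
  cases t
  · have hk : k ≤ X.m := by
      have : X.mm false = X.m + 1 := rfl
      omega
    have e1 : X.cx false k = 0 := rfl
    have e2 : X.cy false k = k * X.N := rfl
    have e3 : X.z false k = 3 * X.h0 * (2 * k + 1) := rfl
    rw [e1, e2, e3]
    refine ⟨by simp; nlinarith, ?_, by positivity, ?_⟩
    · rw [abs_of_nonneg (by positivity)]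
      exact mul_le_mul_of_nonneg_right hk hN.le
    · refine le_trans ?_ b9
      exact mul_le_mul_of_nonneg_left (by omega) (by positivity)
  · have hk : k ≤ X.m := by
      have : X.mm true = X.m := rfl
      omega
    have e1 : X.cx true k = k * X.N := rfl
    have e2 : X.cy true k = 0 := rfl
    have e3 : X.z true k = 3 * X.h0 * (2 * k + 0) := rfl
    rw [e1, e2, e3]
    refine ⟨?_, by simp; nlinarith, by positivity, ?_⟩
    · rw [abs_of_nonneg (by positivity)]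
      exact mul_le_mul_of_nonneg_right hk hN.le
    · refine le_trans ?_ b9
      exact mul_le_mul_of_nonneg_left (by omega) (by positivity)

/-- the heights of the grids -/
theorem ple_lev {ℓ : ℤ} (h : X.lev ℓ) : -(2 * X.n) ≤ ℓ ∧ (ℓ ≤ X.ρ₂ + 2 * X.N + 3 * X.h0 ∨ ℓ ≤ 0) := by
  obtain ⟨b1, b2, b3, b4, b5, b6, b7, b8, b9⟩ := X.basic
  have hN := X.N_pos
  have hn := X.n_pos
  have hh : 0 < X.h0 := by omega
  rcases h with ⟨j, h1, h2, rfl⟩ | ⟨κ, h1, h2, rfl⟩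
  · have h3 : 0 ≤ j * X.N := by positivity
    exact ⟨by omega, Or.inl (by omega)⟩
  · have h4 : 3 * X.h0 * κ ≤ 3 * X.h0 * (2 * X.m + 1) :=
      mul_le_mul_of_nonneg_left h2 (by positivity)
    have h5 : 3 * X.h0 * 2 ≤ 3 * X.h0 * κ := mul_le_mul_of_nonneg_left h1 (by positivity)
    exact ⟨by omega, Or.inr (by omega)⟩

theorem P_le (hok : X.Ok G ρ) {p : Fin d → ℤ} (hp : X.P I G p) (l : Fin d) :
    |p l| ≤ X.ρ₂ + 5 * X.N := by
  obtain ⟨b1, b2, b3, b4, b5, b6, b7, b8, b9⟩ := X.basic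
  have hN := X.N_pos
  have hn := X.n_pos
  have hh : 0 < X.h0 := by omega
  have hρ := hok.hρ
  have hρρ := hok.hρρ
  have hB := hok.hB
  have hB' := hok.hB'
  have hLg : X.Lg = X.m * X.N + 2 * X.N := by unfold Lg; ring
  rcases hp with h | h | ⟨t, k, hk, hkm, h⟩ | ⟨t, k, hk, hkm, h⟩ | h | h | ⟨ℓ, hℓ, h⟩ | h | h
  · obtain ⟨h1, h2, h3, h4, h5, h6⟩ := h
    refine ple_four (I := I) ?_ ?_ ?_ (ple_O_mono h6 (by omega)) l <;> rw [abs_le] <;> omega
  · obtain ⟨h1, h2, h3, h4, h5, h6⟩ := h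
    refine ple_four (I := I) ?_ ?_ ?_ (ple_O_mono h6 (by omega)) l <;> rw [abs_le] <;> omega
  · obtain ⟨h1, h2, h3, h4, h5⟩ := h
    obtain ⟨c1, c2, c3, c4⟩ := ple_centre hk hkm
    rw [abs_le] at h1 h2 c1 c2
    refine ple_four (I := I) ?_ ?_ ?_ (ple_O_mono h5 (by omega)) l <;> rw [abs_le] <;> omega
  · obtain ⟨-, h1, h2, h3, h4, h5, h6, h7⟩ := h
    obtain ⟨c1, c2, c3, c4⟩ := ple_centre hk hkm
    rw [abs_le] at c1 c2
    refine ple_four (I := I) ?_ ?_ ?_ (ple_O_mono h7 (by omega)) l <;> rw [abs_le] <;> omega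
  · obtain ⟨h1, h2, h3, h4, h5⟩ := h
    refine ple_four (I := I) ?_ ?_ ?_ (ple_O_mono h5 (by omega)) l <;> rw [abs_le] <;> omega
  · obtain ⟨y, hy, hyN, h1, h2, ⟨q', hq', h3⟩, h4⟩ := h
    have h5 := h3 l
    have h6 := hok.bdd q' hq' l
    simp only at h5
    rw [abs_le] at h5 h6 ⊢
    by_cases e : l = I.i₃
    · rw [if_pos e] at h5; omega
    · rw [if_neg e] at h5; omega
  · obtain ⟨⟨g1, g2, g3⟩, h⟩ := h
    obtain ⟨u1, u2⟩ := ple_lev hℓ
    rw [abs_le] at g1 g2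
    refine ple_four (I := I) ?_ ?_ ?_ (ple_O_mono g3 (by omega)) l
    · rw [abs_le]; omega
    · rw [abs_le]; omega
    · rw [abs_le]
      rcases h with ⟨-, h⟩ | ⟨-, h⟩ | ⟨-, h, h'⟩ <;> omega
  · obtain ⟨⟨g1, g2, g3⟩, h⟩ := h
    rw [abs_le] at g1 g2
    refine ple_four (I := I) ?_ ?_ ?_ (ple_O_mono g3 (by omega)) l
    · rw [abs_le]; omega
    · rw [abs_le]; omega
    · rw [abs_le]
      rcases h with ⟨-, h⟩ | ⟨-, h⟩ | ⟨-, h, h'⟩ <;> omega
  · obtain ⟨-, ⟨g1, g2, g3⟩, -, -, h, h'⟩ := h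
    rw [abs_le] at g1 g2
    refine ple_four (I := I) ?_ ?_ ?_ (ple_O_mono g3 (by omega)) l <;> rw [abs_le] <;> omega

theorem P_finite (hok : X.Ok G ρ) : {p : Fin d → ℤ | X.P I G p}.Finite := by
  refine (Set.Finite.pi' (t := fun _ : Fin d =>
    Set.Icc (-(X.ρ₂ + 5 * X.N)) (X.ρ₂ + 5 * X.N)) (fun _ => Set.finite_Icc _ _)).subset ?_
  intro p hp i
  exact abs_le.1 (P_le hok hp i)

theorem P_zero : X.P I G 0 := by
  have hn := X.n_pos
  refine Or.inl ⟨by simp, by simp; omega, by simp, by simp; omega, by simp, ?_⟩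
  intro l _ _ _
  simp

end DPar

end Pool.Agent.RC
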