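import Pool.Agent.Lib.MP_09cbbd_rd.DDef
import Pool.Agent.Lib.MP_09cbbd_rc.Thin
import Pool.Agent.Lib.MP_09cbbd_rc.Mov

/-!
# A connected body: the thin sets
-/

set_option autoImplicit false

namespace Pool.Agent.RC

open MeasureTheory

theorem thin_Nr_gen {p h ρ : ℝ} (hp : 0 < p) (hph : p ≤ h) (hρ : 0 ≤ ρ) :
    Thin h (4 * ρ / p) {x : ℝ | Nr p ρ x} := by
  refine ⟨measurableSet_Nr p ρ, fun x => ?_⟩
  have h0 : 0 < h := hp.trans_le hph
  have h1 := Thin.multi hp.le (by positivity) (thin_Nr (r := ρ) hp) ⌈h / p⌉₊ x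
  have h2 : h / p ≤ (⌈h / p⌉₊ : ℝ) := Nat.le_ceil _
  have h3 : (⌈h / p⌉₊ : ℝ) < h / p + 1 := Nat.ceil_lt_add_one (by positivity)
  have h4 : 1 ≤ h / p := by rw [le_div_iff₀ hp]; linarith
  have h5 : x + h ≤ x + (⌈h / p⌉₊ : ℝ) * p := by
    have := (div_le_iff₀ hp).1 h2
    linarith
  refine (measure_mono (Set.inter_subset_inter_right _ (Set.Ico_subset_Ico_right h5))).trans
    (h1.trans (ENNReal.ofReal_le_ofReal ?_))
  have e1 : 2 * ρ / p * p = 2 * ρ := div_mul_cancel₀ _ hp.ne'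
  have e2 : 4 * ρ / p * h = (2 * (h / p)) * (2 * ρ) := by field_simp; ring
  rw [e1, e2]
  exact mul_le_mul_of_nonneg_right (by linarith) (by positivity)

theorem Thin.shift {h ε : ℝ} {J : Set ℝ} (hJ : Thin h ε J) (v : ℝ) :
    Thin h ε {x | x - v ∈ J} := by
  refine ⟨(measurable_id.sub_const v) hJ.meas, fun x => ?_⟩
  have e : {x | x - v ∈ J} ∩ Set.Ico x (x + h) =
      (fun y => y - v) ⁻¹' (J ∩ Set.Ico (x - v) (x - v + h)) := by
    ext y
    simp only [Set.mem_inter_iff, Set.mem_ofPred_eq, Set.mem_Ico, Set.mem_preimage]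
    constructor
    · rintro ⟨h1, h2, h3⟩
      exact ⟨h1, by linarith, by linarith⟩
    · rintro ⟨h1, h2, h3⟩
      exact ⟨h1, by linarith, by linarith⟩
  rw [e, (measurePreserving_sub_right volume v).measure_preimage
    ((hJ.meas.inter measurableSet_Ico).nullMeasurableSet)]
  exact hJ.vol (x - v)

namespace DPar

variable {X : DPar} {d : ℕ} {I : Dir3 d} {G : (Fin d → ℤ) → Prop} {ρ : ℤ}

/-- the numbers as reals -/
theorem realnum (X : DPar) : (1 : ℝ) ≤ X.c ∧ (24 : ℝ) ≤ X.n ∧ (X.n' : ℝ) = X.c * X.n ∧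
    (60 : ℝ) * X.n' ≤ X.N ∧ (X.w0 : ℝ) ≤ 2 * X.n := by
  have h1 := X.basic
  have h2 := X.hc
  have h3 : 24 ≤ X.n := by omega
  have h4 : X.w0 ≤ 2 * X.n := by
    have h5 := X.hm
    have h6 := X.hs
    have h7 := X.hb
    unfold w0 n r h0
    nlinarith
  refine ⟨by exact_mod_cast h2, by exact_mod_cast h3, by unfold n'; push_cast; ring, ?_,
    by exact_mod_cast h4⟩
  have h5 : 60 * X.n' ≤ X.N := by omega
  exact_mod_cast h5

/-- the thin set of one family of translates -/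
theorem thin_one {δ h : ℝ} (hδ : 0 < δ) (hh : δ * X.n' ≤ h) (w v : ℝ) (hw : 0 ≤ w) :
    Thin h (4 * w / X.n) {x : ℝ | Nr (δ * X.n) (w * δ) (x - v)} := by
  obtain ⟨h1, h2, h3, -, -⟩ := X.realnum
  have hn : (0 : ℝ) < X.n := by linarith
  have h4 : δ * X.n ≤ h := by
    refine le_trans ?_ hh
    rw [h3]
    have : (X.n : ℝ) ≤ X.c * X.n := by nlinarith
    exact mul_le_mul_of_nonneg_left this hδ.le
  have h5 := thin_Nr_gen (ρ := w * δ) (mul_pos hδ hn) h4 (by positivity)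
  have e : 4 * (w * δ) / (δ * X.n) = 4 * w / X.n := by field_simp
  rw [e] at h5
  exact h5.shift v

theorem thin_three {δ h : ℝ} (hδ : 0 < δ) (hh : δ * X.n' ≤ h) (w v : ℝ) (hw : 0 ≤ w) :
    ∃ J : Set ℝ, Thin h (12 * w / X.n) J ∧ ∀ (x : ℝ) (o : ℤ), (o = 0 ∨ o = X.s ∨ o = -X.s) →
      ∀ i : ℤ, |x - v - δ * o - i * (δ * X.n)| ≤ w * δ → x ∈ J := by
  obtain ⟨h1, h2, h3, -, -⟩ := X.realnum
  have hn : (0 : ℝ) < X.n := by linarith
  have hp : 0 < h := lt_of_lt_of_le (by rw [h3]; positivity) hh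
  have h0 : 0 ≤ 4 * w / X.n := by positivity
  refine ⟨{x : ℝ | Nr (δ * X.n) (w * δ) (x - (v + δ * (0 : ℤ)))} ∪
    ({x : ℝ | Nr (δ * X.n) (w * δ) (x - (v + δ * X.s))} ∪
      {x : ℝ | Nr (δ * X.n) (w * δ) (x - (v + δ * (-X.s : ℤ)))}), ?_, ?_⟩
  · have e : 12 * w / X.n = 4 * w / X.n + (4 * w / X.n + 4 * w / X.n) := by ring
    rw [e]
    exact Thin.union hp.le h0 (add_nonneg h0 h0) (thin_one hδ hh w _ hw)
      (Thin.union hp.le h0 h0 (thin_one hδ hh w _ hw) (thin_one hδ hh w _ hw))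
  · intro x o ho i hi
    have h4 : Nr (δ * X.n) (w * δ) (x - (v + δ * o)) := ⟨i, by
      rw [show x - (v + δ * o) - i * (δ * X.n) = x - v - δ * o - i * (δ * X.n) by ring]
      exact hi⟩
    rcases ho with rfl | rfl | rfl
    · exact Or.inl h4
    · exact Or.inr (Or.inl h4)
    · exact Or.inr (Or.inr h4)

theorem thin_JJ {δ h : ℝ} (hδ : 0 < δ) (hh : δ * X.n' ≤ h) (t : ℝ) :
    ∃ J : Set ℝ, Thin h (28 / X.c + 144 / X.n) J ∧
      ∀ z y : ℤ, X.JJ z y → |t - δ * y| ≤ 2 * δ → ∀ x : ℝ, |x - δ * z| ≤ 2 * δ → x ∈ J := by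
  obtain ⟨h1, h2, h3, -, -⟩ := X.realnum
  have hn : (0 : ℝ) < X.n := by linarith
  have hc : (0 : ℝ) < X.c := by linarith
  have hn' : (0 : ℝ) < X.n' := by rw [h3]; positivity
  have hp : 0 < h := lt_of_lt_of_le (by positivity) hh
  obtain ⟨J1, hJ1, hm1⟩ := thin_three (X := X) hδ hh 2 0 (by norm_num)
  obtain ⟨J2, hJ2, hm2⟩ := thin_three (X := X) hδ hh 5 t (by norm_num)
  obtain ⟨J3, hJ3, hm3⟩ := thin_three (X := X) hδ hh 5 (-t) (by norm_num)
  have h4 := thin_Nr_gen (p := δ * X.n') (h := h) (ρ := (5 * X.n + 2) * δ) (by positivity) hh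
    (by positivity)
  have e4 : 4 * ((5 * X.n + 2) * δ) / (δ * X.n') = 4 * (5 * X.n + 2) / X.n' := by field_simp
  rw [e4] at h4
  have h5 : 4 * (5 * (X.n : ℝ) + 2) / X.n' ≤ 28 / X.c := by
    rw [h3, div_le_div_iff₀ (by positivity) hc]
    nlinarith
  have h6 : Thin h (28 / X.c) {x : ℝ | Nr (δ * X.n') ((5 * X.n + 2) * δ) x} := h4.mono hp.le h5
  refine ⟨{x : ℝ | Nr (δ * X.n') ((5 * X.n + 2) * δ) x} ∪ (J1 ∪ (J2 ∪ J3)), ?_, ?_⟩
  · have e : 28 / (X.c : ℝ) + 144 / X.n =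
        28 / X.c + (12 * 2 / X.n + (12 * 5 / X.n + 12 * 5 / X.n)) := by ring
    rw [e]
    exact Thin.union hp.le (by positivity) (by positivity) h6
      (Thin.union hp.le (by positivity) (by positivity) hJ1
        (Thin.union hp.le (by positivity) (by positivity) hJ2 hJ3))
  · rintro z y hz hy x hx
    have hy' := abs_le.1 hy
    have hx' := abs_le.1 hx
    rcases hz with ⟨j, hj⟩ | ⟨o, ho, hz⟩
    · left
      refine ⟨j, ?_⟩
      have h7 : |(z : ℝ) - X.n' * j| ≤ 5 * X.n := by exact_mod_cast hj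
      have h8 := abs_le.1 h7
      have h9 := mul_le_mul_of_nonneg_left h8.1 hδ.le
      have h10 := mul_le_mul_of_nonneg_left h8.2 hδ.le
      rw [abs_le]
      constructor
      · nlinarith [hx'.1]
      · nlinarith [hx'.2]
    · right
      rcases hz with ⟨i, hi⟩ | ⟨e, he, ⟨i, hi⟩ | ⟨i, hi⟩⟩
      · left
        refine hm1 x o ho i ?_
        have e1 : (z : ℝ) - o = X.n * i := by exact_mod_cast hi
        have e2 : x - 0 - δ * o - i * (δ * X.n) = x - δ * z := by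
          have : (z : ℝ) = o + X.n * i := by linarith
          rw [this]; ring
        rw [e2]
        exact hx
      · right; left
        refine hm2 x o ho i ?_
        have e1 : (z : ℝ) - y - o - e = X.n * i := by exact_mod_cast hi
        have h7 : |(e : ℝ)| ≤ 1 := by exact_mod_cast he
        have h8 := abs_le.1 h7
        have e2 : x - t - δ * o - i * (δ * X.n) = (x - δ * z) - (t - δ * y) + δ * e := by
          have : (z : ℝ) = y + o + e + X.n * i := by linarith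
          rw [this]; ring
        have h9 := mul_le_mul_of_nonneg_left h8.1 hδ.le
        have h10 := mul_le_mul_of_nonneg_left h8.2 hδ.le
        rw [e2, abs_le]
        constructor
        · linarith [hx'.1, hy'.2]
        · linarith [hx'.2, hy'.1]
      · right; right
        refine hm3 x o ho i ?_
        have e1 : (z : ℝ) + y - o - e = X.n * i := by exact_mod_cast hi
        have h7 : |(e : ℝ)| ≤ 1 := by exact_mod_cast he
        have h8 := abs_le.1 h7
        have e2 : x - -t - δ * o - i * (δ * X.n) = (x - δ * z) + (t - δ * y) + δ * e := by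
          have : (z : ℝ) = -y + o + e + X.n * i := by linarith
          rw [this]; ring
        have h9 := mul_le_mul_of_nonneg_left h8.1 hδ.le
        have h10 := mul_le_mul_of_nonneg_left h8.2 hδ.le
        rw [e2, abs_le]
        constructor
        · linarith [hx'.1, hy'.1]
        · linarith [hx'.2, hy'.2]

theorem thin_slab {δ : ℝ} (hδ : 0 < δ) :
    ∃ J : Set ℝ, Thin (δ * X.N) (28 / X.c) J ∧
      ∀ z : ℤ, (∃ j : ℤ, |z - X.N * j| ≤ X.w0) → ∀ x : ℝ, |x - δ * z| ≤ 2 * δ → x ∈ J := by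
  obtain ⟨h1, h2, h3, hN, hw⟩ := X.realnum
  have hn : (0 : ℝ) < X.n := by linarith
  have hc : (0 : ℝ) < X.c := by linarith
  have hn' : (0 : ℝ) < X.n' := by rw [h3]; positivity
  have hN0 : (0 : ℝ) < X.N := by linarith
  have h4 := thin_Nr (p := δ * X.N) (r := (2 * X.n + 2) * δ) (by positivity)
  have e4 : 2 * ((2 * X.n + 2) * δ) / (δ * X.N) = 2 * (2 * X.n + 2) / X.N := by field_simp
  rw [e4] at h4
  have h5 : 2 * (2 * (X.n : ℝ) + 2) / X.N ≤ 28 / X.c := by
    rw [div_le_div_iff₀ hN0 hc]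
    have : 28 * (60 * (X.c * X.n)) ≤ 28 * (X.N : ℝ) := by rw [← h3]; linarith
    nlinarith
  refine ⟨_, h4.mono (by positivity) h5, ?_⟩
  rintro z ⟨j, hj⟩ x hx
  refine ⟨j, ?_⟩
  have h7 : |(z : ℝ) - X.N * j| ≤ X.w0 := by exact_mod_cast hj
  have h8 := abs_le.1 h7
  have h9 := mul_le_mul_of_nonneg_left h8.1 hδ.le
  have h10 := mul_le_mul_of_nonneg_left h8.2 hδ.le
  have h11 := mul_le_mul_of_nonneg_left hw hδ.le
  have hx' := abs_le.1 hx
  rw [abs_le]
  constructor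
  · nlinarith [hx'.1]
  · nlinarith [hx'.2]

end DPar

end Pool.Agent.RC
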