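import Pool.Agent.Lib.MP_09cbbd_rd.DDef

/-!
# A connected body in dimension at least three: the differences avoid the windows
-/

set_option autoImplicit false

namespace Pool.Agent.RC

namespace DPar

variable {X : DPar} {d : ℕ} {I : Dir3 d} {G : (Fin d → ℤ) → Prop} {ρ : ℤ}

theorem cx_neg (t : Bool) (k : ℤ) : X.cx t (-k) = -X.cx t k := by
  cases t
  · show (0 : ℤ) = -0
    rfl
  · show -k * X.N = -(k * X.N)
    ring

theorem cy_neg (t : Bool) (k : ℤ) : X.cy t (-k) = -X.cy t k := by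
  cases t
  · show -k * X.N = -(k * X.N)
    ring
  · show (0 : ℤ) = -0
    rfl

theorem O_neg {K : ℤ} {x : Fin d → ℤ} (h : O I K x) : O I K (-x) := fun l h1 h2 h3 => by
  rw [Pi.neg_apply, abs_neg]
  exact h l h1 h2 h3

theorem W_neg {x : Fin d → ℤ} (h : X.W I x) : X.W I (-x) := by
  obtain ⟨t, k, h1, h2, h3, h4, h5, h6⟩ := h
  refine ⟨t, -k, by rwa [abs_neg], by rwa [abs_neg], ?_, ?_, ?_, O_neg h6⟩
  · rw [Pi.neg_apply, cx_neg, show -x I.i₁ - -X.cx t k = -(x I.i₁ - X.cx t k) by ring, abs_neg]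
    exact h3
  · rw [Pi.neg_apply, cy_neg, show -x I.i₂ - -X.cy t k = -(x I.i₂ - X.cy t k) by ring, abs_neg]
    exact h4
  · rw [Pi.neg_apply, abs_neg]
    exact h5

theorem W_comm {p q : Fin d → ℤ} (h : X.W I (p - q)) : X.W I (q - p) := by
  have := W_neg h
  rwa [neg_sub] at this

theorem mm_le (t : Bool) : X.mm t ≤ X.m + 1 := by
  cases t
  · exact le_rfl
  · show X.m ≤ X.m + 1
    omega

theorem kN_cases {k : ℤ} (h : 1 ≤ |k|) : X.N ≤ k * X.N ∨ k * X.N ≤ -X.N := by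
  have hN := X.N_pos
  rcases le_abs.1 h with h1 | h1
  · left
    calc X.N = 1 * X.N := (one_mul _).symm
      _ ≤ k * X.N := mul_le_mul_of_nonneg_right h1 hN.le
  · right
    have h2 : 1 * X.N ≤ -k * X.N := mul_le_mul_of_nonneg_right h1 hN.le
    have h3 : -k * X.N = -(k * X.N) := by ring
    omega

/-- The windows are far from the origin, in height zero. -/
theorem W_far {x : Fin d → ℤ} (h : X.W I x) : |x I.i₃| ≤ X.b ∧
    (X.N - X.b ≤ |x I.i₁| ∨ X.N - X.b ≤ |x I.i₂|) := by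
  obtain ⟨t, k, h1, h2, h3, h4, h5, h6⟩ := h
  have hbb := X.bb_le t
  refine ⟨h5.trans hbb, ?_⟩
  have hk := X.kN_cases h1
  cases t
  · right
    change |x I.i₂ - k * X.N| ≤ _ at h4
    rw [abs_le] at h4
    rcases hk with hk | hk
    · exact le_trans (by omega) (le_abs_self _)
    · exact le_trans (by omega) (neg_le_abs _)
  · left
    change |x I.i₁ - k * X.N| ≤ _ at h3
    rw [abs_le] at h3
    rcases hk with hk | hk
    · exact le_trans (by omega) (le_abs_self _)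
    · exact le_trans (by omega) (neg_le_abs _)

/-! ### The two classes of the columns and lines -/

/-- on the lines of direction `(1, 1)` -/
def T1 (X : DPar) (I : Dir3 d) (q : Fin d → ℤ) : Prop := ∃ o e : ℤ, (o = 0 ∨ o = X.s) ∧
  (e = 0 ∨ e = 1) ∧ X.n ∣ q I.i₁ - (q I.i₂ - o) - e

/-- on the lines of direction `(1, -1)` -/
def T2 (X : DPar) (I : Dir3 d) (q : Fin d → ℤ) : Prop := ∃ o e : ℤ, (o = 0 ∨ o = X.s) ∧
  (e = 0 ∨ e = 1) ∧ X.n ∣ q I.i₁ + (q I.i₂ - o) - e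

/-- The arithmetic of the classes. -/
theorem not_dvd_of {k u o e : ℤ} (h1 : 1 ≤ |k|) (h2 : |k| < X.m + 1) (hu : |u| ≤ 2 * X.b)
    (ho : o = 0 ∨ o = X.s ∨ o = -X.s) (he : |e| ≤ 1) : ¬ X.n ∣ k * X.N + u - o - e := by
  intro h
  have hs := X.hs
  have hb := X.hb
  have hr : X.r = 2 * X.s := rfl
  rw [abs_le] at hu he
  -- modulo `r`
  have h3 : X.r ∣ u - o - e := by
    have h4 : X.r ∣ k * X.N + u - o - e := X.r_dvd_n.trans h
    have h5 : X.r ∣ k * X.N := X.r_dvd_N.mul_left k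
    have h6 := dvd_sub h4 h5
    rwa [show k * X.N + u - o - e - k * X.N = u - o - e by ring] at h6
  have h4 : u - o - e = 0 := by
    refine Int.eq_zero_of_abs_lt_dvd h3 ?_
    rw [abs_lt]
    rcases ho with rfl | rfl | rfl <;> omega
  have h5 : X.n ∣ k * X.N := by
    rwa [show k * X.N + u - o - e = k * X.N + (u - o - e) by ring, h4, add_zero] at h
  have h6 : X.n ∣ k * X.r := by
    have h7 := dvd_sub h5 ((X.n_dvd_N_sub).mul_left k)
    rwa [show k * X.N - k * (X.N - X.r) = k * X.r by ring] at h7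
  have h7 : X.m + 1 ∣ k := by
    have h8 : (X.m + 1) * X.r ∣ k * X.r := h6
    exact Int.dvd_of_mul_dvd_mul_right X.r_pos.ne' h8
  have h8 := Int.eq_zero_of_abs_lt_dvd h7 h2
  rw [h8, abs_zero] at h1
  omega

theorem T1_avoid {p q : Fin d → ℤ} (hp : T1 X I p) (hq : T1 X I q) : ¬ X.W I (p - q) := by
  rintro ⟨t, k, h1, h2, h3, h4, -, -⟩
  obtain ⟨o, e, ho, he, hd⟩ := hp
  obtain ⟨o', e', ho', he', hd'⟩ := hq
  have hb := X.hb
  have hbb := X.bb_le t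
  have hd2 := dvd_sub hd hd'
  have hk : |k| < X.m + 1 := lt_of_lt_of_le h2 (mm_le t)
  have hoo : o' - o = 0 ∨ o' - o = X.s ∨ o' - o = -X.s := by omega
  have hee : |e - e'| ≤ 1 := by rw [abs_le]; omega
  rw [Pi.sub_apply] at h3 h4
  rw [abs_le] at h3 h4
  cases t
  · change _ ≤ p I.i₁ - q I.i₁ - 0 ∧ p I.i₁ - q I.i₁ - 0 ≤ _ at h3
    change _ ≤ p I.i₂ - q I.i₂ - k * X.N ∧ p I.i₂ - q I.i₂ - k * X.N ≤ _ at h4
    refine not_dvd_of (k := -k) (u := p I.i₁ - q I.i₁ - (p I.i₂ - q I.i₂ - k * X.N))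
      (by rwa [abs_neg]) (by rwa [abs_neg]) (by rw [abs_le]; omega) hoo hee ?_
    rw [show -k * X.N + (p I.i₁ - q I.i₁ - (p I.i₂ - q I.i₂ - k * X.N)) - (o' - o) - (e - e') =
      p I.i₁ - (p I.i₂ - o) - e - (q I.i₁ - (q I.i₂ - o') - e') by ring]
    exact hd2
  · change _ ≤ p I.i₁ - q I.i₁ - k * X.N ∧ p I.i₁ - q I.i₁ - k * X.N ≤ _ at h3
    change _ ≤ p I.i₂ - q I.i₂ - 0 ∧ p I.i₂ - q I.i₂ - 0 ≤ _ at h4
    refine not_dvd_of (k := k) (u := p I.i₁ - q I.i₁ - k * X.N - (p I.i₂ - q I.i₂))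
      h1 hk (by rw [abs_le]; omega) hoo hee ?_
    rw [show k * X.N + (p I.i₁ - q I.i₁ - k * X.N - (p I.i₂ - q I.i₂)) - (o' - o) - (e - e') =
      p I.i₁ - (p I.i₂ - o) - e - (q I.i₁ - (q I.i₂ - o') - e') by ring]
    exact hd2

theorem T2_avoid {p q : Fin d → ℤ} (hp : T2 X I p) (hq : T2 X I q) : ¬ X.W I (p - q) := by
  rintro ⟨t, k, h1, h2, h3, h4, -, -⟩
  obtain ⟨o, e, ho, he, hd⟩ := hp
  obtain ⟨o', e', ho', he', hd'⟩ := hq
  have hb := X.hb
  have hbb := X.bb_le t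
  have hd2 := dvd_sub hd hd'
  have hk : |k| < X.m + 1 := lt_of_lt_of_le h2 (mm_le t)
  have hoo : o - o' = 0 ∨ o - o' = X.s ∨ o - o' = -X.s := by omega
  have hee : |e - e'| ≤ 1 := by rw [abs_le]; omega
  rw [Pi.sub_apply] at h3 h4
  rw [abs_le] at h3 h4
  cases t
  · change _ ≤ p I.i₁ - q I.i₁ - 0 ∧ p I.i₁ - q I.i₁ - 0 ≤ _ at h3
    change _ ≤ p I.i₂ - q I.i₂ - k * X.N ∧ p I.i₂ - q I.i₂ - k * X.N ≤ _ at h4
    refine not_dvd_of (k := k) (u := p I.i₁ - q I.i₁ + (p I.i₂ - q I.i₂ - k * X.N))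
      h1 hk (by rw [abs_le]; omega) hoo hee ?_
    rw [show k * X.N + (p I.i₁ - q I.i₁ + (p I.i₂ - q I.i₂ - k * X.N)) - (o - o') - (e - e') =
      p I.i₁ + (p I.i₂ - o) - e - (q I.i₁ + (q I.i₂ - o') - e') by ring]
    exact hd2
  · change _ ≤ p I.i₁ - q I.i₁ - k * X.N ∧ p I.i₁ - q I.i₁ - k * X.N ≤ _ at h3
    change _ ≤ p I.i₂ - q I.i₂ - 0 ∧ p I.i₂ - q I.i₂ - 0 ≤ _ at h4
    refine not_dvd_of (k := k) (u := p I.i₁ - q I.i₁ - k * X.N + (p I.i₂ - q I.i₂))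
      h1 hk (by rw [abs_le]; omega) hoo hee ?_
    rw [show k * X.N + (p I.i₁ - q I.i₁ - k * X.N + (p I.i₂ - q I.i₂)) - (o - o') - (e - e') =
      p I.i₁ + (p I.i₂ - o) - e - (q I.i₁ + (q I.i₂ - o') - e') by ring]
    exact hd2

theorem Lat_n {q : Fin d → ℤ} (h : Lat I X.n 0 q) : T1 X I q ∧ T2 X I q := by
  obtain ⟨h1, h2, h3⟩ := h
  refine ⟨⟨0, 0, Or.inl rfl, Or.inl rfl, ?_⟩, ⟨0, 0, Or.inl rfl, Or.inl rfl, ?_⟩⟩
  · rw [sub_zero (_ - _)]
    exact dvd_sub h1 h2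
  · rw [sub_zero (_ + _)]
    exact dvd_add h1 h2

theorem Lat_n' {q : Fin d → ℤ} (h : Lat I X.n' X.s q) : T1 X I q ∧ T2 X I q := by
  obtain ⟨h1, h2, h3⟩ := h
  refine ⟨⟨X.s, 0, Or.inr rfl, Or.inl rfl, ?_⟩, ⟨X.s, 0, Or.inr rfl, Or.inl rfl, ?_⟩⟩
  · rw [sub_zero (_ - _)]
    exact X.n_dvd_n'.trans (dvd_sub h1 h2)
  · rw [sub_zero (_ + _)]
    exact X.n_dvd_n'.trans (dvd_add h1 h2)

theorem C0_T {q : Fin d → ℤ} (h : X.C0 I q) : T1 X I q ∧ T2 X I q := by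
  refine Lat_n ⟨?_, ?_, ?_⟩
  · rw [h.1]
    exact dvd_zero _
  · rw [h.2.1]
    exact dvd_zero _
  · rw [h.1, h.2.1]
    exact dvd_zero _

theorem V_T {q : Fin d → ℤ} (h : X.V I G q) : T1 X I q ∧ T2 X I q := by
  obtain ⟨y, -, -, h0⟩ := h
  refine Lat_n ?_
  have h1 := h0.1
  unfold Lat at h1 ⊢
  simp only [if_neg I.h13, if_neg I.h23] at h1
  exact h1

/-- the levels of all grids -/
def levA (X : DPar) (ℓ : ℤ) : Prop := X.lev ℓ ∨ ℓ = X.h0

/-- The grids of both kinds. -/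
theorem grid_T {p o ℓ : ℤ} (hp : X.n ∣ p) (ho : o = 0 ∨ o = X.s) {q : Fin d → ℤ}
    (h : X.Grid I p o ℓ q) : (T1 X I q ∧ T2 X I q) ∨ (T1 X I q ∧ q I.i₃ = ℓ) ∨
      (T2 X I q ∧ q I.i₃ = ℓ + X.h0) := by
  have hp2 : X.n ∣ 2 * p := hp.mul_left 2
  rcases h.2 with ⟨⟨e, he, h1⟩, h2⟩ | ⟨⟨e, he, h1⟩, h2⟩ | ⟨⟨h1, h2, h3⟩, -⟩
  · exact Or.inr (Or.inl ⟨⟨o, e, ho, he, hp2.trans h1⟩, h2⟩)
  · exact Or.inr (Or.inr ⟨⟨o, e, ho, he, hp2.trans h1⟩, h2⟩)
  · refine Or.inl ⟨⟨o, 0, ho, Or.inl rfl, ?_⟩, ⟨o, 0, ho, Or.inl rfl, ?_⟩⟩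
    · rw [sub_zero (_ - _)]
      exact hp.trans (dvd_sub h1 h2)
    · rw [sub_zero (_ + _)]
      exact hp.trans (dvd_add h1 h2)

/-- Different levels. -/
theorem lev_sep {ℓ ℓ' : ℤ} (h : levA X ℓ) (h' : levA X ℓ') : X.h0 ≤ |ℓ - (ℓ' + X.h0)| := by
  obtain ⟨b1, b2, b3, b4, b5, b6, b7, b8, b9⟩ := X.basic
  have hN := X.N_pos
  have form : ∀ l, levA X l → (∃ j : ℤ, 0 ≤ j ∧ l = j * X.N + 3 * X.h0) ∨
      (∃ a : ℤ, a ≤ 0 ∧ l = 3 * (X.h0 * a) + X.h0) := by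
    rintro l ((⟨j, hj, -, rfl⟩ | ⟨κ, hκ, -, rfl⟩) | rfl)
    · exact Or.inl ⟨j, hj, rfl⟩
    · exact Or.inr ⟨-κ, by omega, by ring⟩
    · exact Or.inr ⟨0, le_rfl, by ring⟩
  have hmul : ∀ a : ℤ, a ≤ 0 → X.h0 * a ≤ 0 := fun a ha =>
    mul_nonpos_of_nonneg_of_nonpos (by omega) ha
  rcases form ℓ h with ⟨j, hj, rfl⟩ | ⟨a, ha, rfl⟩ <;>
    rcases form ℓ' h' with ⟨j', hj', rfl⟩ | ⟨a', ha', rfl⟩
  · rcases lt_trichotomy j j' with h1 | h1 | h1
    · have h2 : (j + 1) * X.N ≤ j' * X.N := mul_le_mul_of_nonneg_right h1 hN.le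
      have h3 : (j + 1) * X.N = j * X.N + X.N := by ring
      refine le_trans ?_ (neg_le_abs _)
      omega
    · subst h1
      refine le_trans ?_ (neg_le_abs _)
      omega
    · have h2 : (j' + 1) * X.N ≤ j * X.N := mul_le_mul_of_nonneg_right h1 hN.le
      have h3 : (j' + 1) * X.N = j' * X.N + X.N := by ring
      refine le_trans ?_ (le_abs_self _)
      omega
  · have h1 := hmul a' ha'
    have h2 : 0 ≤ j * X.N := mul_nonneg hj hN.le
    refine le_trans ?_ (le_abs_self _)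
    omega
  · have h1 := hmul a ha
    have h2 : 0 ≤ j' * X.N := mul_nonneg hj' hN.le
    refine le_trans ?_ (neg_le_abs _)
    omega
  · have e : 3 * (X.h0 * a) + X.h0 - (3 * (X.h0 * a') + X.h0 + X.h0) =
        X.h0 * (3 * (a - a') - 1) := by ring
    rw [e, abs_mul, abs_of_nonneg (by omega : 0 ≤ X.h0)]
    calc X.h0 = X.h0 * 1 := (mul_one _).symm
      _ ≤ X.h0 * |3 * (a - a') - 1| := by
        refine mul_le_mul_of_nonneg_left ?_ (by omega)
        exact Int.one_le_abs (by omega)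

/-- Points which are not on plates. -/
structure Col (X : DPar) (I : Dir3 d) (G : (Fin d → ℤ) → Prop) (q : Fin d → ℤ) : Prop where
  cls : (T1 X I q ∧ T2 X I q) ∨ (T1 X I q ∧ levA X (q I.i₃)) ∨
    (T2 X I q ∧ ∃ ℓ, levA X ℓ ∧ q I.i₃ = ℓ + X.h0)

theorem Col_avoid {p q : Fin d → ℤ} (hp : Col X I G p) (hq : Col X I G q) :
    ¬ X.W I (p - q) := by
  intro hW
  have hh : X.b < X.h0 := by
    unfold h0
    omega
  rcases hp.cls with ⟨h1, h2⟩ | ⟨h1, h2⟩ | ⟨h1, ℓ, h2, h2'⟩ <;>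
    rcases hq.cls with ⟨h3, h4⟩ | ⟨h3, h4⟩ | ⟨h3, ℓ', h4, h4'⟩
  · exact T1_avoid h1 h3 hW
  · exact T1_avoid h1 h3 hW
  · exact T2_avoid h2 h3 hW
  · exact T1_avoid h1 h3 hW
  · exact T1_avoid h1 h3 hW
  · have h5 := (W_far hW).1
    have h6 := lev_sep h2 h4
    rw [Pi.sub_apply, h4'] at h5
    omega
  · exact T2_avoid h1 h4 hW
  · have h5 := (W_far (W_comm hW)).1
    have h6 := lev_sep h4 h2
    rw [Pi.sub_apply, h2'] at h5
    omega
  · exact T2_avoid h1 h3 hW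

/-- The sets which are not plates. -/
theorem col_of {q : Fin d → ℤ} (h : (∃ (t : Bool) (k : ℤ), 1 ≤ k ∧ k < X.mm t ∧ X.Qc I t k q) ∨
    X.C0 I q ∨ X.V I G q ∨ (∃ ℓ, X.lev ℓ ∧ X.Grid I X.n 0 ℓ q) ∨ X.Grid I X.n' X.s X.h0 q ∨
    X.F I q) : Col X I G q := by
  rcases h with ⟨t, k, -, -, h⟩ | h | h | ⟨ℓ, hℓ, h⟩ | h | h
  · exact ⟨Or.inl (Lat_n h.1)⟩
  · exact ⟨Or.inl (C0_T h)⟩
  · exact ⟨Or.inl (V_T h)⟩
  · rcases grid_T dvd_rfl (Or.inl rfl) h with h1 | ⟨h1, h2⟩ | ⟨h1, h2⟩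
    · exact ⟨Or.inl h1⟩
    · exact ⟨Or.inr (Or.inl ⟨h1, Or.inl (by rw [h2]; exact hℓ)⟩)⟩
    · exact ⟨Or.inr (Or.inr ⟨h1, ℓ, Or.inl hℓ, h2⟩)⟩
  · rcases grid_T X.n_dvd_n' (Or.inr rfl) h with h1 | ⟨h1, h2⟩ | ⟨h1, h2⟩
    · exact ⟨Or.inl h1⟩
    · exact ⟨Or.inr (Or.inl ⟨h1, Or.inr h2⟩)⟩
    · exact ⟨Or.inr (Or.inr ⟨h1, X.h0, Or.inr rfl, h2⟩)⟩
  · exact ⟨Or.inl (Lat_n' h.1)⟩

/-! ### The plates -/

/-- Two points which are near each other in the plane. -/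
theorem near_avoid {p q : Fin d → ℤ} (h1 : |p I.i₁ - q I.i₁| < X.N - X.b)
    (h2 : |p I.i₂ - q I.i₂| < X.N - X.b) : ¬ X.W I (p - q) := by
  intro hW
  rcases (W_far hW).2 with h | h
  · rw [Pi.sub_apply] at h
    omega
  · rw [Pi.sub_apply] at h
    omega

/-- Two points with different heights. -/
theorem high_avoid {p q : Fin d → ℤ} (h : X.h0 ≤ |p I.i₃ - q I.i₃|) : ¬ X.W I (p - q) := by
  intro hW
  have h1 := (W_far hW).1
  have hh : X.b < X.h0 := by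
    unfold h0
    omega
  rw [Pi.sub_apply] at h1
  omega

/-- A point of a cluster column and a point near the origin. -/
theorem F_avoid {p q : Fin d → ℤ} (h1 : 0 ≤ p I.i₁) (h2 : p I.i₁ < 2 * X.n')
    (h3 : 0 ≤ p I.i₂) (h4 : p I.i₂ < X.n') (hq : X.F I q) : ¬ X.W I (p - q) := by
  rintro ⟨t, k, hk, hk', h5, h6, -, -⟩
  obtain ⟨b1, b2, b3, b4, b5, b6, b7, b8, b9⟩ := X.basic
  obtain ⟨-, -, ⟨i, hi⟩, ⟨j, hj⟩, -⟩ := hq
  have hN := X.N_pos
  have hbb := X.bb_le t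
  rw [Pi.sub_apply] at h5 h6
  -- a small multiple of `N`
  have small : ∀ a : ℤ, |a * X.N| < X.N → a = 0 := by
    intro a ha
    by_contra h0
    rcases X.kN_cases (Int.one_le_abs h0) with h | h
    · have := le_abs_self (a * X.N)
      omega
    · have := neg_le_abs (a * X.N)
      omega
  cases t
  · change |p I.i₂ - q I.i₂ - k * X.N| ≤ _ at h6
    have h7 : k + (X.m + 1) * j = 0 := by
      refine small _ ?_
      have e : (k + (X.m + 1) * j) * X.N = k * X.N + (X.m + 1) * X.N * j := by ring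
      have h8 := abs_le.1 h6
      have h9 : |q I.i₂ - (X.m + 1) * X.N * j| ≤ (X.N + 6 * X.n') / 2 := by omega
      have h10 := abs_le.1 h9
      rw [e, abs_lt]
      omega
    have h8 : X.m + 1 ∣ k := ⟨-j, by linear_combination h7⟩
    have h9 := Int.eq_zero_of_abs_lt_dvd h8 hk'
    rw [h9, abs_zero] at hk
    omega
  · change |p I.i₁ - q I.i₁ - k * X.N| ≤ _ at h5
    have h7 : k + X.m * i = 0 := by
      refine small _ ?_
      have e : (k + X.m * i) * X.N = k * X.N + X.m * X.N * i := by ring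
      have h8 := abs_le.1 h5
      have h9 : |q I.i₁ - X.m * X.N * i| ≤ (X.N + 6 * X.n') / 2 := by omega
      have h10 := abs_le.1 h9
      rw [e, abs_lt]
      omega
    have h8 : X.m ∣ k := ⟨-i, by linear_combination h7⟩
    have h9 := Int.eq_zero_of_abs_lt_dvd h8 hk'
    rw [h9, abs_zero] at hk
    omega

/-- The brick and the columns of the hard core. -/
theorem PA_V_avoid {p q : Fin d → ℤ} (hp : X.PA I p) (hq : X.V I G q) : ¬ X.W I (p - q) := by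
  rintro ⟨t, k, hk, hk', h1, h2, h3, h4⟩
  obtain ⟨p1, p2, p3, p4, p5, p6⟩ := hp
  obtain ⟨y, hy, -, hV⟩ := hq
  obtain ⟨-, v2, -, v4⟩ := hV
  refine v4 ⟨t, -k, by rwa [abs_neg], by rwa [abs_neg], ?_, ?_, p I.i₁, p I.i₂, p1, p2, p3, p4,
    ?_, ?_⟩
  · simp only [if_true] at v2 ⊢
    rw [Pi.sub_apply, p5, zero_sub, abs_neg, abs_le] at h3
    rw [abs_le]
    omega
  · intro l g1 g2 g3
    simp only [if_neg g3]
    have h5 := h4 l g1 g2 g3
    have h6 := abs_nonpos_iff.1 (p6 l g1 g2 g3)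
    rw [Pi.sub_apply, h6, zero_sub, abs_neg] at h5
    exact h5
  · simp only [if_neg I.h13]
    rw [cx_neg, show q I.i₁ - p I.i₁ - -X.cx t k = -((p - q) I.i₁ - X.cx t k) by
      rw [Pi.sub_apply]; ring, abs_neg]
    exact h1
  · simp only [if_neg I.h23]
    rw [cy_neg, show q I.i₂ - p I.i₂ - -X.cy t k = -((p - q) I.i₂ - X.cy t k) by
      rw [Pi.sub_apply]; ring, abs_neg]
    exact h2

/-- The depths of the rings. -/
theorem z_ge {t : Bool} {k : ℤ} (h : 1 ≤ k) : 6 * X.h0 ≤ X.z t k := by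
  have h1 := kap_ge (t := t) h
  have h2 : 0 ≤ X.h0 := by
    have := X.hb
    unfold h0
    omega
  have h3 : 3 * X.h0 * 2 ≤ 3 * X.h0 * kap t k := mul_le_mul_of_nonneg_left h1 (by omega)
  unfold z
  omega

theorem kap_inj {t t' : Bool} {k k' : ℤ} (h : kap t k = kap t' k') : t = t' ∧ k = k' := by
  unfold kap at h
  cases t <;> cases t' <;> simp at h ⊢ <;> omega

/-- The depths of two rings are different. -/
theorem z_sep {t t' : Bool} {k k' : ℤ} (h : ¬ (t = t' ∧ k = k')) :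
    X.z t k + 3 * X.h0 ≤ X.z t' k' ∨ X.z t' k' + 3 * X.h0 ≤ X.z t k := by
  have h2 : 0 ≤ X.h0 := by
    have := X.hb
    unfold h0
    omega
  have h1 : kap t k ≠ kap t' k' := fun h' => h (kap_inj h')
  unfold z
  rcases lt_or_gt_of_ne h1 with h3 | h3
  · left
    have h4 : 3 * X.h0 * (kap t k + 1) ≤ 3 * X.h0 * kap t' k' :=
      mul_le_mul_of_nonneg_left h3 (by omega)
    have e : 3 * X.h0 * (kap t k + 1) = 3 * X.h0 * kap t k + 3 * X.h0 := by ring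
    omega
  · right
    have h4 : 3 * X.h0 * (kap t' k' + 1) ≤ 3 * X.h0 * kap t k :=
      mul_le_mul_of_nonneg_left h3 (by omega)
    have e : 3 * X.h0 * (kap t' k' + 1) = 3 * X.h0 * kap t' k' + 3 * X.h0 := by ring
    omega

/-- The heights of the grids. -/
theorem grid_high {p o ℓ : ℤ} {q : Fin d → ℤ} (h : X.Grid I p o ℓ q) :
    ℓ ≤ q I.i₃ ∧ q I.i₃ ≤ ℓ + X.h0 := by
  have h2 : 0 ≤ X.h0 := by
    have := X.hb
    unfold h0
    omega
  rcases h.2 with ⟨-, h1⟩ | ⟨-, h1⟩ | ⟨-, h1⟩ <;> omega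

/-- The heights of the grids of the first kind. -/
theorem grid_high' {q : Fin d → ℤ} {ℓ : ℤ} (hℓ : X.lev ℓ) (h : X.Grid I X.n 0 ℓ q) :
    3 * X.h0 ≤ q I.i₃ ∨ ∃ κ : ℤ, 2 ≤ κ ∧ -(3 * X.h0 * κ) + X.h0 ≤ q I.i₃ ∧
      q I.i₃ ≤ -(3 * X.h0 * κ) + 2 * X.h0 := by
  have h1 := grid_high h
  rcases hℓ with ⟨j, hj, -, rfl⟩ | ⟨κ, hκ, -, rfl⟩
  · left
    have : 0 ≤ j * X.N := mul_nonneg hj X.N_pos.le
    omega
  · right
    exact ⟨κ, hκ, by omega, by omega⟩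

theorem PA_avoid {p q : Fin d → ℤ} (hp : X.PA I p) (hq : X.P I G q) : ¬ X.W I (p - q) := by
  obtain ⟨b1, b2, b3, b4, b5, b6, b7, b8, b9⟩ := X.basic
  obtain ⟨p1, p2, p3, p4, p5, p6⟩ := id hp
  rcases hq with h | h | ⟨t, k, hk, hk', h⟩ | ⟨t, k, hk, hk', h⟩ | h | h | ⟨ℓ, hℓ, h⟩ | h | h
  · obtain ⟨q1, q2, q3, q4, q5, q6⟩ := h
    exact near_avoid (by rw [abs_lt]; omega) (by rw [abs_lt]; omega)
  · refine high_avoid ?_
    rw [p5, h.2.2.2.2.1, sub_neg_eq_add, zero_add, abs_of_nonneg (by omega)]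
  · refine high_avoid ?_
    have hz := X.z_ge (t := t) hk
    rw [p5, h.2.2.2.1, sub_neg_eq_add, zero_add, abs_of_nonneg (by omega)]
    omega
  · refine high_avoid ?_
    have hz := X.z_ge (t := t) hk
    have h1 := h.2.2.2.2.2.2.1
    rw [p5, zero_sub, abs_neg]
    refine le_trans ?_ (neg_le_abs _)
    omega
  · obtain ⟨q1, q2, -⟩ := h
    exact near_avoid (by rw [abs_lt]; omega) (by rw [abs_lt]; omega)
  · exact PA_V_avoid hp h
  · refine high_avoid ?_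
    rw [p5, zero_sub, abs_neg]
    rcases grid_high' hℓ h with h1 | ⟨κ, h1, h2, h3⟩
    · refine le_trans ?_ (le_abs_self _)
      omega
    · have h4 : 3 * X.h0 * 2 ≤ 3 * X.h0 * κ := mul_le_mul_of_nonneg_left h1 (by omega)
      refine le_trans ?_ (neg_le_abs _)
      omega
  · refine high_avoid ?_
    have h1 := (grid_high h).1
    rw [p5, zero_sub, abs_neg]
    exact le_trans h1 (le_abs_self _)
  · exact F_avoid p1 (by omega) p3 (by omega) h

theorem PC_avoid {p q : Fin d → ℤ} (hp : X.PC I p) (hq : X.P I G q) : ¬ X.W I (p - q) := by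
  obtain ⟨b1, b2, b3, b4, b5, b6, b7, b8, b9⟩ := X.basic
  obtain ⟨p1, p2, p3, p4, p5, p6⟩ := id hp
  rcases hq with h | h | ⟨t, k, hk, hk', h⟩ | ⟨t, k, hk, hk', h⟩ | h | h | ⟨ℓ, hℓ, h⟩ | h | h
  · exact fun hW => PA_avoid (G := G) h (Or.inr (Or.inl hp)) (W_comm hW)
  · obtain ⟨q1, q2, q3, q4, q5, q6⟩ := h
    exact near_avoid (by rw [abs_lt]; omega) (by rw [abs_lt]; omega)
  · refine high_avoid ?_
    have hz := X.z_ge (t := t) hk
    rw [p5, h.2.2.2.1]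
    refine le_trans ?_ (le_abs_self _)
    omega
  · refine high_avoid ?_
    have hz := X.z_ge (t := t) hk
    have h1 := h.2.2.2.2.2.2.1
    rw [p5]
    refine le_trans ?_ (le_abs_self _)
    omega
  · obtain ⟨q1, q2, -⟩ := h
    exact near_avoid (by rw [abs_lt]; omega) (by rw [abs_lt]; omega)
  · refine high_avoid ?_
    obtain ⟨y, hy, -, h0⟩ := h
    have h1 := h0.2.1
    simp only [if_true] at h1
    rw [p5]
    refine le_trans ?_ (neg_le_abs _)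
    omega
  · refine high_avoid ?_
    rw [p5]
    rcases grid_high' hℓ h with h1 | ⟨κ, h1, h2, h3⟩
    · refine le_trans ?_ (neg_le_abs _)
      omega
    · have h4 : 3 * X.h0 * 2 ≤ 3 * X.h0 * κ := mul_le_mul_of_nonneg_left h1 (by omega)
      refine le_trans ?_ (le_abs_self _)
      omega
  · refine high_avoid ?_
    have h1 := (grid_high h).1
    rw [p5]
    refine le_trans ?_ (neg_le_abs _)
    omega
  · exact F_avoid p1 p2 p3 p4 h

/-- The ring and the long column. -/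
theorem Rg_C0_avoid {t : Bool} {k : ℤ} (hk : 1 ≤ k) {p q : Fin d → ℤ} (hp : X.Rg I t k p)
    (hq : X.C0 I q) : ¬ X.W I (p - q) := by
  rintro ⟨t', k', hk', -, h5, h6, -, -⟩
  obtain ⟨b1, b2, b3, b4, b5, b6, b7, b8, b9⟩ := X.basic
  obtain ⟨p1, p2, p3, -, -⟩ := hp
  have hN := X.N_pos
  have hbb := X.bb_le t
  have hbb' := X.bb_le t'
  rw [Pi.sub_apply, hq.1, sub_zero] at h5
  rw [Pi.sub_apply, hq.2.1, sub_zero] at h6
  have hkN : X.N ≤ k * X.N := by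
    calc X.N = 1 * X.N := (one_mul _).symm
      _ ≤ k * X.N := mul_le_mul_of_nonneg_right hk hN.le
  rw [abs_le] at p1 p2
  have h5' := abs_le.1 h5
  have h6' := abs_le.1 h6
  have small : ∀ a : ℤ, |a * X.N| < X.N → a = 0 := by
    intro a ha
    by_contra h0
    rcases X.kN_cases (Int.one_le_abs h0) with h | h
    · have := le_abs_self (a * X.N)
      omega
    · have := neg_le_abs (a * X.N)
      omega
  cases t <;> cases t'
  · change _ ≤ p I.i₁ - 0 ∧ p I.i₁ - 0 ≤ _ at p1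
    change _ ≤ p I.i₂ - k * X.N ∧ p I.i₂ - k * X.N ≤ _ at p2
    change _ ≤ p I.i₂ - k' * X.N ∧ p I.i₂ - k' * X.N ≤ _ at h6'
    have h7 : k - k' = 0 := by
      refine small _ ?_
      rw [sub_mul, abs_lt]
      omega
    have h8 : k = k' := by omega
    subst h8
    rcases p3 with p3 | p3 <;> omega
  · change _ ≤ p I.i₂ - k * X.N ∧ p I.i₂ - k * X.N ≤ _ at p2
    change _ ≤ p I.i₂ - 0 ∧ p I.i₂ - 0 ≤ _ at h6'
    omega
  · change _ ≤ p I.i₁ - k * X.N ∧ p I.i₁ - k * X.N ≤ _ at p1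
    change _ ≤ p I.i₁ - 0 ∧ p I.i₁ - 0 ≤ _ at h5'
    omega
  · change _ ≤ p I.i₁ - k * X.N ∧ p I.i₁ - k * X.N ≤ _ at p1
    change _ ≤ p I.i₁ - k' * X.N ∧ p I.i₁ - k' * X.N ≤ _ at h5'
    have h7 : k - k' = 0 := by
      refine small _ ?_
      rw [sub_mul, abs_lt]
      omega
    have h8 : k = k' := by omega
    subst h8
    rcases p3 with p3 | p3 <;> omega

theorem Rg_avoid {t : Bool} {k : ℤ} (hk : 1 ≤ k) (hk' : k < X.mm t) {p q : Fin d → ℤ}
    (hp : X.Rg I t k p) (hq : X.P I G q) : ¬ X.W I (p - q) := by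
  obtain ⟨b1, b2, b3, b4, b5, b6, b7, b8, b9⟩ := X.basic
  have hz := X.z_ge (t := t) hk
  have hbb := X.bb_le t
  obtain ⟨p1, p2, p3, p4, p5⟩ := id hp
  rcases hq with h | h | ⟨t', k', g1, g2, h⟩ | ⟨t', k', g1, g2, h⟩ | h | h | ⟨ℓ, hℓ, h⟩ | h | h
  · exact fun hW => PA_avoid (G := G) h (Or.inr (Or.inr (Or.inl ⟨t, k, hk, hk', hp⟩))) (W_comm hW)
  · exact fun hW => PC_avoid (G := G) h (Or.inr (Or.inr (Or.inl ⟨t, k, hk, hk', hp⟩))) (W_comm hW)
  · by_cases he : t = t' ∧ k = k'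
    · obtain ⟨rfl, rfl⟩ := he
      obtain ⟨q1, q2, -⟩ := h
      rw [abs_le] at p1 p2 q1 q2
      exact near_avoid (by rw [abs_lt]; omega) (by rw [abs_lt]; omega)
    · refine high_avoid ?_
      rw [p4, h.2.2.2.1]
      rcases X.z_sep he with h1 | h1
      · refine le_trans ?_ (le_abs_self _)
        omega
      · refine le_trans ?_ (neg_le_abs _)
        omega
  · obtain ⟨-, q1, q2, q3, q4, q5, q6, -⟩ := h
    by_cases he : t = t' ∧ k = k'
    · obtain ⟨rfl, rfl⟩ := he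
      rw [abs_le] at p1 p2
      exact near_avoid (by rw [abs_lt]; omega) (by rw [abs_lt]; omega)
    · refine high_avoid ?_
      rw [p4]
      rcases X.z_sep he with h1 | h1
      · refine le_trans ?_ (le_abs_self _)
        omega
      · refine le_trans ?_ (neg_le_abs _)
        omega
  · exact Rg_C0_avoid hk hp h
  · refine high_avoid ?_
    obtain ⟨y, hy, -, h0⟩ := h
    have h1 := h0.2.1
    simp only [if_true] at h1
    rw [p4]
    refine le_trans ?_ (neg_le_abs _)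
    omega
  · refine high_avoid ?_
    rw [p4]
    rcases grid_high' hℓ h with h1 | ⟨κ, h1, h2, h3⟩
    · refine le_trans ?_ (neg_le_abs _)
      omega
    · have hzz : X.z t k = 3 * X.h0 * kap t k := rfl
      rw [hzz]
      rcases lt_or_ge (kap t k) κ with h4 | h4
      · have h5 : 3 * X.h0 * (kap t k + 1) ≤ 3 * X.h0 * κ :=
          mul_le_mul_of_nonneg_left h4 (by omega)
        have e : 3 * X.h0 * (kap t k + 1) = 3 * X.h0 * kap t k + 3 * X.h0 := by ring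
        refine le_trans ?_ (le_abs_self _)
        omega
      · have h5 : 3 * X.h0 * κ ≤ 3 * X.h0 * kap t k :=
          mul_le_mul_of_nonneg_left h4 (by omega)
        refine le_trans ?_ (neg_le_abs _)
        omega
  · refine high_avoid ?_
    have h1 := (grid_high h).1
    rw [p4]
    refine le_trans ?_ (neg_le_abs _)
    omega
  · refine high_avoid ?_
    have h1 := h.2.2.2.2.1
    rw [p4]
    refine le_trans ?_ (neg_le_abs _)
    omega

/-- **The differences avoid the windows.** -/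
theorem avoid (_hok : X.Ok G ρ) {p q : Fin d → ℤ} (hp : X.P I G p) (hq : X.P I G q) :
    ¬ X.W I (p - q) := by
  rcases id hp with h | h | ⟨t, k, hk, hk', h⟩ | h
  · exact PA_avoid h hq
  · exact PC_avoid h hq
  · exact Rg_avoid hk hk' h hq
  · rcases id hq with h' | h' | ⟨t, k, hk, hk', h'⟩ | h'
    · exact fun hW => PA_avoid h' hp (W_comm hW)
    · exact fun hW => PC_avoid h' hp (W_comm hW)
    · exact fun hW => Rg_avoid hk hk' h' hp (W_comm hW)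
    · exact Col_avoid (col_of h) (col_of h')

end DPar

end Pool.Agent.RC
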