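import Pool.Agent.Lib.MP_09cbbd_rd.DBody
import Pool.Agent.Lib.MP_09cbbd_rd.DWin
import Pool.Agent.Lib.MP_09cbbd_rd.DCov
import Pool.Agent.Lib.MP_09cbbd_rd.DJk
import Pool.Agent.Lib.MP_09cbbd_rd.DPle
import Pool.Agent.Lib.MP_09cbbd_rd.DThin
import Pool.Agent.Lib.MP_09cbbd_rc.InstK

/-!
# A connected body: the real part
-/

set_option autoImplicit false

namespace Pool.Agent.RC

open MeasureTheory Pointwise

namespace DPar

variable {X : DPar} {d : ℕ} {I : Dir3 d} {G : (Fin d → ℤ) → Prop} {ρ : ℤ}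

/-! ### The windows -/

/-- the direction of the windows -/
def ii (I : Dir3 d) (t : Bool) : Fin d := cond t I.i₁ I.i₂

/-- the centre of a window -/
def ctr (X : DPar) (I : Dir3 d) (t : Bool) (k : ℤ) (j : Fin d) : ℤ :=
  if j = ii I t then k * X.N else 0

theorem ctr_i1 (t : Bool) (k : ℤ) : X.ctr I t k I.i₁ = X.cx t k := by
  unfold ctr ii cx
  cases t
  · exact if_neg I.h12
  · exact if_pos rfl

theorem ctr_i2 (t : Bool) (k : ℤ) : X.ctr I t k I.i₂ = X.cy t k := by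
  unfold ctr ii cy
  cases t
  · exact if_pos rfl
  · exact if_neg I.h12.symm

theorem ctr_other (t : Bool) (k : ℤ) {l : Fin d} (h1 : l ≠ I.i₁) (h2 : l ≠ I.i₂) :
    X.ctr I t k l = 0 := by
  unfold ctr ii
  cases t
  · exact if_neg h2
  · exact if_neg h1

theorem W_iff {q : Fin d → ℤ} : X.W I q ↔ ∃ (t : Bool) (k : ℤ), 1 ≤ |k| ∧ |k| < X.mm t ∧
    ∀ j, |q j - X.ctr I t k j| ≤ X.bb t := by
  constructor
  · rintro ⟨t, k, h1, h2, h3, h4, h5, h6⟩
    refine ⟨t, k, h1, h2, fun j => ?_⟩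
    by_cases hj1 : j = I.i₁
    · rw [hj1, ctr_i1]; exact h3
    by_cases hj2 : j = I.i₂
    · rw [hj2, ctr_i2]; exact h4
    rw [ctr_other t k hj1 hj2, sub_zero]
    by_cases hj3 : j = I.i₃
    · rw [hj3]; exact h5
    · exact h6 j hj1 hj2 hj3
  · rintro ⟨t, k, h1, h2, h3⟩
    refine ⟨t, k, h1, h2, ?_, ?_, ?_, fun l hl1 hl2 _ => ?_⟩
    · have := h3 I.i₁
      rwa [ctr_i1] at this
    · have := h3 I.i₂
      rwa [ctr_i2] at this
    · have := h3 I.i₃
      rwa [ctr_other t k I.h13.symm I.h23.symm, sub_zero] at this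
    · have := h3 l
      rwa [ctr_other t k hl1 hl2, sub_zero] at this

theorem kN_ge {k : ℤ} (h : 1 ≤ |k|) : X.N ≤ |k * X.N| := by
  have h0 := X.N_pos
  rw [abs_mul, abs_of_pos h0]
  nlinarith

theorem kN_le {t : Bool} {k : ℤ} (h : |k| < X.mm t) : |k * X.N| ≤ X.m * X.N := by
  have h0 := X.N_pos
  rw [abs_mul, abs_of_pos h0]
  refine mul_le_mul_of_nonneg_right ?_ h0.le
  cases t
  · change |k| < X.m + 1 at h
    omega
  · change |k| < X.m at h
    omega

theorem abs_ctr_le {t : Bool} {k : ℤ} (h : |k| < X.mm t) (j : Fin d) :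
    |X.ctr I t k j| ≤ X.m * X.N := by
  unfold ctr
  split_ifs
  · exact kN_le h
  · rw [abs_zero]
    have := X.mN_ge
    have := X.N_pos
    omega

/-- a point near the centre of a window, outside this window, is in no window -/
theorem not_W_ctr {t : Bool} {k : ℤ} (hk : 1 ≤ |k|) {x : Fin d → ℤ}
    (hx : ∀ l, |x l| ≤ X.b + 1) {j : Fin d} (hj : X.bb t < |x j|) :
    ¬ X.W I (fun l => X.ctr I t k l + x l) := by
  rw [W_iff]
  rintro ⟨t', k', h1, h2, h3⟩
  obtain ⟨b1, b2, b3, b4, b5, b6, b7, b8, b9⟩ := X.basic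
  have hb' := X.bb_le t'
  have hN := X.N_pos
  have key := h3 (ii I t)
  have hx' := hx (ii I t)
  rw [abs_le] at key hx'
  have hN1 := kN_ge (X := X) hk
  by_cases ht : t = t'
  · subst ht
    have e1 : X.ctr I t k (ii I t) = k * X.N := if_pos rfl
    have e2 : X.ctr I t k' (ii I t) = k' * X.N := if_pos rfl
    rw [e1, e2] at key
    have hkk : k = k' := by
      by_contra hne
      have h4 : 1 ≤ |k - k'| := Int.one_le_abs (sub_ne_zero.mpr hne)
      have h5 := kN_ge (X := X) h4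
      have e3 : (k - k') * X.N = k * X.N - k' * X.N := by ring
      rw [e3] at h5
      rcases le_abs.mp h5 with h6 | h6 <;> omega
    subst hkk
    have h6 := h3 j
    have e4 : X.ctr I t k j + x j - X.ctr I t k j = x j := by ring
    rw [e4] at h6
    omega
  · have e1 : X.ctr I t k (ii I t) = k * X.N := if_pos rfl
    have e2 : X.ctr I t' k' (ii I t) = 0 := by
      refine if_neg fun h => ?_
      cases t <;> cases t'
      · exact ht rfl
      · exact I.h12 h.symm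
      · exact I.h12 h
      · exact ht rfl
    rw [e1, e2, sub_zero] at key
    rcases le_abs.mp hN1 with h6 | h6 <;> omega

/-! ### The body -/

theorem isBody (hok : X.Ok G ρ) {δ : ℝ} (hδ : 0 < δ) : IsBody d (X.body I G δ) := by
  classical
  refine ⟨(P_finite (I := I) hok).toFinset.image fun p => fun j => δ * (p j : ℝ), δ, hδ,
    ⟨_, Finset.mem_image_of_mem _ ((Set.Finite.mem_toFinset _).mpr P_zero)⟩, ?_⟩
  ext x
  rw [Set.mem_iUnion₂]
  constructor
  · rintro ⟨p, hp, hx⟩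
    exact ⟨_, Finset.mem_image_of_mem _ ((Set.Finite.mem_toFinset _).mpr hp),
      fun j => (hx j).1, fun j => (hx j).2⟩
  · rintro ⟨y, hy, hx1, hx2⟩
    obtain ⟨p, hp, rfl⟩ := Finset.mem_image.mp hy
    have hp' := (Set.Finite.mem_toFinset _).mp hp
    exact ⟨p, hp', fun j => ⟨hx1 j, hx2 j⟩⟩

theorem mem_sub {δ : ℝ} (hδ : 0 < δ) {u : Fin d → ℝ} {p p' : Fin d → ℤ} (hp : X.P I G p)
    (hp' : X.P I G p') (h : ∀ j, |u j - δ * (p j - p' j : ℤ)| ≤ δ) :
    u ∈ X.body I G δ - X.body I G δ := by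
  obtain ⟨w, hw⟩ : ∃ w : Fin d → ℝ, w = fun j => u j - δ * (p j - p' j : ℤ) := ⟨_, rfl⟩
  refine ⟨fun j => δ * p j + max 0 (w j), ⟨p, hp, fun j => ?_⟩,
    fun j => δ * p' j + max 0 (-w j), ⟨p', hp', fun j => ?_⟩, ?_⟩
  · have h1 := h j
    have h2 : w j = u j - δ * (p j - p' j : ℤ) := by rw [hw]
    rw [← h2, abs_le] at h1
    have h3 : max 0 (w j) ≤ δ := max_le hδ.le h1.2
    have h4 := le_max_left 0 (w j)
    constructor <;> linarith
  · have h1 := h j
    have h2 : w j = u j - δ * (p j - p' j : ℤ) := by rw [hw]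
    rw [← h2, abs_le] at h1
    have h3 : max 0 (-w j) ≤ δ := max_le hδ.le (by linarith)
    have h4 := le_max_left 0 (-w j)
    constructor <;> linarith
  · funext j
    have h2 : w j = u j - δ * (p j - p' j : ℤ) := by rw [hw]
    push_cast at h2
    have h3 : max 0 (w j) - max 0 (-w j) = w j := by
      rcases le_total 0 (w j) with h | h
      · rw [max_eq_right h, max_eq_left (by linarith), sub_zero]
      · rw [max_eq_left h, max_eq_right (by linarith)]; ring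
    change δ * (p j : ℝ) + max 0 (w j) - (δ * (p' j : ℝ) + max 0 (-w j)) = u j
    linarith

/-- `E` is between the difference sets of the bodies with cubes of side `1` and `9/8` -/
structure Btw (X : DPar) (I : Dir3 d) (G : (Fin d → ℤ) → Prop) (δ : ℝ)
    (E : Set (Fin d → ℝ)) : Prop where
  meas : MeasurableSet E
  sym : ∀ u ∈ E, -u ∈ E
  lo : ∀ (u : Fin d → ℝ) (p p' : Fin d → ℤ), X.P I G p → X.P I G p' →
    (∀ j, |u j - δ * (p j - p' j : ℤ)| ≤ δ) → u ∈ E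
  up : ∀ u ∈ E, ∃ p p', X.P I G p ∧ X.P I G p' ∧
    ∀ j, |u j - δ * (p j - p' j : ℤ)| ≤ 9 / 8 * δ

/-- every compact body which is a little larger -/
theorem btw_body (hok : X.Ok G ρ) {δ : ℝ} (hδ : 0 < δ) {K : Set (Fin d → ℝ)}
    (hK : IsCompact K) (h1 : X.body I G δ ⊆ K)
    (h2 : K ⊆ Metric.cthickening (δ / 16) (X.body I G δ)) : Btw X I G δ (K - K) := by
  refine ⟨?_, ?_, ?_, ?_⟩
  · rw [sub_eq_add_neg]
    exact (hK.add hK.neg).measurableSet
  · rintro _ ⟨x, hx, y, hy, rfl⟩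
    exact ⟨y, hy, x, hx, (neg_sub x y).symm⟩
  · intro u p p' hp hp' h
    obtain ⟨x, hx, y, hy, e⟩ := mem_sub hδ hp hp' h
    exact ⟨x, h1 hx, y, h1 hy, e⟩
  · rintro _ ⟨x, hx, y, hy, rfl⟩
    have hc := (isBody (X := X) (I := I) hok hδ).isCompact
    have key : ∀ x ∈ K, ∃ p, X.P I G p ∧ ∀ j, δ * p j - δ / 16 ≤ x j ∧
        x j ≤ δ * p j + δ + δ / 16 := by
      intro x hx
      have h3 := h2 hx
      rw [hc.cthickening_eq_biUnion_closedBall (by positivity)] at h3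
      obtain ⟨z, ⟨p, hp, hz⟩, h4⟩ := Set.mem_iUnion₂.mp h3
      refine ⟨p, hp, fun j => ?_⟩
      rw [Metric.mem_closedBall] at h4
      have h5 := (dist_le_pi_dist x z j).trans h4
      rw [Real.dist_eq, abs_le] at h5
      have h6 := hz j
      constructor <;> linarith [h5.1, h5.2, h6.1, h6.2]
    obtain ⟨p, hp, hx'⟩ := key x hx
    obtain ⟨p', hp', hy'⟩ := key y hy
    refine ⟨p, p', hp, hp', fun j => ?_⟩
    have h3 := hx' j
    have h4 := hy' j
    change |x j - y j - _| ≤ _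
    push_cast
    rw [abs_le]
    constructor <;> linarith [h3.1, h3.2, h4.1, h4.2]

theorem ctr_cast (δ : ℝ) (t : Bool) (k : ℤ) (j : Fin d) :
    δ * (X.ctr I t k j : ℤ) = if j = ii I t then k * (δ * X.N) else 0 := by
  unfold ctr
  split_ifs
  · push_cast; ring
  · simp only [Int.cast_zero, mul_zero]

open IPar (Gz Gz_neg Gz_cube Gz_bdd exists_round)

/-- the near field -/
theorem near_out {Nh E : Set (Fin d → ℝ)} {δ : ℝ} (hδ : 0 < δ)
    (hok : X.Ok (Gz Nh δ) ρ) (hB : Btw X I (Gz Nh δ) δ E)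
    {u : Fin d → ℝ} (hu : u ∈ Nh) (hE : u ∉ E) :
    ∃ (t : Bool) (k : ℤ), 1 ≤ |k| ∧ |k| < X.mm t ∧
      ∀ j, |u j - δ * (X.ctr I t k j : ℤ)| < δ * X.bb t := by
  obtain ⟨b1, b2, b3, b4, b5, b6, b7, b8, b9⟩ := X.basic
  have hm := X.hm
  obtain ⟨q, hq1, hq2, -⟩ := exists_round δ hδ u
  have hqρ : Gz Nh δ q := ⟨u, hu, hq1⟩
  have hW : X.W I q := by
    by_contra hW
    obtain ⟨p, p', hp, hp', e⟩ := cover_near hok hqρ hW
    refine hE (hB.lo u p p' hp hp' fun j => ?_)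
    have h2 := hq1 j
    rw [e] at h2
    refine h2.trans ?_
    linarith
  obtain ⟨t, k, hk1, hk2, hk3⟩ := W_iff.1 hW
  refine ⟨t, k, hk1, hk2, fun j => ?_⟩
  by_contra hj
  rw [not_lt] at hj
  -- the neighbour
  have hbp := X.bb_pos t
  have key : ∃ y : ℤ, |y| = X.bb t + 1 ∧
      |u j - δ * (X.ctr I t k j + y : ℤ)| ≤ δ := by
    have h2 := hk3 j
    have h3 := hq1 j
    have h4 : (1 : ℝ) ≤ X.bb t := by exact_mod_cast hbp
    have h6 : |(q j : ℝ) - (X.ctr I t k j : ℤ)| ≤ X.bb t := by exact_mod_cast h2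
    rw [abs_le] at h3 h6
    rcases le_abs.mp hj with h | h
    · refine ⟨X.bb t + 1, abs_of_nonneg (by omega), ?_⟩
      push_cast
      rw [abs_le]
      constructor <;> nlinarith [h3.1, h3.2, h6.1, h6.2]
    · refine ⟨-(X.bb t + 1), by rw [abs_neg, abs_of_nonneg (by omega)], ?_⟩
      push_cast
      rw [abs_le]
      constructor <;> nlinarith [h3.1, h3.2, h6.1, h6.2]
  obtain ⟨y, hy1, hy2⟩ := key
  obtain ⟨x, hx⟩ : ∃ x : Fin d → ℤ, x = fun l => if l = j then y else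
    q l - X.ctr I t k l := ⟨_, rfl⟩
  have hxj : x j = y := by rw [hx]; simp only [if_true]
  have hxl : ∀ l, l ≠ j → x l = q l - X.ctr I t k l := fun l hl => by
    rw [hx]; simp only [if_neg hl]
  have hxb : ∀ l, |x l| ≤ X.bb t + 1 := fun l => by
    by_cases hl : l = j
    · rw [hl, hxj]; omega
    · rw [hxl l hl]
      have := hk3 l
      omega
  have hbb := X.bb_le t
  have hnW := not_W_ctr (X := X) (I := I) hk1 (t := t) (x := x)
    (fun l => (hxb l).trans (by omega)) (j := j) (by rw [hxj]; omega)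
  obtain ⟨p, p', hp, hp', e⟩ := cover_near hok
    (q := fun l => X.ctr I t k l + x l) (hok.cube _ fun l => by
      have h2 := abs_ctr_le (X := X) (I := I) hk2 l
      have h3 := hxb l
      have h4 := abs_add_le (X.ctr I t k l) (x l)
      have h5 : X.Lg = X.m * X.N + 2 * X.N := by unfold Lg; ring
      have h6 := hok.hρ
      omega) hnW
  refine hE (hB.lo u p p' hp hp' fun l => ?_)
  have e' : p l - p' l = X.ctr I t k l + x l := (congrFun e l).symm
  rw [e']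
  by_cases hl : l = j
  · rw [hl, hxj]; exact hy2
  · rw [hxl l hl, add_sub_cancel]
    refine (hq1 l).trans ?_
    linarith

theorem near_in (hok : X.Ok G ρ) {E : Set (Fin d → ℝ)} {δ : ℝ} (hδ : 0 < δ)
    (hB : Btw X I G δ E) {u : Fin d → ℝ} {t : Bool} {k : ℤ} (hk1 : 1 ≤ |k|)
    (hk2 : |k| < X.mm t)
    (hk3 : ∀ j, |u j - δ * (X.ctr I t k j : ℤ)| < δ * X.bb t / 2) : u ∉ E := by
  intro hE
  obtain ⟨p, p', hp, hp', h⟩ := hB.up u hE
  refine avoid hok hp hp' (W_iff.2 ⟨t, k, hk1, hk2, fun j => ?_⟩)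
  have h2 := hk3 j
  have h3 := h j
  rw [Pi.sub_apply]
  have hbp := X.bb_pos t
  have hb0 : (1 : ℝ) ≤ X.bb t := by exact_mod_cast hbp
  have h4 : 4 * |((p j - p' j : ℤ) : ℝ) - (X.ctr I t k j : ℤ)| < 2 * X.bb t + 5 := by
    have h5 : |((p j - p' j : ℤ) : ℝ) - (X.ctr I t k j : ℤ)| < X.bb t / 2 + 5 / 4 := by
      rw [abs_lt] at h2 ⊢
      rw [abs_le] at h3
      constructor
      · by_contra h5
        rw [not_lt] at h5
        nlinarith [h2.1, h2.2, h3.1, h3.2]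
      · by_contra h5
        rw [not_lt] at h5
        nlinarith [h2.1, h2.2, h3.1, h3.2]
    linarith
  have h5 : 4 * |(p j - p' j) - X.ctr I t k j| < 2 * X.bb t + 5 := by exact_mod_cast h4
  omega

/-- the far set -/
theorem far {Nh E : Set (Fin d → ℝ)} {δ R : ℝ} (hδ : 0 < δ) (hok : X.Ok (Gz Nh δ) ρ)
    (hB : Btw X I (Gz Nh δ) δ E) {m : ℕ} (hXm : X.m = m) (hR : R ≤ δ * X.ρ₂)
    {u : Fin d → ℝ} (hu : ∀ j, |u j| ≤ R)
    (h1 : Nr (m * (δ * X.N)) (δ * (X.N / 2 + X.n' - 1 / 2)) (u I.i₁))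
    (h2 : Nr ((m + 1) * (δ * X.N)) (δ * (X.N / 2 + X.n' - 1 / 2)) (u I.i₂)) : u ∈ E := by
  have hmm : (X.m : ℝ) = m := by rw [hXm]; simp only [Int.cast_natCast]
  obtain ⟨i, hi⟩ := h1
  obtain ⟨j, hj⟩ := h2
  obtain ⟨q, hq1, hq2, hq3⟩ := exists_round δ hδ u
  have hqR : ∀ l, |q l| ≤ X.ρ₂ := fun l => hq2 l X.ρ₂ ((hu l).trans hR)
  have e1 : 2 * |q I.i₁ - X.m * X.N * i| ≤ X.N + 2 * X.n' := by
    have h2 := hq1 I.i₁
    have h3 : 2 * |(q I.i₁ : ℝ) - X.m * X.N * i| ≤ X.N + 2 * X.n' := by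
      rw [← hmm] at hi
      rw [abs_le] at h2 hi
      have h4 : |(q I.i₁ : ℝ) - X.m * X.N * i| ≤ X.N / 2 + X.n' := by
        rw [abs_le]
        constructor
        · by_contra h5
          rw [not_le] at h5
          nlinarith [h2.1, h2.2, hi.1, hi.2]
        · by_contra h5
          rw [not_le] at h5
          nlinarith [h2.1, h2.2, hi.1, hi.2]
      linarith
    exact_mod_cast h3
  have e2 : 2 * |q I.i₂ - (X.m + 1) * X.N * j| ≤ X.N + 2 * X.n' := by
    have h2 := hq1 I.i₂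
    have h3 : 2 * |(q I.i₂ : ℝ) - (X.m + 1) * X.N * j| ≤ X.N + 2 * X.n' := by
      rw [← hmm] at hj
      rw [abs_le] at h2 hj
      have h4 : |(q I.i₂ : ℝ) - (X.m + 1) * X.N * j| ≤ X.N / 2 + X.n' := by
        rw [abs_le]
        constructor
        · by_contra h5
          rw [not_le] at h5
          nlinarith [h2.1, h2.2, hj.1, hj.2]
        · by_contra h5
          rw [not_le] at h5
          nlinarith [h2.1, h2.2, hj.1, hj.2]
      linarith
    exact_mod_cast h3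
  obtain ⟨p, p', hp, hp', e⟩ := cover_far hok ⟨i, e1⟩ ⟨j, e2⟩ hqR
  refine hB.lo u p p' hp hp' fun j => ?_
  have h2 := hq1 j
  rw [e] at h2
  refine h2.trans ?_
  linarith

/-- the far differences, in units of `δ` -/
theorem junk_real {Nh E : Set (Fin d → ℝ)} {c : ℝ} {D : ℕ} (hN : Core Nh c D) {δ : ℝ}
    (hc : δ * (X.Lg + 3) ≤ c) (hδ : 0 < δ) (hok : X.Ok (Gz Nh δ) ρ)
    (hB : Btw X I (Gz Nh δ) δ E) {u : Fin d → ℝ} (hu : u ∈ E)
    (hu1 : u ∉ (1 + δ * ((X.Lg : ℝ) + 3) / c) • Nh) :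
    ∃ q : Fin d → ℤ, X.Jk I q ∧ ∀ j, |u j - δ * (q j : ℤ)| ≤ 9 / 8 * δ := by
  have hc0 := hN.c_pos
  have hN0 := X.N_pos
  have hm := X.hm
  have hLg0 : (0 : ℝ) ≤ X.Lg := by
    have : 0 ≤ X.Lg := by
      unfold Lg
      exact mul_nonneg (by omega) hN0.le
    exact_mod_cast this
  have hτ : 0 ≤ δ * ((X.Lg : ℝ) + 3) / c := by positivity
  obtain ⟨p, p', hp, hp', h⟩ := hB.up u hu
  refine ⟨p - p', junk hok hp hp' fun q' hq' => ?_, h⟩
  by_contra hcon
  push Not at hcon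
  obtain ⟨u', hu', h2⟩ := hq'
  have e0 : 0 < 1 + δ * ((X.Lg : ℝ) + 3) / c := by linarith
  obtain ⟨τ, hτe⟩ : ∃ τ, τ = δ * ((X.Lg : ℝ) + 3) / c := ⟨_, rfl⟩
  rw [← hτe] at hu1 hτ e0
  have hcτ : c * τ = δ * (X.Lg + 3) := by rw [hτe]; field_simp
  have h3 : (1 + τ)⁻¹ • u ∉ Nh := fun h4 =>
    hu1 ((Set.mem_smul_set_iff_inv_smul_mem₀ e0.ne' _ _).mpr h4)
  refine hN.exp _ h3 τ hτ ?_ (u' - u) (fun j => ?_) ?_
  · rw [hτe, div_le_one hc0]; exact hc
  · rw [hcτ, Pi.sub_apply]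
    have h5 := h j
    have h6 := h2 j
    have h7 : |((p j - p' j - q' j : ℤ) : ℝ)| ≤ X.Lg := by exact_mod_cast hcon j
    push_cast at h5 h7
    rw [abs_le] at h5 h6 h7 ⊢
    constructor <;> nlinarith [h5.1, h5.2, h6.1, h6.2, h7.1, h7.2]
  · rw [smul_inv_smul₀ e0.ne', add_sub_cancel]
    exact hu'

end DPar

end Pool.Agent.RC
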