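import Pool.Agent.Lib.MP_09cbbd_rd.DGeo

/-!
# A connected body: the axioms
-/

set_option autoImplicit false

namespace Pool.Agent.RC

open MeasureTheory Pointwise

namespace DPar

open IPar (Gz Gz_neg Gz_cube Gz_bdd exists_round)

variable {X : DPar} {d : ℕ} {I : Dir3 d} {G : (Fin d → ℤ) → Prop} {ρ : ℤ}

/-- **The axioms for the difference set of the body.** -/
theorem geo_body {m : ℕ} (hXm : X.m = m)
    {Nh : Set (Fin d → ℝ)} {c : ℝ} {D : ℕ} (hN : Core Nh c D) {E : Set (Fin d → ℝ)}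
    {δ R ε : ℝ} (hok : X.Ok (Gz Nh δ) ρ) (hc : δ * (X.Lg + 3) ≤ c) (hδ : 0 < δ)
    (hR : R ≤ δ * X.ρ₂) (hR' : δ * X.ρ₂ ≤ R + δ)
    (hα : 2 * (m + 2) * (δ * X.N) ≤ 1)
    (hε : (28 / X.c + 144 / X.n : ℝ) ≤ ε / (2 * d))
    (hB : Btw X I (Gz Nh δ) δ E) :
    Geo d I.i₁ I.i₂ m R (δ * X.N) (δ * X.b) δ (δ * (X.N / 2 + X.n' - 1 / 2))
      (δ * (X.N / 2 + 5 * X.n' + 2)) (δ * ((X.Lg : ℝ) + 3) / c) ε Nh E := by
  obtain ⟨b1, b2, b3, b4, b5, b6, b7, b8, b9⟩ := X.basic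
  have hn' := X.n'_pos
  have hm := X.hm
  have b1' : (1 : ℝ) ≤ X.b := by exact_mod_cast b1
  have b2' : 4 * (X.b : ℝ) + 4 ≤ X.r := by exact_mod_cast b2
  have b4' : 3 * (X.r : ℝ) ≤ X.n := by exact_mod_cast b4
  have b5' : (X.n : ℝ) ≤ X.n' := by exact_mod_cast b5
  have b6' : 60 * (X.n' : ℝ) + X.r ≤ X.N := by exact_mod_cast b6
  have hmm : (X.m : ℝ) = m := by rw [hXm]; simp only [Int.cast_natCast]
  have hm' : (2 : ℝ) ≤ m := by rw [← hmm]; exact_mod_cast hm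
  have hc0 := hN.c_pos
  have hN0 : (0 : ℝ) < X.N := by exact_mod_cast X.N_pos
  have hLg : (X.Lg : ℝ) = (m + 2) * X.N := by
    unfold Lg
    push_cast
    rw [hmm]
  have hτ : 0 ≤ δ * ((X.Lg : ℝ) + 3) / c := by rw [hLg]; positivity
  have hb1 : δ * (((1 : ℤ) : ℝ)) = δ := by rw [Int.cast_one, mul_one]
  refine ⟨I.h12, ?_, hδ, ?_, ?_, hα, ?_, ?_, ?_, hτ, hB.meas, hB.sym, ?_, hN.cube, ?_, ?_, ?_, ?_⟩
  · rw [hXm] at hm
    exact_mod_cast hm
  · calc δ = δ * 1 := (mul_one δ).symm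
      _ ≤ δ * X.b := mul_le_mul_of_nonneg_left b1' hδ.le
  · rw [← mul_assoc, mul_comm 40 δ, mul_assoc]
    refine mul_le_mul_of_nonneg_left ?_ hδ.le
    linarith
  · have e : δ * X.N / 2 + 4 * (δ * X.b) = δ * (X.N / 2 + 4 * X.b) := by ring
    rw [e]
    refine mul_le_mul_of_nonneg_left ?_ hδ.le
    linarith
  · refine mul_le_mul_of_nonneg_left ?_ hδ.le
    linarith
  · rw [← mul_assoc, mul_comm 5 δ, mul_assoc, ← mul_assoc 3 δ, mul_comm 3 δ, mul_assoc]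
    refine mul_le_mul_of_nonneg_left ?_ hδ.le
    linarith
  · -- bdd
    intro u hu j
    obtain ⟨p, p', hp, hp', h⟩ := hB.up u hu
    have h2 := h j
    have h3 := P_le hok hp j
    have h4 := P_le hok hp' j
    have h5 : |p j - p' j| ≤ 2 * X.ρ₂ + 10 * X.N := by
      have := abs_sub (p j) (p' j)
      omega
    have h6 : |((p j - p' j : ℤ) : ℝ)| ≤ 2 * X.ρ₂ + 10 * X.N := by exact_mod_cast h5
    have h7 : |u j| ≤ |u j - δ * (p j - p' j : ℤ)| + |δ * (p j - p' j : ℤ)| := by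
      have := abs_add_le (u j - δ * (p j - p' j : ℤ)) (δ * (p j - p' j : ℤ))
      rwa [sub_add_cancel] at this
    rw [abs_mul, abs_of_pos hδ] at h7
    have h8 : δ * |((p j - p' j : ℤ) : ℝ)| ≤ δ * (2 * X.ρ₂ + 10 * X.N) :=
      mul_le_mul_of_nonneg_left h6 hδ.le
    have h9 : 8 * (δ * X.N) ≤ 1 := by
      refine le_trans ?_ hα
      have : 0 ≤ δ * X.N := by positivity
      nlinarith
    have h10 : δ * 60 ≤ δ * X.N := mul_le_mul_of_nonneg_left (by linarith) hδ.le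
    nlinarith
  · -- near
    intro u hu hE
    obtain ⟨t, k, hk1, hk2, hk3⟩ := near_out hδ hok hB hu hE
    cases t
    · refine Or.inr ⟨k, hk1, ?_, fun j => ?_⟩
      · change |k| < X.m + 1 at hk2
        rwa [hXm] at hk2
      · have h2 := hk3 j
        rw [ctr_cast] at h2
        change |u j - (if j = I.i₂ then k * (δ * X.N) else 0)| < δ * (((1 : ℤ) : ℝ)) at h2
        rwa [hb1] at h2
    · refine Or.inl ⟨k, hk1, ?_, fun j => ?_⟩
      · change |k| < X.m at hk2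
        rwa [hXm] at hk2
      · have h2 := hk3 j
        rw [ctr_cast] at h2
        exact h2
  · -- near_in
    rintro u (⟨k, hk1, hk2, hk3⟩ | ⟨k, hk1, hk2, hk3⟩)
    · refine near_in hok hδ hB (t := true) hk1 ?_ fun j => ?_
      · change |k| < X.m
        rwa [hXm]
      · rw [ctr_cast]
        exact hk3 j
    · refine near_in hok hδ hB (t := false) hk1 ?_ fun j => ?_
      · change |k| < X.m + 1
        rwa [hXm]
      · rw [ctr_cast]
        change |u j - (if j = I.i₂ then k * (δ * X.N) else 0)| < δ * (((1 : ℤ) : ℝ)) / 2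
        rw [hb1]
        exact hk3 j
  · -- far
    intro u _ hu h1 h2
    exact far hδ hok hB hXm hR hu h1 h2
  · -- junk
    have hn'' : (0 : ℝ) < X.n' := by exact_mod_cast hn'
    have hX1 : δ * X.n' ≤ m * (δ * X.N) := by
      have h1 : δ * X.n' ≤ δ * X.N := mul_le_mul_of_nonneg_left (by linarith) hδ.le
      have h2 : 1 * (δ * X.N) ≤ m * (δ * X.N) :=
        mul_le_mul_of_nonneg_right (by linarith) (by positivity)
      linarith
    have hX2 : δ * X.n' ≤ (m + 1) * (δ * X.N) := by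
      have h2 : 0 ≤ δ * X.N := by positivity
      linarith
    have hJ₁ := fun t => thin_JJ (X := X) hδ hX1 t
    have hJ₂ := fun t => thin_JJ (X := X) hδ hX2 t
    choose J₁ hJ₁ hJ₁' using hJ₁
    choose J₂ hJ₂ hJ₂' using hJ₂
    obtain ⟨J₃, hJ₃, hJ₃'⟩ := thin_slab (X := X) hδ
    have hn0 : (0 : ℝ) < X.n := by exact_mod_cast X.n_pos
    have hc1 : (0 : ℝ) < X.c := by
      have := X.hc
      exact_mod_cast (by omega : 0 < X.c)
    have hd : (1 : ℝ) ≤ d := by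
      have := I.i₁.pos
      exact_mod_cast (by omega : 1 ≤ d)
    have hε3 : (28 / X.c : ℝ) ≤ ε / (2 * d) := by
      refine le_trans ?_ hε
      have : (0 : ℝ) ≤ 144 / X.n := by positivity
      linarith
    have hε0 : (0 : ℝ) ≤ ε / (2 * d) := le_trans (by positivity) hε
    have hε2 : (28 / X.c + 144 / X.n : ℝ) ≤ ε / 2 := by
      refine hε.trans ?_
      have h1 : ε / (2 * d) * (2 * d) = ε := by field_simp
      have h2 : ε / (2 * d) * 2 ≤ ε / (2 * d) * (2 * d) :=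
        mul_le_mul_of_nonneg_left (by linarith) hε0
      linarith
    refine ⟨J₁, J₂, J₃, fun t => (hJ₁ t).mono (by positivity) hε2,
      fun t => (hJ₂ t).mono (by positivity) hε2, hJ₃.mono (by positivity) hε3, ?_⟩
    intro u hu hu1
    obtain ⟨q, hq, h⟩ := junk_real hN hc hδ hok hB hu hu1
    have hle : ∀ j, |u j - δ * (q j : ℤ)| ≤ 2 * δ := fun j => (h j).trans (by linarith)
    rcases hq with ⟨⟨i, hi⟩, ⟨j, hj⟩⟩ | ⟨hS1, hS2⟩ | ⟨j, hj⟩
    · refine Or.inl ⟨⟨i, ?_⟩, ⟨j, ?_⟩⟩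
      · have h2 := h I.i₁
        have h3 : 2 * |((q I.i₁ : ℤ) : ℝ) - X.m * X.N * i| ≤ X.N + 10 * X.n' := by
          exact_mod_cast hi
        have h4 : |((q I.i₁ : ℤ) : ℝ) - X.m * X.N * i| ≤ X.N / 2 + 5 * X.n' := by linarith
        rw [← hmm]
        rw [abs_le] at h2 h4 ⊢
        constructor <;> nlinarith [h2.1, h2.2, h4.1, h4.2]
      · have h2 := h I.i₂
        have h3 : 2 * |((q I.i₂ : ℤ) : ℝ) - (X.m + 1) * X.N * j| ≤ X.N + 10 * X.n' := by
          exact_mod_cast hj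
        have h4 : |((q I.i₂ : ℤ) : ℝ) - (X.m + 1) * X.N * j| ≤ X.N / 2 + 5 * X.n' := by
          linarith
        rw [← hmm]
        rw [abs_le] at h2 h4 ⊢
        constructor <;> nlinarith [h2.1, h2.2, h4.1, h4.2]
    · exact Or.inr (Or.inl ⟨hJ₁' _ _ _ hS1 (hle I.i₂) _ (hle I.i₁),
        hJ₂' _ _ _ hS2 (hle I.i₁) _ (hle I.i₂)⟩)
    · exact Or.inr (Or.inr ⟨I.i₃, I.h13.symm, I.h23.symm, hJ₃' _ ⟨j, hj⟩ _ (hle I.i₃)⟩)

end DPar

end Pool.Agent.RC
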