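import Pool.Agent.Lib.MP_09cbbd_rd.DDef

/-!
# A connected body: the integer parameters
-/

set_option autoImplicit false

namespace Pool.Agent.RC

namespace DPar

/-- What the numbers have to satisfy. `b₁` and `C` give the sizes of the windows, `A / c + B / n` is
the thinness of the junk. -/
structure NumD (X : DPar) (m H b₁ C : ℕ) (R ε A B α δ : ℝ) (ρ : ℤ) : Prop where
  Xm : X.m = m
  δ0 : 0 < δ
  δN : δ * X.N = α
  δρ : δ * ρ = 1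
  da : δ * X.b = α * ((b₁ + 1 / 4) / (C * (b₁ + 2)))
  db : δ = α * (1 / 4 / (C * (b₁ + 2)))
  hLg : X.Lg ≤ ρ
  hρρ : ρ ≤ X.ρ₂
  hB : X.ρ₂ + 3 * X.N ≤ X.B
  hB' : X.B ≤ X.ρ₂ + 4 * X.N
  hR : R ≤ δ * X.ρ₂
  hR' : δ * X.ρ₂ ≤ R + δ
  hα : 2 * (m + 2) * (δ * X.N) ≤ 1
  hτ : δ * (X.Lg + 3) ≤ (m + 3) * α
  hτ1 : δ * (X.Lg + 3) * H ≤ 1
  hε : A / X.c + B / X.n ≤ ε

/-- **The integer parameters.** -/
theorem exists_par (m : ℕ) (hm : 2 ≤ m) (R : ℝ) (hR : 1 ≤ R) (ε : ℝ) (hε : 0 < ε) (A B : ℝ)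
    (hA : 0 ≤ A) (hB : 0 ≤ B) :
    ∃ C b₀ : ℕ, 0 < C ∧ ∀ b₁ : ℕ, b₀ ≤ b₁ → ∀ H : ℕ, 7 ≤ H →
      ∀ α : ℝ, α * (m * (m + 1) * H) = 1 →
      ∃ (X : DPar) (δ : ℝ) (ρ : ℤ), NumD X m H b₁ C R ε A B α δ ρ := by
  obtain ⟨c, hc⟩ : ∃ c : ℕ, c = ⌈2 * A / ε⌉₊ + 1 := ⟨_, rfl⟩
  obtain ⟨b₀, hb₀⟩ : ∃ b₀ : ℕ, b₀ = ⌈2 * B / ε⌉₊ := ⟨_, rfl⟩
  have hm' : (2 : ℝ) ≤ m := by exact_mod_cast hm
  have hc1 : 2 * A / ε ≤ c := by
    rw [hc]; push_cast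
    have := Nat.le_ceil (2 * A / ε)
    linarith
  have hc0 : 1 ≤ c := by omega
  obtain ⟨C, hC⟩ : ∃ C : ℕ, C = 4 * (60 * c * (m + 1) + 1) := ⟨_, rfl⟩
  have hC0 : 0 < C := by omega
  refine ⟨C, b₀, hC0, fun b₁ hb₁ H hH α hα => ?_⟩
  have hH' : (7 : ℝ) ≤ H := by exact_mod_cast hH
  have hb₁' : 2 * B / ε ≤ b₁ := by
    have h1 := Nat.le_ceil (2 * B / ε)
    rw [← hb₀] at h1
    have h2 : (b₀ : ℝ) ≤ b₁ := by exact_mod_cast hb₁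
    linarith
  have hb10 : (0 : ℝ) ≤ b₁ := Nat.cast_nonneg _
  -- the integer parameters
  obtain ⟨N, hN⟩ : ∃ N : ℤ, N = 16 * (60 * c * (m + 1) + 1) * (b₁ + 2) := ⟨_, rfl⟩
  obtain ⟨ρ, hρ⟩ : ∃ ρ : ℤ, ρ = m * (m + 1) * H * N := ⟨_, rfl⟩
  obtain ⟨n', hn'⟩ : ∃ n' : ℤ, n' = c * ((m + 1) * (2 * (8 * (b₁ + 2)))) := ⟨_, rfl⟩
  obtain ⟨X, hX⟩ : ∃ X : DPar, X = ⟨m, 4 * b₁ + 1, 8 * (b₁ + 2), c, 60, ⌈R * ρ⌉,
    (⌈R * ρ⌉ + 3 * N) / n' + 1, by exact_mod_cast hm, by omega, by omega, by exact_mod_cast hc0,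
    le_rfl⟩ := ⟨_, rfl⟩
  have Xm : X.m = m := by rw [hX]
  have Xb : X.b = 4 * b₁ + 1 := by rw [hX]
  have Xc : X.c = c := by rw [hX]
  have Xρ₂ : X.ρ₂ = ⌈R * ρ⌉ := by rw [hX]
  have Xr : X.r = 2 * (8 * (b₁ + 2)) := by rw [hX]; rfl
  have Xn : X.n = (m + 1) * (2 * (8 * (b₁ + 2))) := by rw [hX]; rfl
  have Xn' : X.n' = n' := by rw [hX, hn']; rfl
  have XN : X.N = N := by
    rw [hN, hX]
    change 60 * (c * ((m + 1) * (2 * (8 * ((b₁ : ℤ) + 2))))) + 2 * (8 * ((b₁ : ℤ) + 2)) = _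
    ring
  have XM : X.M = (⌈R * ρ⌉ + 3 * N) / n' + 1 := by rw [hX]
  have XB : X.B = ((⌈R * ρ⌉ + 3 * N) / n' + 1) * n' := by
    have e : X.B = X.M * X.n' := rfl
    rw [e, XM, Xn']
  have hN0 : 0 < N := by rw [← XN]; exact X.N_pos
  have hn0 : 0 < n' := by rw [← Xn']; exact X.n'_pos
  have hnN : n' ≤ N := by
    have h1 := X.N_ge
    have h2 := X.r_pos
    rw [Xn', XN] at h1
    omega
  have hmz : (2 : ℤ) ≤ m := by exact_mod_cast hm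
  have hHz : (7 : ℤ) ≤ H := by exact_mod_cast hH
  have hN' : (0 : ℝ) < N := by exact_mod_cast hN0
  have hN1 : (1 : ℝ) ≤ N := by exact_mod_cast hN0
  have hρ' : (ρ : ℝ) = m * (m + 1) * H * N := by rw [hρ]; push_cast; ring
  have hρ0 : (0 : ℝ) < ρ := by rw [hρ']; positivity
  have hLg0 : X.Lg = (m + 2) * N := by
    have e : X.Lg = (X.m + 2) * X.N := rfl
    rw [e, Xm, XN]
  have hLg : X.Lg ≤ ρ := by
    rw [hLg0, hρ]
    refine mul_le_mul_of_nonneg_right ?_ hN0.le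
    have h1 : (m : ℤ) * (m + 1) * 7 ≤ m * (m + 1) * H :=
      mul_le_mul_of_nonneg_left hHz (by positivity)
    nlinarith
  have hρρ : ρ ≤ X.ρ₂ := by
    rw [Xρ₂]
    have h1 : (ρ : ℝ) ≤ ⌈R * ρ⌉ := by
      refine le_trans ?_ (Int.le_ceil _)
      nlinarith
    exact_mod_cast h1
  have hα0 : 0 < α := by
    by_contra h
    rw [not_lt] at h
    have : α * (m * (m + 1) * H) ≤ 0 := mul_nonpos_of_nonpos_of_nonneg h (by positivity)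
    linarith
  obtain ⟨δ, hδ⟩ : ∃ δ : ℝ, δ = α / N := ⟨_, rfl⟩
  have hδ0 : 0 < δ := by rw [hδ]; positivity
  have hδN : δ * N = α := by rw [hδ]; field_simp
  have hδρ : δ * ρ = 1 := by
    calc δ * ρ = (δ * N) * (m * (m + 1) * H) := by rw [hρ']; ring
      _ = 1 := by rw [hδN, hα]
  have hC' : (C : ℝ) = 4 * (60 * c * (m + 1) + 1) := by rw [hC]; push_cast; ring
  have hNC : (N : ℝ) = 4 * C * ((b₁ : ℝ) + 2) := by
    rw [hN, hC']; push_cast; ring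
  have hb2 : (0 : ℝ) < (b₁ : ℝ) + 2 := by positivity
  have hCp : (0 : ℝ) < C := by exact_mod_cast hC0
  have hLgR : (X.Lg : ℝ) = (m + 2) * N := by rw [hLg0]; push_cast; ring
  have hτ : δ * (X.Lg + 3) ≤ (m + 3) * α := by
    rw [hLgR]
    have h1 : δ * ((m + 2) * N + 3) = (m + 2) * (δ * N) + 3 * δ := by ring
    rw [h1, hδN]
    have hN2 : (3 : ℝ) ≤ N := by
      have h2 : (3 : ℤ) ≤ N := by
        have h3 := X.N_ge
        have h4 := X.n'_pos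
        have h5 := X.r_pos
        rw [XN] at h3
        omega
      exact_mod_cast h2
    have h2 : 3 * δ ≤ α := by
      rw [← hδN, mul_comm 3 δ]
      exact mul_le_mul_of_nonneg_left hN2 hδ0.le
    linarith
  have hmα : ((m : ℝ) + 3) * α * H ≤ 1 := by
    rw [← hα]
    have h1 : ((m : ℝ) + 3) ≤ m * (m + 1) := by nlinarith
    calc ((m : ℝ) + 3) * α * H = (m + 3) * (α * H) := by ring
      _ ≤ m * (m + 1) * (α * H) := mul_le_mul_of_nonneg_right h1 (by positivity)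
      _ = α * (m * (m + 1) * H) := by ring
  refine ⟨X, δ, ρ, Xm, hδ0, by rw [XN, hδN], hδρ, ?_, ?_, hLg, hρρ, ?_, ?_, ?_, ?_, ?_, hτ, ?_, ?_⟩
  · rw [Xb, hδ, hNC]
    push_cast
    field_simp
  · rw [hδ, hNC]
    field_simp
  · rw [XB, Xρ₂, XN]
    have h1 := Int.lt_ediv_add_one_mul_self (⌈R * ρ⌉ + 3 * N) hn0
    exact h1.le
  · rw [XB, Xρ₂, XN]
    have h1 := Int.ediv_mul_le (⌈R * ρ⌉ + 3 * N) hn0.ne'
    have h2 : ((⌈R * ρ⌉ + 3 * N) / n' + 1) * n' = (⌈R * ρ⌉ + 3 * N) / n' * n' + n' := by ring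
    rw [h2]
    omega
  · rw [Xρ₂]
    have h1 := mul_le_mul_of_nonneg_left (Int.le_ceil (R * ρ)) hδ0.le
    have h2 : δ * (R * ρ) = R := by rw [mul_left_comm, hδρ, mul_one]
    rwa [h2] at h1
  · rw [Xρ₂]
    have h1 := (Int.ceil_lt_add_one (R * ρ)).le
    have h2 : δ * (R * ρ) = R := by rw [mul_left_comm, hδρ, mul_one]
    have h3 := mul_le_mul_of_nonneg_left h1 hδ0.le
    rw [mul_add, h2, mul_one] at h3
    exact h3
  · rw [XN, hδN]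
    have h1 : ((m : ℝ) + 3) * α * 7 ≤ (m + 3) * α * H :=
      mul_le_mul_of_nonneg_left hH' (by positivity)
    have h2 : 2 * ((m : ℝ) + 2) * α ≤ (m + 3) * α * 7 := by nlinarith
    linarith
  · have h1 : δ * (X.Lg + 3) * H ≤ (m + 3) * α * H :=
      mul_le_mul_of_nonneg_right hτ (by positivity)
    linarith
  · rw [Xc, Xn]
    push_cast
    have hc' : (0 : ℝ) < c := by exact_mod_cast hc0
    have h1 : A / (c : ℝ) ≤ ε / 2 := by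
      rw [div_le_iff₀ hε] at hc1
      rw [div_le_iff₀ hc']
      linarith
    have h2 : B / (((m : ℝ) + 1) * (2 * (8 * (b₁ + 2)))) ≤ ε / 2 := by
      rw [div_le_iff₀ hε] at hb₁'
      rw [div_le_iff₀ (by positivity)]
      have h3 : (b₁ : ℝ) ≤ (m + 1) * (2 * (8 * (b₁ + 2))) := by nlinarith
      have h4 : (b₁ : ℝ) * ε ≤ (m + 1) * (2 * (8 * (b₁ + 2))) * ε :=
        mul_le_mul_of_nonneg_right h3 hε.le
      linarith
    linarith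

end DPar

end Pool.Agent.RC
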