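import Pool.Agent.Lib.MP_09cbbd_rd.DBody
import Pool.Agent.Lib.MP_09cbbd_rd.DCon

/-!
# A connected body: the topology
-/

set_option autoImplicit false

namespace Pool.Agent.RC

namespace DPar

variable {X : DPar} {d : ℕ} {I : Dir3 d} {G : (Fin d → ℤ) → Prop} {ρ : ℤ}

/-- the open double box of two cubes -/
def DBox (δ : ℝ) (p q : Fin d → ℤ) : Set (Fin d → ℝ) :=
  Set.pi Set.univ fun j => Set.Ioo (δ * min (p j : ℝ) (q j)) (δ * max (p j : ℝ) (q j) + δ)

theorem DBox_open (δ : ℝ) (p q : Fin d → ℤ) : IsOpen (DBox δ p q) :=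
  isOpen_set_pi Set.finite_univ fun _ _ => isOpen_Ioo

theorem DBox_pre (δ : ℝ) (p q : Fin d → ℤ) : IsPreconnected (DBox δ p q) :=
  (convex_pi fun _ _ => convex_Ioo _ _).isPreconnected

theorem ctr_left {δ : ℝ} (hδ : 0 < δ) (p q : Fin d → ℤ) :
    (fun j => δ * p j + δ / 2) ∈ DBox δ p q := by
  intro j _
  have h1 := mul_le_mul_of_nonneg_left (min_le_left (p j : ℝ) (q j)) hδ.le
  have h2 := mul_le_mul_of_nonneg_left (le_max_left (p j : ℝ) (q j)) hδ.le
  constructor <;> linarith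

theorem ctr_right {δ : ℝ} (hδ : 0 < δ) (p q : Fin d → ℤ) :
    (fun j => δ * q j + δ / 2) ∈ DBox δ p q := by
  intro j _
  have h1 := mul_le_mul_of_nonneg_left (min_le_right (p j : ℝ) (q j)) hδ.le
  have h2 := mul_le_mul_of_nonneg_left (le_max_right (p j : ℝ) (q j)) hδ.le
  constructor <;> linarith

/-- the union of the double boxes at `p` -/
def Star (X : DPar) (I : Dir3 d) (G : (Fin d → ℤ) → Prop) (δ : ℝ) (p : Fin d → ℤ) :
    Set (Fin d → ℝ) := ⋃ q ∈ {q | Adj p q ∧ X.P I G q}, DBox δ p q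

theorem Adj.refl' (i : Fin d) (p : Fin d → ℤ) : Adj p p :=
  ⟨i, by simp, fun _ _ => rfl⟩

theorem Adj.symm' {p q : Fin d → ℤ} (h : Adj p q) : Adj q p := by
  obtain ⟨l, h1, h2⟩ := h
  exact ⟨l, by rwa [abs_sub_comm], fun j hj => (h2 j hj).symm⟩

theorem DBox_sub {δ : ℝ} {p q : Fin d → ℤ} (hp : X.P I G p) (hq : X.P I G q)
    (h : Adj p q) : DBox δ p q ⊆ X.body I G δ := by
  intro x hx
  obtain ⟨l, h1, h2⟩ := h
  have hx' : ∀ j, j ≠ l → δ * p j < x j ∧ x j < δ * p j + δ := fun j hj => by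
    have h3 : δ * min (p j : ℝ) (q j) < x j ∧ x j < δ * max (p j : ℝ) (q j) + δ :=
      hx j (Set.mem_univ _)
    rw [← h2 j hj, min_self, max_self] at h3
    exact h3
  have hl : δ * min (p l : ℝ) (q l) < x l ∧ x l < δ * max (p l : ℝ) (q l) + δ :=
    hx l (Set.mem_univ _)
  have h3 : q l = p l ∨ q l = p l + 1 ∨ q l = p l - 1 := by
    rw [abs_le] at h1
    omega
  rcases h3 with h3 | h3 | h3
  · rw [h3, min_self, max_self] at hl
    refine ⟨p, hp, fun j => ?_⟩
    by_cases hj : j = l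
    · rw [hj]; exact ⟨hl.1.le, hl.2.le⟩
    · exact ⟨(hx' j hj).1.le, (hx' j hj).2.le⟩
  · have e : (q l : ℝ) = p l + 1 := by rw [h3]; push_cast; ring
    rw [e, min_eq_left (by linarith), max_eq_right (by linarith)] at hl
    rcases le_total (x l) (δ * p l + δ) with h4 | h4
    · refine ⟨p, hp, fun j => ?_⟩
      by_cases hj : j = l
      · rw [hj]; exact ⟨hl.1.le, h4⟩
      · exact ⟨(hx' j hj).1.le, (hx' j hj).2.le⟩
    · refine ⟨q, hq, fun j => ?_⟩
      by_cases hj : j = l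
      · rw [hj, e]
        constructor
        · linarith
        · exact hl.2.le
      · rw [← h2 j hj]; exact ⟨(hx' j hj).1.le, (hx' j hj).2.le⟩
  · have e : (p l : ℝ) = q l + 1 := by rw [h3]; push_cast; ring
    rw [e, min_eq_right (by linarith), max_eq_left (by linarith)] at hl
    rcases le_total (x l) (δ * q l + δ) with h4 | h4
    · refine ⟨q, hq, fun j => ?_⟩
      by_cases hj : j = l
      · rw [hj]; exact ⟨hl.1.le, h4⟩
      · rw [← h2 j hj]; exact ⟨(hx' j hj).1.le, (hx' j hj).2.le⟩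
    · refine ⟨p, hp, fun j => ?_⟩
      by_cases hj : j = l
      · rw [hj, e]
        constructor
        · linarith
        · exact hl.2.le
      · exact ⟨(hx' j hj).1.le, (hx' j hj).2.le⟩

theorem Star_pre {δ : ℝ} (hδ : 0 < δ) (p : Fin d → ℤ) : IsPreconnected (X.Star I G δ p) := by
  unfold Star
  rw [Set.biUnion_eq_iUnion]
  exact isPreconnected_iUnion ⟨fun j => δ * p j + δ / 2,
    Set.mem_iInter.2 fun q => ctr_left hδ p q⟩ fun q => DBox_pre δ p q

theorem union_pre (hok : X.Ok G ρ) {δ : ℝ} (hδ : 0 < δ) :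
    IsPreconnected (⋃ p ∈ {p | X.P I G p}, X.Star I G δ p) := by
  refine IsPreconnected.biUnion_of_reflTransGen (fun p _ => Star_pre hδ p) ?_
  have key : ∀ {p q : Fin d → ℤ}, Adj p q ∧ X.P I G p ∧ X.P I G q →
      (X.Star I G δ p ∩ X.Star I G δ q).Nonempty ∧ p ∈ {p | X.P I G p} := by
    rintro p q ⟨h1, h2, h3⟩
    refine ⟨⟨fun j => δ * q j + δ / 2, Set.mem_biUnion (x := q) ⟨h1, h3⟩ (ctr_right hδ p q),
      Set.mem_biUnion (x := q) ⟨Adj.refl' I.i₁ q, h3⟩ (ctr_left hδ q q)⟩, h2⟩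
  intro p hp q hq
  have h1 := conn (I := I) hok hp
  have h2 := conn (I := I) hok hq
  have h3 : Relation.ReflTransGen (fun x y => Adj x y ∧ X.P I G x ∧ X.P I G y) 0 q := by
    have : Std.Symm (fun x y => Adj x y ∧ X.P I G x ∧ X.P I G y) :=
      ⟨fun x y ⟨g1, g2, g3⟩ => ⟨g1.symm', g3, g2⟩⟩
    exact Std.Symm.symm _ _ h2
  exact Relation.ReflTransGen.mono (fun _ _ h => key h) _ _ (h1.trans h3)

theorem connected (hok : X.Ok G ρ) {δ : ℝ} (hδ : 0 < δ) :
    IsConnected (X.body I G δ) ∧ IsConnected (interior (X.body I G δ)) := by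
  obtain ⟨U, hU⟩ : ∃ U, U = ⋃ p ∈ {p | X.P I G p}, X.Star I G δ p := ⟨_, rfl⟩
  have hpre : IsPreconnected U := hU ▸ union_pre hok hδ
  have hmem : ∀ p, X.P I G p → DBox δ p p ⊆ U := fun p hp x hx => by
    rw [hU]
    exact Set.mem_biUnion (x := p) hp (Set.mem_biUnion (x := p) ⟨Adj.refl' I.i₁ p, hp⟩ hx)
  have hopen : IsOpen U := by
    rw [hU]
    exact isOpen_biUnion fun p _ => isOpen_biUnion fun q _ => DBox_open δ p q
  have hsub : U ⊆ X.body I G δ := by
    rw [hU]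
    intro x hx
    obtain ⟨p, hp, hx⟩ := Set.mem_iUnion₂.1 hx
    obtain ⟨q, ⟨hq1, hq2⟩, hx⟩ := Set.mem_iUnion₂.1 hx
    exact DBox_sub hp hq2 hq1 hx
  have hint : U ⊆ interior (X.body I G δ) := interior_maximal hsub hopen
  have hcl : X.body I G δ ⊆ closure U := by
    rintro x ⟨p, hp, hx⟩
    refine closure_mono (hmem p hp) ?_
    unfold DBox
    rw [closure_pi_set]
    intro j _
    change x j ∈ closure (Set.Ioo (δ * min (p j : ℝ) (p j)) (δ * max (p j : ℝ) (p j) + δ))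
    rw [min_self, max_self, closure_Ioo (by linarith)]
    exact hx j
  have hne : U.Nonempty := ⟨_, hmem 0 zero_mem_P (ctr_left hδ 0 0)⟩
  exact ⟨⟨hne.mono hsub, hpre.subset_closure hsub hcl⟩,
    ⟨hne.mono hint, hpre.subset_closure hint (interior_subset.trans hcl)⟩⟩

end DPar

end Pool.Agent.RC
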