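import Pool.Agent.Lib.MP_09cbbd_rd.DGeoB
import Pool.Agent.Lib.MP_09cbbd_rd.DTop
import Pool.Agent.Lib.MP_09cbbd_rd.DNum
import Pool.Agent.Lib.MP_09cbbd_rd.DEnd

/-!
# The family of connected bodies
-/

set_option autoImplicit false

namespace Pool.Agent.RC

open MeasureTheory Pointwise

/-- **The connected bodies with a general hard core**, with the same parameters as in `instKN`. -/
theorem instKD {d : ℕ} (I : Dir3 d) {Nh : Set (Fin d → ℝ)} {c₀ : ℝ} {D : ℕ}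
    (hCr : Core Nh c₀ D) :
    InstQ d (fun K => IsConnected K ∧ IsConnected (interior K)) I.i₁ I.i₂ Nh c₀ D := by
  intro m hm R hDR ε hε
  have hR : 1 ≤ R := le_trans (by exact_mod_cast hCr.one_le I.i₁) hDR
  have hd : (0 : ℝ) < d := by exact_mod_cast I.i₁.pos
  obtain ⟨C, b₀, hC, h⟩ := DPar.exists_par m hm R hR (ε / (2 * d)) (by positivity) 28 144
    (by norm_num) (by norm_num)
  refine ⟨C, b₀, hC, fun b₁ hb₁ H hH hcH α hα => ?_⟩
  obtain ⟨X, δ, ρ, Q⟩ := h b₁ hb₁ H hH α hα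
  have hH' : (7 : ℝ) ≤ H := by exact_mod_cast hH
  have hα0 : 0 < α := by
    rw [← Q.δN]
    exact mul_pos Q.δ0 (by exact_mod_cast X.N_pos)
  have hN1 : (1 : ℝ) ≤ X.N := by exact_mod_cast X.N_pos
  have hLg0 : (0 : ℝ) ≤ X.Lg := by
    have e : X.Lg = (X.m + 2) * X.N := rfl
    have h1 := X.hm
    have h2 := X.N_pos
    have h3 : 0 ≤ X.Lg := by rw [e]; exact mul_nonneg (by omega) h2.le
    exact_mod_cast h3
  have hc : δ * (X.Lg + 3) ≤ c₀ := by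
    have h1 := Q.hτ1
    have h0 : 0 ≤ δ * (X.Lg + 3) := mul_nonneg Q.δ0.le (by linarith)
    have h2 : δ * (X.Lg + 3) * H * 7 ≤ c₀ * H := by linarith
    have h3 : (δ * (X.Lg + 3) * 7 - c₀) * H ≤ 0 := by linarith
    by_contra h4
    rw [not_le] at h4
    have h5 : 0 < (δ * (X.Lg + 3) * 7 - c₀) * H := mul_pos (by linarith) (by linarith)
    linarith
  have hδ1 : δ ≤ 1 := by
    have h1 := Q.δρ
    have h2 : (1 : ℝ) ≤ ρ := by
      have h3 := Q.hLg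
      have h4 : (1 : ℤ) ≤ X.Lg := by
        have e : X.Lg = (X.m + 2) * X.N := rfl
        have h1 := X.hm
        have h2 := X.N_pos
        rw [e]
        nlinarith
      exact_mod_cast h4.trans h3
    have h3 : δ * 1 ≤ δ * ρ := mul_le_mul_of_nonneg_left h2 Q.δ0.le
    linarith
  have hok : X.Ok (IPar.Gz Nh δ) ρ :=
    ⟨Q.hLg, Q.hρρ, Q.hB, Q.hB', IPar.Gz_neg hCr.sym, IPar.Gz_cube hCr.cube Q.δ0 hδ1 Q.δρ,
      IPar.Gz_bdd hCr.bdd Q.δ0 (hDR.trans Q.hR)⟩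
  obtain ⟨hK1, hK2⟩ := DPar.connected (I := I) hok Q.δ0
  have key := fun E => DPar.geo_body (X := X) (I := I) (E := E) (ε := ε) Q.Xm hCr hok hc Q.δ0
    Q.hR Q.hR' Q.hα Q.hε
  rw [Q.δN, Q.da] at key
  refine ⟨X.body I (IPar.Gz Nh δ) δ, δ / 16, δ * (X.N / 2 + X.n' - 1 / 2),
    δ * (X.N / 2 + 5 * X.n' + 2), δ * (X.Lg + 3) / c₀, DPar.isBody hok Q.δ0, ⟨hK1, hK2⟩,
    div_pos Q.δ0 (by norm_num), ?_, fun K₁ h1 h2 h3 => ?_⟩
  swap
  · rw [← Q.db]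
    exact key _ (DPar.btw_body hok Q.δ0 h1 h2 h3)
  refine div_le_div_of_nonneg_right (Q.hτ.trans ?_) hCr.c_pos.le
  refine mul_le_mul_of_nonneg_right ?_ hα0.le
  have hm' : (2 : ℝ) ≤ m := by exact_mod_cast hm
  nlinarith

end Pool.Agent.RC
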